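import Pool.Agent.Y311.CX.Ker
import Pool.Agent.Y311.UB.Ext

/-!
# Control by the second order energy, and for weakly mixing maps
-/

set_option autoImplicit false
set_option linter.unusedSectionVars false

open Filter Topology MeasureTheory ProbabilityTheory

noncomputable section

namespace Pool.Agent.Y311.CX

open Pool.Agent.Y311.UB Pool.Agent.W761.Box

variable {ι : Type} {k : ℕ}

section general

variable {G : Type} [AddCommGroup G] {X : Type} [MeasurableSpace X] {μ : Measure X}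
  [IsProbabilityMeasure μ] {Φ : G → Equiv.Perm X}

/-- arbitrarily small controls give the zero control -/
theorem ctl_zero {L : (Fin k → ℤ) →+ G} {v : ι → Fin k → ℤ} {l : List ι} {F : X → ℝ} {p : ℕ}
    (H : ∀ η : ℝ, 0 < η → ∃ R : X → ℝ, Measurable R ∧ (∀ x, 0 ≤ R x ∧ R x ≤ 1) ∧
      Ctl μ Φ L v l F R ∧ ∫ x, R x ^ p ∂μ ≤ η) : Ctl μ Φ L v l F fun _ => 0 := by
  choose R hRm hR01 hRc hRi using fun i : ℕ => H (1 / ((i : ℝ) + 1)) (by positivity)
  have h0 : ∀ i, 0 ≤ᵐ[μ] fun x => R i x ^ p := fun i =>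
    Eventually.of_forall fun x => pow_nonneg (hR01 i x).1 _
  have hi : ∀ i, Integrable (fun x => R i x ^ p) μ := by
    intro i
    refine Integrable.of_bound ((hRm i).pow_const _).aestronglyMeasurable 1
      (Eventually.of_forall fun x => ?_)
    rw [Real.norm_eq_abs, abs_of_nonneg (pow_nonneg (hR01 i x).1 _)]
    exact pow_le_one₀ (hR01 i x).1 (hR01 i x).2
  have ht : Tendsto (fun i => ∫ x, R i x ^ p ∂μ) atTop (𝓝 0) :=
    squeeze_zero (fun i => integral_nonneg_of_ae (h0 i)) hRi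
      (tendsto_one_div_add_atTop_nhds_zero_nat (𝕜 := ℝ))
  have h1 := ae_exists_lt h0 hi ht
  have h2 : ∀ᵐ x ∂μ, ∀ i, ∀ b : ι → (Fin k → ℤ) → ℝ, (∀ i m, |b i m| ≤ 1) →
      (∀ i ∈ l, ∀ m, b i (m + v i) = b i m) →
      AB (fun N => bz N fun m => F (Φ (L m) x) * (l.map fun i => b i m).prod) (R i x) := by
    rw [ae_all_iff]
    exact hRc
  filter_upwards [h1, h2] with x hx1 hx2 b hb hbi ε hε
  obtain ⟨i, hi'⟩ := hx1 ((ε / 2) ^ p) (by positivity)
  have h3 : R i x < ε / 2 := lt_of_pow_lt_pow_left₀ p (by positivity) hi'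
  filter_upwards [hx2 i b hb hbi (ε / 2) (by positivity)] with N hN
  linarith

end general

section two

variable {X : Type} [MeasurableSpace X] [StandardBorelSpace X] {μ : Measure X}
  [IsProbabilityMeasure μ] {Φ : ℤ → Equiv.Perm X} {w : ℤ}

/-- two directions: the control vanishes with the second order energy -/
theorem ctl_two (h : Act μ Φ) {L : (Fin k → ℤ) →+ ℤ} {v : ι → Fin k → ℤ} {i j : ι}
    (hi : L (v i) = w) (hj : L (v j) = w) {u : X → ℝ} (hu : Measurable u)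
    (hu1 : ∀ x, |u x| ≤ 1)
    (hE : ∫ z, ((relSq μ Φ w)[fun z : X × X => u z.1 * u z.2 | inv (relΦ Φ w 0) w]) z ^ 2
      ∂(relSq μ Φ w) = 0) : Ctl μ Φ L v [i, j] u fun _ => 0 := by
  refine ctl_zero (p := 4) fun η hη => ?_
  have huB : BMr u := ⟨hu, 1, hu1⟩
  set Gf : X × X → ℝ := fun z => u z.1 * u z.2 with hG
  have hGB : BMr Gf := (huB.comp measurable_fst).mul (huB.comp measurable_snd)
  have hact := h.rel (w := w) (0 : ℤ →+ ℤ)
  have h1 := hact.mean_sq w hGB
  rw [hE] at h1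
  obtain ⟨S, hS1, hS0⟩ := (((tendsto_order.mp h1).2 (η / 2) (by positivity)).and
    (eventually_gt_atTop 0)).exists
  set Fs : ℕ → ℕ → X → ℝ := fun s s' x => u (Φ (s • w) x) * u (Φ (s' • w) x) with hFs
  have hFsB : ∀ s s', BMr (Fs s s') := fun s s' =>
    (huB.comp (h.measurable _)).mul (huB.comp (h.measurable _))
  have hFs1 : ∀ s s' x, |Fs s s' x| ≤ 1 := by
    intro s s' x
    rw [hFs]
    simp only
    rw [abs_mul]
    exact mul_le_one₀ (hu1 _) (abs_nonneg _) (hu1 _)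
  have h2 : ∀ᶠ S' : ℕ in atTop, ∀ s ∈ Finset.range S, ∀ s' ∈ Finset.range S,
      ∫ x, ((S' : ℝ)⁻¹ * ∑ t ∈ Finset.range S', Fs s s' (Φ (t • w) x)) ^ 2 ∂μ ≤
        ∫ z, Fs s s' z.1 * Fs s s' z.2 ∂(relSq μ Φ w) + η / 2 := by
    rw [Filter.eventually_all_finset]
    intro s _
    rw [Filter.eventually_all_finset]
    intro s' _
    have h3 := h.mean_sq w (hFsB s s')
    have h4 : ∫ x, (μ[Fs s s' | inv Φ w]) x ^ 2 ∂μ =
        ∫ z, Fs s s' z.1 * Fs s s' z.2 ∂(relSq μ Φ w) := by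
      rw [int_relSq (hFsB s s') (hFsB s s')]
      congr 1
      funext x
      ring
    rw [h4] at h3
    exact ((tendsto_order.mp h3).2 _ (by linarith)).mono fun S' hS' => hS'.le
  obtain ⟨S', hS'1, hS'0⟩ := (h2.and (eventually_gt_atTop 0)).exists
  have h5 : ∀ s s', ∃ R : X → ℝ, Measurable R ∧ (∀ x, 0 ≤ R x ∧ R x ≤ 1) ∧
      Ctl μ Φ L v [j] (Fs s s') R ∧ ∫ x, R x ^ 2 ∂μ ≤
        ∫ x, ((S' : ℝ)⁻¹ * ∑ t ∈ Finset.range S', Fs s s' (Φ (t • L (v j)) x)) ^ 2 ∂μ :=
    fun s s' => ctl_one h L v j (hFsB s s').1 (hFs1 s s') hS'0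
  choose R hRm hR01 hRc hRi using h5
  obtain ⟨R', hR'm, hR'01, hR'c, hR'i⟩ := ctl_step h L v i [j] hu1 hS0 hRm hR01
    (fun s _ s' _ => by rw [hi]; exact hRc s s')
  refine ⟨R', hR'm, hR'01, hR'c, ?_⟩
  have h6 : ∀ s ∈ Finset.range S, ∀ s' ∈ Finset.range S, ∫ x, R s s' x ^ (2 ^ [j].length) ∂μ ≤
      ∫ z, Fs s s' z.1 * Fs s s' z.2 ∂(relSq μ Φ w) + η / 2 := by
    intro s hs s' hs'
    refine le_trans (le_of_eq ?_) (((hRi s s').trans (le_of_eq ?_)).trans (hS'1 s hs s' hs'))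
    · simp
    · rw [hj]
  have h7 : ∫ x, R' x ^ 4 ∂μ ≤ (S : ℝ)⁻¹ ^ 2 * ∑ s ∈ Finset.range S, ∑ s' ∈ Finset.range S,
      (∫ z, Fs s s' z.1 * Fs s s' z.2 ∂(relSq μ Φ w) + η / 2) := by
    refine le_trans (le_of_eq ?_) (hR'i.trans ?_)
    · simp
    · exact mul_le_mul_of_nonneg_left (Finset.sum_le_sum fun s hs => Finset.sum_le_sum fun s' hs' =>
        h6 s hs s' hs') (by positivity)
  have hSpos : (0 : ℝ) < S := by exact_mod_cast hS0
  have h8 : (S : ℝ)⁻¹ ^ 2 * ∑ s ∈ Finset.range S, ∑ s' ∈ Finset.range S,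
      (∫ z, Fs s s' z.1 * Fs s s' z.2 ∂(relSq μ Φ w) + η / 2) =
      ∫ z, ((S : ℝ)⁻¹ * ∑ s ∈ Finset.range S, Gf (relΦ Φ w (0 : ℤ →+ ℤ) (s • w) z)) ^ 2
        ∂(relSq μ Φ w) + η / 2 := by
    have e1 : (fun z => ((S : ℝ)⁻¹ * ∑ s ∈ Finset.range S,
        Gf (relΦ Φ w (0 : ℤ →+ ℤ) (s • w) z)) ^ 2) = fun z => (S : ℝ)⁻¹ ^ 2 *
        ∑ s ∈ Finset.range S, ∑ s' ∈ Finset.range S, Fs s s' z.1 * Fs s s' z.2 := by
      funext z
      rw [mul_pow, sq (∑ s ∈ Finset.range S, Gf (relΦ Φ w (0 : ℤ →+ ℤ) (s • w) z)),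
        Finset.sum_mul_sum]
      congr 1
      refine Finset.sum_congr rfl fun s _ => Finset.sum_congr rfl fun s' _ => ?_
      simp only [hG, hFs, relΦ_apply, AddMonoidHom.zero_apply, zero_smul, sub_zero]
      ring
    rw [e1, integral_const_mul, integral_finsetSum]
    · simp only [Finset.sum_add_distrib, Finset.sum_const, Finset.card_range, nsmul_eq_mul]
      rw [mul_add]
      congr 1
      · congr 1
        refine Finset.sum_congr rfl fun s _ => ?_
        rw [integral_finsetSum]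
        intro s' _
        exact (((hFsB s s').comp measurable_fst).mul ((hFsB s s').comp measurable_snd)).integrable
      · field_simp
    · intro s _
      refine integrable_finsetSum _ fun s' _ => ?_
      exact (((hFsB s s').comp measurable_fst).mul ((hFsB s s').comp measurable_snd)).integrable
  rw [h8] at h7
  linarith

end two

section wm

variable {X : Type} [MeasurableSpace X] {μ : Measure X} [IsProbabilityMeasure μ]
  {Φ : ℤ → Equiv.Perm X}

/-- mean ergodic theorem for an ergodic generator -/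
theorem erg_avg {Z : Type} [MeasurableSpace Z] {ν : Measure Z} [IsProbabilityMeasure ν]
    {Ψ : ℤ → Equiv.Perm Z} (h : Act ν Ψ) (herg : Ergodic (Ψ 1) ν) {P Q : Z → ℝ} (hP : BMr P)
    (hQ : BMr Q) : Tendsto (fun N : ℕ => (N : ℝ)⁻¹ * ∑ n ∈ Finset.range N,
      ∫ z, P z * Q (Ψ (n • (1 : ℤ)) z) ∂ν) atTop (𝓝 ((∫ z, P z ∂ν) * ∫ z, Q z ∂ν)) := by
  have h1 := h.birkhoff 1 hQ
  have hm : inv Ψ (1 : ℤ) ≤ ‹MeasurableSpace Z› := inv_le Ψ 1
  have hconst : (ν[Q | inv Ψ (1 : ℤ)]) =ᵐ[ν] fun _ => ∫ z, Q z ∂ν := by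
    have hEm : Measurable[inv Ψ (1 : ℤ)] (ν[Q | inv Ψ (1 : ℤ)]) :=
      stronglyMeasurable_condExp.measurable
    have h2 : (ν[Q | inv Ψ (1 : ℤ)]) ∘ (Ψ 1) = ν[Q | inv Ψ (1 : ℤ)] :=
      MeasurableSpace.comp_eq_of_measurable_invariants hEm
    obtain ⟨c, hc⟩ := herg.ae_eq_const_of_ae_eq_comp₀
      (g := ν[Q | inv Ψ (1 : ℤ)]) (hEm.mono hm le_rfl).nullMeasurable (by rw [h2])
    have h3 := integral_condExp (μ := ν) hm (f := Q)
    rw [integral_congr_ae hc] at h3
    simp only [Function.const_apply, integral_const, measureReal_def, measure_univ,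
      ENNReal.toReal_one, one_smul] at h3
    rw [← h3]
    exact hc
  obtain ⟨hPm, C, hC⟩ := hP
  obtain ⟨hQm, D, hD⟩ := hQ
  have hD' : ∀ z, |Q z| ≤ |D| := fun z => (hD z).trans (le_abs_self _)
  have h4 : Tendsto (fun N : ℕ => ∫ z, P z * ((N : ℝ)⁻¹ * ∑ n ∈ Finset.range N,
      Q (Ψ (n • (1 : ℤ)) z)) ∂ν) atTop (𝓝 (∫ z, P z * ∫ z, Q z ∂ν ∂ν)) := by
    refine tendsto_integral_of_dominated_convergence (fun _ => |C| * |D|) ?_ (integrable_const _)
      ?_ ?_
    · intro N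
      refine (hPm.mul ?_).aestronglyMeasurable
      exact (Finset.measurable_fun_sum _ fun n _ => hQm.comp (h.measurable _)).const_mul _
    · intro N
      refine Eventually.of_forall fun z => ?_
      rw [Real.norm_eq_abs, abs_mul]
      exact mul_le_mul ((hC z).trans (le_abs_self _))
        (abs_avg_le (abs_nonneg _) (fun n => hD' _) N) (abs_nonneg _) (abs_nonneg _)
    · filter_upwards [h1, hconst] with z hz1 hz2
      rw [hz2] at hz1
      exact hz1.const_mul _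
  rw [integral_mul_const] at h4
  refine h4.congr fun N => ?_
  have h5 : (fun z => P z * ((N : ℝ)⁻¹ * ∑ n ∈ Finset.range N, Q (Ψ (n • (1 : ℤ)) z))) =
      fun z => (N : ℝ)⁻¹ * ∑ n ∈ Finset.range N, P z * Q (Ψ (n • (1 : ℤ)) z) := by
    funext z
    rw [mul_left_comm, Finset.mul_sum]
  rw [h5, integral_const_mul, integral_finsetSum]
  intro n _
  exact (BMr.mul ⟨hPm, C, hC⟩ (BMr.comp ⟨hQm, D, hD⟩ (h.measurable _))).integrable

/-- weakly mixing: correlations converge in density -/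
theorem wm_corr (h : Act μ Φ) (hwm : Ergodic (Prod.map (Φ 1) (Φ 1)) (μ.prod μ)) {F : X → ℝ}
    (hF : BMr F) : Tendsto (fun N : ℕ => (N : ℝ)⁻¹ * ∑ n ∈ Finset.range N,
      |∫ x, F x * F (Φ (n • (1 : ℤ)) x) ∂μ - (∫ x, F x ∂μ) ^ 2|) atTop (𝓝 0) := by
  set Ψ : ℤ → Equiv.Perm (X × X) := fun n => Equiv.prodCongr (Φ n) (Φ n) with hΨ
  have hact : Act (μ.prod μ) Ψ := by
    refine ⟨fun a b => ?_, ?_, fun a => ?_⟩
    · ext z
      · exact h.add_apply _ _ _
      · exact h.add_apply _ _ _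
    · ext z
      · exact h.zero_apply _
      · exact h.zero_apply _
    · exact (h.mp a).prod (h.mp a)
  have herg : Ergodic (Ψ 1) (μ.prod μ) := hwm
  set c : ℝ := ∫ x, F x ∂μ with hc
  set a : ℕ → ℝ := fun n => ∫ x, F x * F (Φ (n • (1 : ℤ)) x) ∂μ with ha
  have e1 := erg_avg hact herg (hF.comp measurable_fst) (hF.comp measurable_fst)
  have e2 := erg_avg hact herg ((hF.comp measurable_fst).mul (hF.comp measurable_snd))
    ((hF.comp measurable_fst).mul (hF.comp measurable_snd))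
  have i1 : ∫ z : X × X, F z.1 ∂(μ.prod μ) = c := by
    have := integral_prod_mul (μ := μ) (ν := μ) F (fun _ => (1 : ℝ))
    simpa using this
  have i2 : ∫ z : X × X, F z.1 * F z.2 ∂(μ.prod μ) = c * c := integral_prod_mul F F
  have i3 : ∀ n : ℕ, ∫ z : X × X, F z.1 * F (Ψ (n • (1 : ℤ)) z).1 ∂(μ.prod μ) = a n := by
    intro n
    have e : ∫ z : X × X, F z.1 * F (Ψ (n • (1 : ℤ)) z).1 ∂(μ.prod μ) =
        ∫ z : X × X, (fun x => F x * F (Φ (n • (1 : ℤ)) x)) z.1 * (fun _ => (1 : ℝ)) z.2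
          ∂(μ.prod μ) := by
      congr 1
      funext z
      simp only [mul_one]
      rfl
    exact e.trans ((integral_prod_mul (μ := μ) (ν := μ)
      (fun x => F x * F (Φ (n • (1 : ℤ)) x)) (fun _ => (1 : ℝ))).trans (by simp [ha]))
  have i4 : ∀ n : ℕ, ∫ z : X × X, F z.1 * F z.2 * (F (Ψ (n • (1 : ℤ)) z).1 *
      F (Ψ (n • (1 : ℤ)) z).2) ∂(μ.prod μ) = a n ^ 2 := by
    intro n
    have := integral_prod_mul (μ := μ) (ν := μ) (fun x => F x * F (Φ (n • (1 : ℤ)) x))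
      (fun x => F x * F (Φ (n • (1 : ℤ)) x))
    rw [sq, ← this]
    congr 1
    funext z
    show F z.1 * F z.2 * (F (Φ (n • (1 : ℤ)) z.1) * F (Φ (n • (1 : ℤ)) z.2)) = _
    ring
  simp only [i1, i3] at e1
  simp only [i2, i4] at e2
  refine avg_r_abs ?_
  have e3 := (e2.sub (e1.const_mul (2 * c ^ 2))).add (tendsto_const_nhds (x := c ^ 4))
  have e4 : c * c * (c * c) - 2 * c ^ 2 * (c * c) + c ^ 4 = 0 := by ring
  rw [e4] at e3
  refine e3.congr' ?_
  filter_upwards [eventually_gt_atTop 0] with N hN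
  have hN' : (N : ℝ) ≠ 0 := by exact_mod_cast hN.ne'
  have e5 : ∑ n ∈ Finset.range N, (a n - c ^ 2) ^ 2 = ∑ n ∈ Finset.range N, a n ^ 2 -
      2 * c ^ 2 * ∑ n ∈ Finset.range N, a n + N * c ^ 4 := by
    rw [Finset.mul_sum, ← Finset.sum_sub_distrib]
    have e6 : (N : ℝ) * c ^ 4 = ∑ _n ∈ Finset.range N, c ^ 4 := by
      rw [Finset.sum_const, Finset.card_range, nsmul_eq_mul]
    rw [e6, ← Finset.sum_add_distrib]
    refine Finset.sum_congr rfl fun n _ => ?_
    ring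
  rw [e5]
  field_simp

/-- the double averages of the correlations along multiples of `w` -/
theorem wm_double (h : Act μ Φ) (hwm : Ergodic (Prod.map (Φ 1) (Φ 1)) (μ.prod μ)) {F : X → ℝ}
    (hF : BMr F) {w : ℤ} (hw : w ≠ 0) {η : ℝ} (hη : 0 < η) : ∀ᶠ S : ℕ in atTop,
      (S : ℝ)⁻¹ ^ 2 * ∑ s ∈ Finset.range S, ∑ s' ∈ Finset.range S,
        |∫ x, F (Φ (s • w) x) * F (Φ (s' • w) x) ∂μ| ≤ (∫ x, F x ∂μ) ^ 2 + η := by
  set c : ℝ := ∫ x, F x ∂μ with hc
  set a : ℕ → ℝ := fun n => ∫ x, F x * F (Φ (n • (1 : ℤ)) x) ∂μ with ha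
  set q : ℕ := w.natAbs with hq
  have hq0 : 0 < q := Int.natAbs_pos.mpr hw
  have hshift : ∀ (g d : ℤ), ∫ x, F (Φ g x) * F (Φ (g + d) x) ∂μ =
      ∫ x, F x * F (Φ d x) ∂μ := by
    intro g d
    have h1 := integral_map (μ := μ) (φ := Φ g) (h.measurable g).aemeasurable
      (f := fun x => F x * F (Φ d x))
      ((hF.mul (hF.comp (h.measurable d))).1.aestronglyMeasurable)
    rw [(h.mp g).map_eq] at h1
    rw [h1]
    congr 1
    funext x
    rw [← h.add_apply, add_comm]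
  have hcorr : ∀ s s' : ℕ, ∫ x, F (Φ (s • w) x) * F (Φ (s' • w) x) ∂μ =
      a (q * ((s : ℤ) - s').natAbs) := by
    intro s s'
    have hpos : ∀ g d : ℤ, 0 ≤ d → ∫ x, F (Φ g x) * F (Φ (g + d) x) ∂μ = a d.toNat := by
      intro g d hd
      rw [hshift g d, ha]
      simp only
      congr 1
      funext x
      congr 3
      rw [nsmul_eq_mul, mul_one, Int.toNat_of_nonneg hd]
    rcases le_total (s • w) (s' • w) with hle | hle
    · have h1 := hpos (s • w) (s' • w - s • w) (by linarith)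
      rw [add_sub_cancel] at h1
      rw [h1]
      congr 1
      have h2 : (s' • w - s • w).toNat = (s' • w - s • w).natAbs := by omega
      rw [h2, hq, ← Int.natAbs_mul]
      have h3 : s' • w - s • w = -(w * ((s : ℤ) - s')) := by
        simp only [nsmul_eq_mul]
        push_cast
        ring
      rw [h3, Int.natAbs_neg]
    · have h1 := hpos (s' • w) (s • w - s' • w) (by linarith)
      rw [add_sub_cancel] at h1
      have h4 : ∫ x, F (Φ (s • w) x) * F (Φ (s' • w) x) ∂μ =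
          ∫ x, F (Φ (s' • w) x) * F (Φ (s • w) x) ∂μ := by
        congr 1
        funext x
        ring
      rw [h4, h1]
      congr 1
      have h2 : (s • w - s' • w).toNat = (s • w - s' • w).natAbs := by omega
      rw [h2, hq, ← Int.natAbs_mul]
      have h3 : s • w - s' • w = w * ((s : ℤ) - s') := by
        simp only [nsmul_eq_mul]
        push_cast
        ring
      rw [h3]
  have hwm1 := wm_corr h hwm hF
  have hδ : 0 < η / (2 * q) := by positivity
  have hev := (tendsto_order.mp hwm1).2 _ hδ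
  obtain ⟨N₀, hN₀⟩ := eventually_atTop.mp hev
  filter_upwards [eventually_ge_atTop (N₀ + 1)] with S hS
  have hSpos : (0 : ℝ) < S := by
    have : 0 < S := by omega
    exact_mod_cast this
  have hqS : N₀ ≤ q * S := le_trans (by omega) (Nat.le_mul_of_pos_left S hq0)
  have h5 := hN₀ (q * S) hqS
  have hqSpos : (0 : ℝ) < ((q * S : ℕ) : ℝ) := by
    exact_mod_cast Nat.mul_pos hq0 (by omega)
  rw [inv_mul_lt_iff₀ hqSpos] at h5
  -- one row
  have hrow : ∀ s ∈ Finset.range S, ∑ s' ∈ Finset.range S, |a (q * ((s : ℤ) - s').natAbs)| ≤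
      S * c ^ 2 + 2 * ∑ n ∈ Finset.range (q * S), |a n - c ^ 2| := by
    intro s hs
    have h6 : ∀ s' ∈ Finset.range S, |a (q * ((s : ℤ) - s').natAbs)| ≤
        c ^ 2 + |a (q * ((s : ℤ) - s').natAbs) - c ^ 2| := by
      intro s' _
      have h7 : a (q * ((s : ℤ) - s').natAbs) = c ^ 2 + (a (q * ((s : ℤ) - s').natAbs) - c ^ 2) := by
        ring
      conv_lhs => rw [h7]
      refine (abs_add_le _ _).trans ?_
      rw [abs_of_nonneg (sq_nonneg c)]
    refine (Finset.sum_le_sum h6).trans ?_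
    rw [Finset.sum_add_distrib, Finset.sum_const, Finset.card_range, nsmul_eq_mul]
    refine add_le_add le_rfl ?_
    set b : ℕ → ℝ := fun n => |a n - c ^ 2| with hb
    have hb0 : ∀ n, 0 ≤ b n := fun n => abs_nonneg _
    have hs' := Finset.mem_range.mp hs
    have h8 : ∑ s' ∈ Finset.range S, b (q * ((s : ℤ) - s').natAbs) =
        ∑ s' ∈ (Finset.range S).filter (fun s' => s' ≤ s), b (q * ((s : ℤ) - s').natAbs) +
        ∑ s' ∈ (Finset.range S).filter (fun s' => ¬ s' ≤ s), b (q * ((s : ℤ) - s').natAbs) :=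
      (Finset.sum_filter_add_sum_filter_not _ _ _).symm
    have h9 : ∀ A : Finset ℕ, A ⊆ Finset.range S → Set.InjOn (fun s' : ℕ =>
        q * ((s : ℤ) - s').natAbs) A →
        ∑ s' ∈ A, b (q * ((s : ℤ) - s').natAbs) ≤ ∑ n ∈ Finset.range (q * S), b n := by
      intro A hA hinj
      rw [← Finset.sum_image (f := b) (g := fun s' : ℕ => q * ((s : ℤ) - s').natAbs) hinj]
      refine Finset.sum_le_sum_of_subset_of_nonneg ?_ fun n _ _ => hb0 n
      intro n hn
      obtain ⟨s', hs'A, rfl⟩ := Finset.mem_image.mp hn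
      have := Finset.mem_range.mp (hA hs'A)
      rw [Finset.mem_range]
      exact Nat.mul_lt_mul_of_pos_left (by omega) hq0
    have h10 := h9 ((Finset.range S).filter (fun s' => s' ≤ s)) (Finset.filter_subset _ _)
      (by
        intro x hx y hy hxy
        have hx' := (Finset.mem_filter.mp hx).2
        have hy' := (Finset.mem_filter.mp hy).2
        have := Nat.eq_of_mul_eq_mul_left hq0 hxy
        omega)
    have h11 := h9 ((Finset.range S).filter (fun s' => ¬ s' ≤ s)) (Finset.filter_subset _ _)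
      (by
        intro x hx y hy hxy
        have hx' := (Finset.mem_filter.mp hx).2
        have hy' := (Finset.mem_filter.mp hy).2
        have := Nat.eq_of_mul_eq_mul_left hq0 hxy
        omega)
    rw [h8]
    linarith
  simp only [hcorr]
  have h12 : ∑ s ∈ Finset.range S, ∑ s' ∈ Finset.range S, |a (q * ((s : ℤ) - s').natAbs)| ≤
      S * (S * c ^ 2 + 2 * ∑ n ∈ Finset.range (q * S), |a n - c ^ 2|) := by
    refine (Finset.sum_le_sum hrow).trans ?_
    rw [Finset.sum_const, Finset.card_range, nsmul_eq_mul]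
  have h13 : 2 * ∑ n ∈ Finset.range (q * S), |a n - c ^ 2| ≤ S * η := by
    have h14 : ((q * S : ℕ) : ℝ) * (η / (2 * q)) = S * η / 2 := by
      have : (q : ℝ) ≠ 0 := by exact_mod_cast hq0.ne'
      push_cast
      field_simp
    rw [h14] at h5
    linarith
  calc (S : ℝ)⁻¹ ^ 2 * ∑ s ∈ Finset.range S, ∑ s' ∈ Finset.range S,
        |a (q * ((s : ℤ) - s').natAbs)| ≤ (S : ℝ)⁻¹ ^ 2 * (S * (S * c ^ 2 + S * η)) := by
        refine mul_le_mul_of_nonneg_left (h12.trans ?_) (by positivity)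
        exact mul_le_mul_of_nonneg_left (by linarith) hSpos.le
    _ = c ^ 2 + η := by field_simp

theorem dsum_add {S : ℕ} (hS : 0 < S) (A : ℕ → ℕ → ℝ) (c : ℝ) :
    (S : ℝ)⁻¹ ^ 2 * ∑ s ∈ Finset.range S, ∑ s' ∈ Finset.range S, (A s s' + c) =
      (S : ℝ)⁻¹ ^ 2 * ∑ s ∈ Finset.range S, ∑ s' ∈ Finset.range S, A s s' + c := by
  have hSpos : (0 : ℝ) < S := by exact_mod_cast hS
  simp only [Finset.sum_add_distrib, Finset.sum_const, Finset.card_range, nsmul_eq_mul]
  field_simp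

/-- weakly mixing maps: every list of directions -/
theorem ctl_wm (h : Act μ Φ) (hwm : Ergodic (Prod.map (Φ 1) (Φ 1)) (μ.prod μ))
    {L : (Fin k → ℤ) →+ ℤ} {v : ι → Fin k → ℤ} : ∀ (l : List ι), l ≠ [] →
    (∀ i ∈ l, L (v i) ≠ 0) → ∀ {F : X → ℝ}, Measurable F → (∀ x, |F x| ≤ 1) →
    ∀ η : ℝ, 0 < η → ∃ R : X → ℝ, Measurable R ∧ (∀ x, 0 ≤ R x ∧ R x ≤ 1) ∧
      Ctl μ Φ L v l F R ∧ ∫ x, R x ^ (2 ^ l.length) ∂μ ≤ |∫ x, F x ∂μ| + η := by
  have hone : ∀ {F : X → ℝ}, (∀ x, |F x| ≤ 1) → |∫ x, F x ∂μ| ≤ 1 := by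
    intro F hF1
    have := norm_integral_le_of_norm_le_const (μ := μ) (f := F) (C := 1)
      (Eventually.of_forall hF1)
    simpa using this
  have hsq : ∀ {F : X → ℝ}, (∀ x, |F x| ≤ 1) → (∫ x, F x ∂μ) ^ 2 ≤ |∫ x, F x ∂μ| := by
    intro F hF1
    rw [← sq_abs, sq]
    exact mul_le_of_le_one_left (abs_nonneg _) (hone hF1)
  intro l
  induction l with
  | nil => intro hl; exact absurd rfl hl
  | cons i l ih =>
    intro _ hL F hF hF1 η hη
    have hFB : BMr F := ⟨hF, 1, hF1⟩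
    have hw : L (v i) ≠ 0 := hL i (by simp)
    rcases eq_or_ne l [] with hl | hl
    · subst hl
      obtain ⟨S, hS1, hS0⟩ := ((wm_double h hwm hFB hw hη).and (eventually_gt_atTop 0)).exists
      obtain ⟨R, hRm, hR01, hRc, hRi⟩ := ctl_one h L v i hF hF1 hS0
      refine ⟨R, hRm, hR01, hRc, ?_⟩
      have h3 : ∫ x, ((S : ℝ)⁻¹ * ∑ s ∈ Finset.range S, F (Φ (s • L (v i)) x)) ^ 2 ∂μ =
          (S : ℝ)⁻¹ ^ 2 * ∑ s ∈ Finset.range S, ∑ s' ∈ Finset.range S,
            ∫ x, F (Φ (s • L (v i)) x) * F (Φ (s' • L (v i)) x) ∂μ := by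
        have e1 : (fun x => ((S : ℝ)⁻¹ * ∑ s ∈ Finset.range S, F (Φ (s • L (v i)) x)) ^ 2) =
            fun x => (S : ℝ)⁻¹ ^ 2 * ∑ s ∈ Finset.range S, ∑ s' ∈ Finset.range S,
            F (Φ (s • L (v i)) x) * F (Φ (s' • L (v i)) x) := by
          funext x
          rw [mul_pow, sq (∑ s ∈ Finset.range S, F (Φ (s • L (v i)) x)), Finset.sum_mul_sum]
        rw [e1, integral_const_mul, integral_finsetSum]
        · congr 1
          refine Finset.sum_congr rfl fun s _ => ?_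
          rw [integral_finsetSum]
          intro s' _
          exact ((hFB.comp (h.measurable _)).mul (hFB.comp (h.measurable _))).integrable
        · intro s _
          refine integrable_finsetSum _ fun s' _ => ?_
          exact ((hFB.comp (h.measurable _)).mul (hFB.comp (h.measurable _))).integrable
      have h4 : ∫ x, R x ^ (2 ^ [i].length) ∂μ = ∫ x, R x ^ 2 ∂μ := by simp
      rw [h4]
      refine hRi.trans ?_
      rw [h3]
      refine le_trans ?_ (hS1.trans (add_le_add (hsq hF1) le_rfl))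
      refine mul_le_mul_of_nonneg_left (Finset.sum_le_sum fun s _ => Finset.sum_le_sum fun s' _ =>
        le_abs_self _) (by positivity)
    · obtain ⟨S, hS1, hS0⟩ := ((wm_double h hwm hFB hw (η := η / 2) (by positivity)).and
        (eventually_gt_atTop 0)).exists
      have h5 : ∀ s s' : ℕ, ∃ R : X → ℝ, Measurable R ∧ (∀ x, 0 ≤ R x ∧ R x ≤ 1) ∧
          Ctl μ Φ L v l (fun x => F (Φ (s • L (v i)) x) * F (Φ (s' • L (v i)) x)) R ∧
          ∫ x, R x ^ (2 ^ l.length) ∂μ ≤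
            |∫ x, F (Φ (s • L (v i)) x) * F (Φ (s' • L (v i)) x) ∂μ| + η / 2 := by
        intro s s'
        refine ih hl (fun j hj => hL j (List.mem_cons_of_mem _ hj)) ?_ (fun x => ?_) _
          (by positivity)
        · exact (hF.comp (h.measurable _)).mul (hF.comp (h.measurable _))
        · rw [abs_mul]
          exact mul_le_one₀ (hF1 _) (abs_nonneg _) (hF1 _)
      choose R hRm hR01 hRc hRi using h5
      obtain ⟨R', hR'm, hR'01, hR'c, hR'i⟩ := ctl_step h L v i l hF1 hS0 hRm hR01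
        (fun s _ s' _ => hRc s s')
      refine ⟨R', hR'm, hR'01, hR'c, ?_⟩
      rw [List.length_cons]
      refine hR'i.trans ?_
      have hSpos : (0 : ℝ) < S := by exact_mod_cast hS0
      have h6 : (S : ℝ)⁻¹ ^ 2 * ∑ s ∈ Finset.range S, ∑ s' ∈ Finset.range S,
          ∫ x, R s s' x ^ (2 ^ l.length) ∂μ ≤ (S : ℝ)⁻¹ ^ 2 * ∑ s ∈ Finset.range S,
          ∑ s' ∈ Finset.range S,
            (|∫ x, F (Φ (s • L (v i)) x) * F (Φ (s' • L (v i)) x) ∂μ| + η / 2) :=
        mul_le_mul_of_nonneg_left (Finset.sum_le_sum fun s _ => Finset.sum_le_sum fun s' _ =>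
          hRi s s') (by positivity)
      refine h6.trans ?_
      rw [dsum_add hS0 (fun s s' => |∫ x, F (Φ (s • L (v i)) x) * F (Φ (s' • L (v i)) x) ∂μ|)]
      have := hsq hF1
      linarith

end wm

end Pool.Agent.Y311.CX
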