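import Pool.Agent.Y311.CX.Good

/-!
# The deterministic convergence theorem
-/

set_option autoImplicit false
set_option linter.unusedSectionVars false

open Filter Topology MeasureTheory ProbabilityTheory

noncomputable section

namespace Pool.Agent.Y311.CX

open Pool.Agent.Y311.UB Pool.Agent.W761.Box

variable {k : ℕ} {J : Type} [Fintype J] [DecidableEq J]

/-- the constant sequences -/
def Cst : Submodule ℂ (ℤ → ℂ) where
  carrier := {a | ∀ n, a n = a 0}
  add_mem' := by
    intro a b ha hb n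
    simp only [Pi.add_apply]
    rw [ha n, hb n]
  zero_mem' := fun n => rfl
  smul_mem' := by
    intro c a ha n
    simp only [Pi.smul_apply]
    rw [ha n]

theorem Cst_le : Cst ≤ TP ℤ := by
  intro a ha
  have : a = fun _ => a 0 := funext ha
  rw [this]
  exact TP_const _

/-- Replacement of one sequence. -/
theorem repl {ℓ : J → (Fin k → ℤ) →+ ℤ} {j0 : J} {P : Submodule ℂ (ℤ → ℂ)} {s : ℕ}
    (hs : 0 < s) {v : Fin s → Fin k → ℤ} {a : J → ℤ → ℂ}
    (hb : ∀ j, ∃ C : ℝ, ∀ n, ‖a j n‖ ≤ C) (hg : GoodP P (ℓ j0) v (a j0))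
    (hkill : ∀ j, j ≠ j0 → ∃ i, ∀ m, a j (ℓ j (m + v i)) = a j (ℓ j m))
    (hconv : ∀ p ∈ P, ∃ c : ℂ, Tendsto (fun N => bzc N fun m =>
      ∏ j, (Function.update a j0 p) j (ℓ j m)) atTop (𝓝 c)) :
    ∃ c : ℂ, Tendsto (fun N => bzc N fun m => ∏ j, a j (ℓ j m)) atTop (𝓝 c) := by
  have : Nonempty (Fin s) := ⟨⟨0, hs⟩⟩
  choose C hC using hb
  choose! sel hsel using hkill
  set c : J → ℝ := fun j => |C j| + 1 with hc
  have hc0 : ∀ j, 0 < c j := fun j => by positivity
  have hac : ∀ j n, ‖a j n‖ ≤ c j := fun j n => ((hC j n).trans (le_abs_self _)).trans (by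
    simp [hc])
  set D : ℝ := ∏ j ∈ Finset.univ.erase j0, c j with hD
  have hD0 : 0 < D := Finset.prod_pos fun j _ => hc0 j
  set b : Fin s → (Fin k → ℤ) → ℂ := fun i m =>
    ∏ j ∈ Finset.univ.erase j0, if sel j = i then a j (ℓ j m) / (c j : ℂ) else 1 with hbdef
  have hb1 : ∀ i m, ‖b i m‖ ≤ 1 := by
    intro i m
    rw [hbdef]
    simp only
    rw [norm_prod]
    refine Finset.prod_le_one (fun _ _ => norm_nonneg _) fun j _ => ?_
    split_ifs
    · rw [norm_div, Complex.norm_real, Real.norm_eq_abs, abs_of_pos (hc0 j),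
        div_le_one (hc0 j)]
      exact hac j _
    · simp
  have hbi : ∀ i m, b i (m + v i) = b i m := by
    intro i m
    rw [hbdef]
    simp only
    refine Finset.prod_congr rfl fun j hj => ?_
    split_ifs with hij
    · rw [← hij, hsel j (Finset.ne_of_mem_erase hj)]
    · rfl
  have hprod : ∀ m, ∏ j ∈ Finset.univ.erase j0, a j (ℓ j m) = (D : ℂ) * ∏ i, b i m := by
    intro m
    rw [hbdef]
    simp only
    rw [Finset.prod_comm]
    have h1 : ∀ j ∈ Finset.univ.erase j0, ∏ i, (if sel j = i then a j (ℓ j m) / (c j : ℂ)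
        else 1) = a j (ℓ j m) / (c j : ℂ) := by
      intro j _
      rw [Finset.prod_ite_eq, if_pos (Finset.mem_univ _)]
    rw [Finset.prod_congr rfl h1, Finset.prod_div_distrib, hD]
    push_cast
    rw [mul_div_cancel₀]
    rw [Finset.prod_ne_zero_iff]
    intro j _
    exact_mod_cast (hc0 j).ne'
  have hup : ∀ (p : ℤ → ℂ) m, ∏ j, (Function.update a j0 p) j (ℓ j m) =
      p (ℓ j0 m) * ((D : ℂ) * ∏ i, b i m) := by
    intro p m
    rw [← Finset.mul_prod_erase _ _ (Finset.mem_univ j0), Function.update_self, ← hprod]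
    congr 1
    refine Finset.prod_congr rfl fun j hj => ?_
    rw [Function.update_of_ne (Finset.ne_of_mem_erase hj)]
  have hcauchy : ∀ ε : ℝ, 0 < ε → ∃ z : ℂ, ∀ᶠ N : Fin k → ℕ in atTop,
      ‖(bzc N fun m => ∏ j, a j (ℓ j m)) - z‖ ≤ ε := by
    intro ε hε
    obtain ⟨p, hp, H⟩ := hg (ε / (2 * D)) (by positivity)
    obtain ⟨z, hz⟩ := hconv p hp
    refine ⟨z, ?_⟩
    have h1 : ∀ᶠ N : Fin k → ℕ in atTop, ‖(bzc N fun m =>
        ∏ j, (Function.update a j0 p) j (ℓ j m)) - z‖ < ε / 2 := by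
      have := (Metric.tendsto_nhds.mp hz) (ε / 2) (by positivity)
      simpa [dist_eq_norm] using this
    filter_upwards [H b hb1 hbi, h1] with N h2 h3
    have h4 : (fun m => ∏ j, a j (ℓ j m)) = fun m =>
        (D : ℂ) * ((a j0 (ℓ j0 m) - p (ℓ j0 m)) * ∏ i, b i m) +
          ∏ j, (Function.update a j0 p) j (ℓ j m) := by
      funext m
      rw [hup, ← Finset.mul_prod_erase _ _ (Finset.mem_univ j0), hprod]
      ring
    rw [h4, bzc_add, bzc_mul, add_sub_assoc]
    refine (norm_add_le _ _).trans ?_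
    have h5 : ‖(D : ℂ) * bzc N fun m => (a j0 (ℓ j0 m) - p (ℓ j0 m)) * ∏ i, b i m‖ ≤ ε / 2 := by
      rw [norm_mul, Complex.norm_real, Real.norm_eq_abs, abs_of_pos hD0]
      calc D * _ ≤ D * (ε / (2 * D)) := mul_le_mul_of_nonneg_left h2 hD0.le
        _ = ε / 2 := by field_simp
    linarith
  apply cauchySeq_tendsto_of_complete
  rw [Metric.cauchySeq_iff']
  intro ε hε
  obtain ⟨z, hz⟩ := hcauchy (ε / 3) (by positivity)
  obtain ⟨N₀, hN₀⟩ := eventually_atTop.mp hz
  refine ⟨N₀, fun n hn => ?_⟩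
  rw [dist_eq_norm]
  have h1 := hN₀ n hn
  have h2 := hN₀ N₀ le_rfl
  have e1 : (bzc n fun m => ∏ j, a j (ℓ j m)) - (bzc N₀ fun m => ∏ j, a j (ℓ j m)) =
      ((bzc n fun m => ∏ j, a j (ℓ j m)) - z) - ((bzc N₀ fun m => ∏ j, a j (ℓ j m)) - z) := by
    ring
  rw [e1]
  refine (norm_sub_le _ _).trans_lt ?_
  linarith

/-- the second stage: trigonometric polynomials -/
theorem stage_two {ℓ : J → (Fin k → ℤ) →+ ℤ} (W : J → Prop) (B : Finset J)
    (hBW : ∀ j ∈ B, ¬ W j) : ∀ a : J → ℤ → ℂ, (∀ j, ∃ C : ℝ, ∀ n, ‖a j n‖ ≤ C) →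
    (∀ j ∈ B, ∃ s, ∃ v : Fin s → Fin k → ℤ, GoodP (TP ℤ) (ℓ j) v (a j) ∧ 0 < s ∧
      ∀ i, i ≠ j → ¬ W i → ∃ d, ℓ i (v d) = 0) →
    (∀ j, W j → a j ∈ Cst) → (∀ j, j ∉ B → ¬ W j → a j ∈ TP ℤ) →
    ∃ c : ℂ, Tendsto (fun N => bzc N fun m => ∏ j, a j (ℓ j m)) atTop (𝓝 c) := by
  induction B using Finset.induction_on with
  | empty =>
    intro a _ _ h2 h3
    refine TP_conv ?_
    refine TP_prod Finset.univ (f := fun j m => a j (ℓ j m)) fun j _ => ?_
    refine TP_comp ?_ (ℓ j)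
    by_cases hj : W j
    · exact Cst_le (h2 j hj)
    · exact h3 j (Finset.notMem_empty j) hj
  | insert j0 B hj0 ih =>
    intro a hb h1 h2 h3
    obtain ⟨s, v, hg, hs, hkill⟩ := h1 j0 (Finset.mem_insert_self j0 B)
    refine repl hs hb hg ?_ ?_
    · intro j hj
      by_cases hWj : W j
      · exact ⟨⟨0, hs⟩, fun m => by rw [h2 j hWj, h2 j hWj (ℓ j m)]⟩
      · obtain ⟨d, hd⟩ := hkill j hj hWj
        exact ⟨d, fun m => by rw [map_add, hd, add_zero]⟩
    · intro p hp
      have hW0 : ¬ W j0 := hBW j0 (Finset.mem_insert_self j0 B)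
      refine ih (fun j hj => hBW j (Finset.mem_insert_of_mem hj)) (Function.update a j0 p)
        ?_ ?_ ?_ ?_
      · intro j
        by_cases hj : j = j0
        · subst hj
          rw [Function.update_self]
          obtain ⟨C, _, hC⟩ := TP_bdd hp
          exact ⟨C, hC⟩
        · rw [Function.update_of_ne hj]
          exact hb j
      · intro j hj
        have hjj : j ≠ j0 := fun e => hj0 (e ▸ hj)
        rw [Function.update_of_ne hjj]
        exact h1 j (Finset.mem_insert_of_mem hj)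
      · intro j hWj
        have hjj : j ≠ j0 := fun e => hW0 (e ▸ hWj)
        rw [Function.update_of_ne hjj]
        exact h2 j hWj
      · intro j hj hWj
        by_cases hjj : j = j0
        · subst hjj
          rw [Function.update_self]
          exact hp
        · rw [Function.update_of_ne hjj]
          refine h3 j (fun hmem => ?_) hWj
          rcases Finset.mem_insert.mp hmem with h | h
          · exact hjj h
          · exact hj h

/-- the first stage: constants -/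
theorem stage_one {ℓ : J → (Fin k → ℤ) →+ ℤ} (W : J → Prop) (B : Finset J)
    (hBW : ∀ j ∈ B, W j) : ∀ a : J → ℤ → ℂ, (∀ j, ∃ C : ℝ, ∀ n, ‖a j n‖ ≤ C) →
    (∀ j ∈ B, ∃ s, ∃ v : Fin s → Fin k → ℤ, GoodP Cst (ℓ j) v (a j) ∧ 0 < s ∧
      ∀ i, i ≠ j → ∃ d, ℓ i (v d) = 0) →
    (∀ j, ¬ W j → ∃ s, ∃ v : Fin s → Fin k → ℤ, GoodP (TP ℤ) (ℓ j) v (a j) ∧ 0 < s ∧
      ∀ i, i ≠ j → ¬ W i → ∃ d, ℓ i (v d) = 0) →
    (∀ j, j ∉ B → W j → a j ∈ Cst) →
    ∃ c : ℂ, Tendsto (fun N => bzc N fun m => ∏ j, a j (ℓ j m)) atTop (𝓝 c) := by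
  classical
  induction B using Finset.induction_on with
  | empty =>
    intro a hb _ h2 h3
    refine stage_two W (Finset.univ.filter fun j => ¬ W j) ?_ a hb ?_ ?_ ?_
    · intro j hj
      exact (Finset.mem_filter.mp hj).2
    · intro j hj
      exact h2 j (Finset.mem_filter.mp hj).2
    · intro j hWj
      exact h3 j (Finset.notMem_empty j) hWj
    · intro j hj hWj
      exact absurd (Finset.mem_filter.mpr ⟨Finset.mem_univ j, hWj⟩) hj
  | insert j0 B hj0 ih =>
    intro a hb h1 h2 h3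
    have hW0 : W j0 := hBW j0 (Finset.mem_insert_self j0 B)
    obtain ⟨s, v, hg, hs, hkill⟩ := h1 j0 (Finset.mem_insert_self j0 B)
    refine repl hs hb hg ?_ ?_
    · intro j hj
      obtain ⟨d, hd⟩ := hkill j hj
      exact ⟨d, fun m => by rw [map_add, hd, add_zero]⟩
    · intro p hp
      refine ih (fun j hj => hBW j (Finset.mem_insert_of_mem hj)) (Function.update a j0 p)
        ?_ ?_ ?_ ?_
      · intro j
        by_cases hj : j = j0
        · subst hj
          rw [Function.update_self]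
          exact ⟨‖p 0‖, fun n => by rw [hp n]⟩
        · rw [Function.update_of_ne hj]
          exact hb j
      · intro j hj
        have hjj : j ≠ j0 := fun e => hj0 (e ▸ hj)
        rw [Function.update_of_ne hjj]
        exact h1 j (Finset.mem_insert_of_mem hj)
      · intro j hWj
        have hjj : j ≠ j0 := fun e => hWj (e ▸ hW0)
        rw [Function.update_of_ne hjj]
        exact h2 j hWj
      · intro j hj hWj
        by_cases hjj : j = j0
        · subst hjj
          rw [Function.update_self]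
          exact hp
        · rw [Function.update_of_ne hjj]
          refine h3 j (fun hmem => ?_) hWj
          rcases Finset.mem_insert.mp hmem with h | h
          · exact hjj h
          · exact hj h

theorem det_conv {ℓ : J → (Fin k → ℤ) →+ ℤ} (W : J → Prop) {a : J → ℤ → ℂ}
    (hb : ∀ j, ∃ C : ℝ, ∀ n, ‖a j n‖ ≤ C)
    (h1 : ∀ j, W j → ∃ s, ∃ v : Fin s → Fin k → ℤ, GoodP Cst (ℓ j) v (a j) ∧ 0 < s ∧
      ∀ i, i ≠ j → ∃ d, ℓ i (v d) = 0)
    (h2 : ∀ j, ¬ W j → ∃ s, ∃ v : Fin s → Fin k → ℤ, GoodP (TP ℤ) (ℓ j) v (a j) ∧ 0 < s ∧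
      ∀ i, i ≠ j → ¬ W i → ∃ d, ℓ i (v d) = 0) :
    ∃ c : ℂ, Tendsto (fun N => bzc N fun m => ∏ j, a j (ℓ j m)) atTop (𝓝 c) := by
  classical
  refine stage_one W (Finset.univ.filter fun j => W j) ?_ a hb ?_ h2 ?_
  · intro j hj
    exact (Finset.mem_filter.mp hj).2
  · intro j hj
    exact h1 j (Finset.mem_filter.mp hj).2
  · intro j hj hWj
    exact absurd (Finset.mem_filter.mpr ⟨Finset.mem_univ j, hWj⟩) hj

end Pool.Agent.Y311.CX
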