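import Pool.Agent.Y311.CX.Det
import Pool.Agent.Y311.UB.Fam

/-!
# Linear forms of complexity at most one, arbitrary maps
-/

set_option autoImplicit false
set_option linter.unusedSectionVars false

open Filter Topology MeasureTheory ProbabilityTheory
open scoped ENNReal Matrix

noncomputable section

namespace Pool.Agent.Y311.CX

open Pool.Agent.Y311.UB Pool.Agent.W761.Box

variable {k : ℕ}

theorem AB_zero_tendsto {u : (Fin k → ℕ) → ℝ} (h : AB u 0) : Tendsto u atTop (𝓝 0) := by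
  rw [Metric.tendsto_nhds]
  intro ε hε
  filter_upwards [h (ε / 2) (by positivity)] with N hN
  rw [dist_zero_right, Real.norm_eq_abs]
  linarith

section ae

variable {X : Type} [MeasurableSpace X] {μ : Measure X} [IsProbabilityMeasure μ]
  {Φ : ℤ → Equiv.Perm X}

/-- almost every orbit is good for two directions -/
theorem good_TP [StandardBorelSpace X] (h : Act μ Φ) {L : (Fin k → ℤ) →+ ℤ}
    {v : Fin 2 → Fin k → ℤ} (hv : ∀ i, L (v i) ≠ 0) {f : X → ℝ} (hf : Measurable f)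
    (hf1 : ∀ x, |f x| ≤ 1) :
    ∀ᵐ x ∂μ, GoodP (TP ℤ) L v fun n => ((f (Φ n x) : ℝ) : ℂ) := by
  set w : ℤ := L (v 0) * L (v 1) with hw
  have hw0 : w ≠ 0 := mul_ne_zero (hv 0) (hv 1)
  have hL0 : L ≠ 0 := by
    intro h0
    apply hv 0
    rw [h0]
    rfl
  set c : Fin 2 → ℤ := fun i => if i = 0 then L (v 1) else L (v 0) with hc
  set v' : Fin 2 → Fin k → ℤ := fun i => c i • v i with hv'
  have h0 : L (v' 0) = w := by
    simp only [hv', hc, if_true]
    rw [map_zsmul, smul_eq_mul, hw, mul_comm]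
  have h1 : L (v' 1) = w := by
    simp only [hv', hc, one_ne_zero, if_false]
    rw [map_zsmul, smul_eq_mul, hw]
  obtain ⟨fs, hfs, hfs1, horth⟩ := exists_proj h w hf hf1
  set u : X → ℝ := fun x => (1 / 2) * (f x - fs x) with hu
  have hum : Measurable u := (hf.sub hfs.1.1).const_mul _
  have hu1 : ∀ x, |u x| ≤ 1 := by
    intro x
    rw [hu]
    simp only
    rw [abs_mul, abs_of_pos (by norm_num : (0 : ℝ) < 1 / 2)]
    have := abs_sub (f x) (fs x)
    linarith [hf1 x, hfs1 x]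
  have huorth : ∀ s, APf μ Φ w s → ∫ x, u x * s x ∂μ = 0 := by
    intro s hs
    have e1 : (fun x => u x * s x) = fun x => (1 / 2) * ((f x - fs x) * s x) := by
      funext x
      rw [hu]
      ring
    rw [e1, integral_const_mul, horth s hs, mul_zero]
  have hctl := ctl_two h (L := L) (v := v') (i := 0) (j := 1) h0 h1 hum hu1
    (energy_zero h hum zero_le_one hu1 huorth)
  have hbap : ∀ᵐ x ∂μ, ∀ r : ℤ, BAP fun n : ℤ => ((fs (Φ (n • w) (Φ r x)) : ℝ) : ℂ) := by
    rw [ae_all_iff]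
    intro r
    exact (h.mp r).quasiMeasurePreserving.ae hfs.2
  filter_upwards [hctl, hbap] with x hx1 hx2
  refine GoodP.of_split hL0 (as := fun n => ((fs (Φ n x) : ℝ) : ℂ)) (au := fun n => 2 * u (Φ n x))
    (fun n => ?_) ?_ ?_
  · rw [← Complex.ofReal_add]
    congr 1
    rw [hu]
    simp only
    ring
  · refine bap_interleave hw0 fun r => ?_
    have h2 := hx2 r
    have e1 : (fun n : ℤ => ((fs (Φ (n * w + r) x) : ℝ) : ℂ)) =
        fun n : ℤ => ((fs (Φ (n • w) (Φ r x)) : ℝ) : ℂ) := by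
      funext n
      rw [← h.add_apply, smul_eq_mul]
    rw [e1]
    exact h2
  · intro b hb hbi
    have h2 := hx1 b hb (fun i _ m => by
      rw [hv']
      exact smul_inv (hbi i) (c i) m)
    have h3 := (AB_zero_tendsto h2).const_mul 2
    rw [mul_zero] at h3
    refine h3.congr fun N => ?_
    rw [← bz_mul]
    congr 1
    funext m
    rw [Fin.prod_univ_two]
    simp only [List.map_cons, List.map_nil, List.prod_cons, List.prod_nil]
    ring

/-- for weakly mixing maps almost every orbit is good for every list of directions -/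
theorem good_Cst (h : Act μ Φ) (hwm : Ergodic (Prod.map (Φ 1) (Φ 1)) (μ.prod μ))
    {L : (Fin k → ℤ) →+ ℤ} {s : ℕ} (hs : 0 < s) {v : Fin s → Fin k → ℤ}
    (hv : ∀ i, L (v i) ≠ 0) {f : X → ℝ} (hf : Measurable f) (hf1 : ∀ x, |f x| ≤ 1) :
    ∀ᵐ x ∂μ, GoodP Cst L v fun n => ((f (Φ n x) : ℝ) : ℂ) := by
  have hL0 : L ≠ 0 := by
    intro h0
    apply hv ⟨0, hs⟩
    rw [h0]
    rfl
  set c : ℝ := ∫ x, f x ∂μ with hc
  have hc1 : |c| ≤ 1 := by
    have := norm_integral_le_of_norm_le_const (μ := μ) (f := f) (C := 1)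
      (Eventually.of_forall hf1)
    simpa using this
  set u : X → ℝ := fun x => (1 / 2) * (f x - c) with hu
  have hum : Measurable u := (hf.sub_const c).const_mul _
  have hu1 : ∀ x, |u x| ≤ 1 := by
    intro x
    rw [hu]
    simp only
    rw [abs_mul, abs_of_pos (by norm_num : (0 : ℝ) < 1 / 2)]
    have := abs_sub (f x) c
    linarith [hf1 x]
  have hfi : Integrable f μ := (BMr.integrable ⟨hf, 1, hf1⟩)
  have hu0 : ∫ x, u x ∂μ = 0 := by
    rw [hu, integral_const_mul, integral_sub hfi (integrable_const _)]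
    simp [hc]
  have hne : List.finRange s ≠ [] := by
    intro h0
    have := List.mem_finRange (⟨0, hs⟩ : Fin s)
    rw [h0] at this
    exact List.not_mem_nil this
  have hctl : Ctl μ Φ L v (List.finRange s) u fun _ => 0 := by
    refine ctl_zero (p := 2 ^ (List.finRange s).length) fun η hη => ?_
    obtain ⟨R, hRm, hR01, hRc, hRi⟩ := ctl_wm h hwm (List.finRange s) hne (fun i _ => hv i) hum
      hu1 η hη
    refine ⟨R, hRm, hR01, hRc, hRi.trans ?_⟩
    rw [hu0]
    simp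
  filter_upwards [hctl] with x hx1
  refine GoodP.of_split hL0 (as := fun _ => (c : ℂ)) (au := fun n => 2 * u (Φ n x))
    (fun n => ?_) ?_ ?_
  · rw [← Complex.ofReal_add]
    congr 1
    rw [hu]
    simp only
    ring
  · intro ε hε
    refine ⟨fun _ => (c : ℂ), fun n => rfl, UD.of_le fun n => ?_⟩
    rw [sub_self, norm_zero]
    exact hε.le
  · intro b hb hbi
    have h2 := hx1 b hb (fun i _ m => hbi i m)
    have h3 := (AB_zero_tendsto h2).const_mul 2
    rw [mul_zero] at h3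
    refine h3.congr fun N => ?_
    rw [← bz_mul]
    congr 1
    funext m
    rw [Fin.prod_univ_def]
    ring

end ae

/-- the shift on real sequences -/
def shiftZ (h : ℤ) : Equiv.Perm (ℤ → ℝ) where
  toFun y := fun g => y (g + h)
  invFun y := fun g => y (g - h)
  left_inv y := by
    funext g
    simp
  right_inv y := by
    funext g
    simp

theorem meas_shiftZ (h : ℤ) : Measurable (shiftZ h : (ℤ → ℝ) → (ℤ → ℝ)) := by
  rw [measurable_pi_iff]
  intro a
  exact measurable_pi_apply _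

/-- transfer to a shift -/
theorem transfer {X : Type*} [MeasurableSpace X] {μ : Measure X} [IsProbabilityMeasure μ]
    {T : Equiv.Perm X} (hTm : Measurable T.symm) (hT : MeasurePreserving T μ μ) {f : X → ℝ}
    (hf : Measurable f) (hf1 : ∀ x, |f x| ≤ 1) :
    ∃ (ν : Measure (ℤ → ℝ)) (_ : IsProbabilityMeasure ν) (F : (ℤ → ℝ) → ℝ), Act ν shiftZ ∧
      Measurable F ∧ (∀ y, |F y| ≤ 1) ∧
      (Ergodic (Prod.map T T) (μ.prod μ) →
        Ergodic (Prod.map (shiftZ 1) (shiftZ 1)) (ν.prod ν)) ∧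
      ∀ Q : (ℤ → ℂ) → Prop, (∀ᵐ y ∂ν, Q fun n => ((F (shiftZ n y) : ℝ) : ℂ)) →
        ∀ᵐ x ∂μ, Q fun n => ((f ((T ^ n) x) : ℝ) : ℂ) := by
  have hT' : MeasurePreserving (T⁻¹ : Equiv.Perm X) μ μ := by
    let e : X ≃ᵐ X := ⟨T, hT.measurable, hTm⟩
    exact hT.symm e
  have hTn : ∀ n : ℤ, MeasurePreserving (T ^ n : Equiv.Perm X) μ μ := fun n => mp_zpow' hT hT' n
  set π : X → (ℤ → ℝ) := fun x n => f ((T ^ n) x) with hπ
  have hπm : Measurable π := by
    rw [measurable_pi_iff]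
    intro n
    exact hf.comp (hTn n).measurable
  set ν : Measure (ℤ → ℝ) := μ.map π with hν
  have hνp : IsProbabilityMeasure ν := Measure.isProbabilityMeasure_map hπm.aemeasurable
  have hπmp : MeasurePreserving π μ ν := ⟨hπm, rfl⟩
  have hcomm : ∀ n : ℤ, (shiftZ n : (ℤ → ℝ) → (ℤ → ℝ)) ∘ π = π ∘ (T ^ n : Equiv.Perm X) := by
    intro n
    funext x a
    show f ((T ^ (a + n)) x) = f ((T ^ a) ((T ^ n) x))
    rw [zpow_add]
    rfl
  have hact : Act ν shiftZ := by
    refine ⟨?_, ?_, ?_⟩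
    · intro a b
      ext y g
      show y (g + (a + b)) = y (g + a + b)
      rw [add_assoc]
    · ext y g
      show y (g + 0) = y g
      rw [add_zero]
    · intro g
      refine ⟨meas_shiftZ g, ?_⟩
      rw [hν, Measure.map_map (meas_shiftZ g) hπm, hcomm,
        ← Measure.map_map hπm (hTn g).measurable, (hTn g).map_eq]
  refine ⟨ν, hνp, fun y => max (-1) (min 1 (y 0)), hact, ?_, ?_, ?_, ?_⟩
  · exact measurable_const.max (measurable_const.min (measurable_pi_apply 0))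
  · intro y
    rw [abs_le]
    exact ⟨le_max_left _ _, max_le (by norm_num) (min_le_left _ _)⟩
  · intro herg
    refine (hπmp.prod hπmp).ergodic_of_ergodic_semiconj herg ?_ ?_
    · exact (meas_shiftZ 1).prodMap (meas_shiftZ 1)
    · intro z
      have h1 := hcomm 1
      rw [zpow_one] at h1
      have h2 : ∀ x, π (T x) = shiftZ 1 (π x) := fun x => (congrFun h1 x).symm
      show (π (T z.1), π (T z.2)) = (shiftZ 1 (π z.1), shiftZ 1 (π z.2))
      rw [h2, h2]
  · intro Q hQ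
    have h1 := ae_of_ae_map hπm.aemeasurable hQ
    filter_upwards [h1] with x hx
    have h2 : (fun n => ((max (-1) (min 1 ((shiftZ n (π x)) 0)) : ℝ) : ℂ)) =
        fun n => ((f ((T ^ n) x) : ℝ) : ℂ) := by
      funext n
      congr 1
      show max (-1) (min 1 (f ((T ^ (0 + n)) x))) = _
      rw [zero_add]
      have h3 := hf1 ((T ^ n) x)
      rw [abs_le] at h3
      rw [min_eq_right h3.2, max_eq_right h3.1]
    rw [← h2]
    exact hx

section final

variable {X : Type*} [MeasurableSpace X] {μ : Measure X} [IsProbabilityMeasure μ]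
  {T : Equiv.Perm X}

/-- from real functions bounded by one to all bounded functions -/
theorem good_lift {P : Submodule ℂ (ℤ → ℂ)} {L : (Fin k → ℤ) →+ ℤ} {s : ℕ}
    {v : Fin s → Fin k → ℤ}
    (H : ∀ f : X → ℝ, Measurable f → (∀ x, |f x| ≤ 1) →
      ∀ᵐ x ∂μ, GoodP P L v fun n => ((f ((T ^ n) x) : ℝ) : ℂ))
    {f : X → ℂ} (hf : BM f) : ∀ᵐ x ∂μ, GoodP P L v fun n => f ((T ^ n) x) := by
  obtain ⟨hfm, C, hC⟩ := hf
  set D : ℝ := |C| + 1 with hD
  have hD0 : 0 < D := by positivity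
  have hCD : ∀ x, ‖f x‖ ≤ D := fun x => ((hC x).trans (le_abs_self _)).trans (by simp [hD])
  have h1 := H (fun x => (f x).re / D) ((Complex.measurable_re.comp hfm).div_const _) (fun x => by
    rw [abs_div, abs_of_pos hD0, div_le_one hD0]
    exact (Complex.abs_re_le_norm _).trans (hCD x))
  have h2 := H (fun x => (f x).im / D) ((Complex.measurable_im.comp hfm).div_const _) (fun x => by
    rw [abs_div, abs_of_pos hD0, div_le_one hD0]
    exact (Complex.abs_im_le_norm _).trans (hCD x))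
  filter_upwards [h1, h2] with x hx1 hx2
  have h3 := (hx1.smul (D : ℂ)).add (hx2.smul ((D : ℂ) * Complex.I))
  have h4 : (fun n : ℤ => (D : ℂ) * ((((f ((T ^ n) x)).re / D : ℝ)) : ℂ) +
      (D : ℂ) * Complex.I * ((((f ((T ^ n) x)).im / D : ℝ)) : ℂ)) = fun n => f ((T ^ n) x) := by
    funext n
    have hDc : (D : ℂ) ≠ 0 := by exact_mod_cast hD0.ne'
    push_cast
    have e := Complex.re_add_im (f ((T ^ n) x))
    conv_rhs => rw [← e]
    field_simp
  rw [h4] at h3
  exact h3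

theorem good_TP_all (hTm : Measurable T.symm) (hT : MeasurePreserving T μ μ)
    {L : (Fin k → ℤ) →+ ℤ} {v : Fin 2 → Fin k → ℤ} (hv : ∀ i, L (v i) ≠ 0) {f : X → ℂ}
    (hf : BM f) : ∀ᵐ x ∂μ, GoodP (TP ℤ) L v fun n => f ((T ^ n) x) := by
  refine good_lift (fun g hg hg1 => ?_) hf
  obtain ⟨ν, _, F, hact, hFm, hF1, -, hQ⟩ := transfer hTm hT hg hg1
  exact hQ (fun a => GoodP (TP ℤ) L v a) (good_TP hact hv hFm hF1)

theorem good_Cst_all (hTm : Measurable T.symm) (hT : MeasurePreserving T μ μ)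
    (hwm : Ergodic (Prod.map T T) (μ.prod μ))
    {L : (Fin k → ℤ) →+ ℤ} {s : ℕ} (hs : 0 < s) {v : Fin s → Fin k → ℤ}
    (hv : ∀ i, L (v i) ≠ 0) {f : X → ℂ}
    (hf : BM f) : ∀ᵐ x ∂μ, GoodP Cst L v fun n => f ((T ^ n) x) := by
  refine good_lift (fun g hg hg1 => ?_) hf
  obtain ⟨ν, _, F, hact, hFm, hF1, herg, hQ⟩ := transfer hTm hT hg hg1
  exact hQ (fun a => GoodP Cst L v a) (good_Cst hact (herg hwm) hs hv hFm hF1)

/-- The convergence theorem. -/
theorem complexity_one {k n : ℕ} {T : Fin n → Equiv.Perm X} (hTm : ∀ j, Measurable (T j).symm)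
    (hT : ∀ j, MeasurePreserving (T j) μ μ) {L : Fin n → Fin k → ℤ} (c : Fin n → ℤ)
    (W : Fin n → Prop)
    (hW : ∀ j, W j → Ergodic (Prod.map (T j) (T j)) (μ.prod μ) ∧ L j ≠ 0 ∧
      ∀ i, i ≠ j → ∃ v, L i ⬝ᵥ v = 0 ∧ L j ⬝ᵥ v ≠ 0)
    (hN : ∀ j, ¬ W j → ∃ v₁ v₂, L j ⬝ᵥ v₁ ≠ 0 ∧ L j ⬝ᵥ v₂ ≠ 0 ∧
      ∀ i, i ≠ j → ¬ W i → L i ⬝ᵥ v₁ = 0 ∨ L i ⬝ᵥ v₂ = 0)
    {f : Fin n → X → ℂ} (hf : ∀ j, MemLp (f j) ∞ μ) :
    ∀ᵐ x ∂μ, ∃ ℓ : ℂ, Tendsto (fun M : Fin k → ℕ => (∏ l, (M l : ℂ))⁻¹ *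
      ∑ m ∈ Fintype.piFinset (fun l => Finset.Icc 1 (M l)),
        ∏ j, f j ((T j ^ (L j ⬝ᵥ (fun l => ((m l : ℕ) : ℤ)) + c j)) x)) atTop (𝓝 ℓ) := by
  classical
  have hT' : ∀ j, MeasurePreserving ((T j)⁻¹ : Equiv.Perm X) μ μ := by
    intro j
    let e : X ≃ᵐ X := ⟨T j, (hT j).measurable, hTm j⟩
    exact (hT j).symm e
  have hTn : ∀ j (n : ℤ), MeasurePreserving (T j ^ n : Equiv.Perm X) μ μ :=
    fun j n => mp_zpow' (hT j) (hT' j) n
  choose g hgB hfg using fun j => BM_of_memLp' (hf j)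
  set b : Fin n → ℤ := fun j => L j ⬝ᵥ 1 + c j with hb
  set G : Fin n → X → ℂ := fun j x => g j ((T j ^ b j) x) with hG
  have hGB : ∀ j, BM (G j) := by
    intro j
    obtain ⟨h1, C, hC⟩ := hgB j
    exact ⟨h1.comp (hTn j (b j)).measurable, C, fun x => hC _⟩
  have hae : ∀ᵐ x ∂μ, ∀ (j : Fin n) (z : ℤ), f j ((T j ^ z) x) = g j ((T j ^ z) x) := by
    rw [ae_all_iff]
    intro j
    rw [ae_all_iff]
    intro z
    exact (hTn j z).quasiMeasurePreserving.ae_eq_comp (hfg j)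
  have h1 : ∀ᵐ x ∂μ, ∀ j, W j → ∃ s, ∃ v : Fin s → Fin k → ℤ,
      GoodP Cst (dH (L j)) v (fun n => G j ((T j ^ n) x)) ∧ 0 < s ∧
      ∀ i, i ≠ j → ∃ d, dH (L i) (v d) = 0 := by
    rw [ae_all_iff]
    intro j
    by_cases hWj : W j
    · obtain ⟨hwm, hLj, hkill⟩ := hW j hWj
      obtain ⟨v0, hv0⟩ : ∃ v0 : Fin k → ℤ, L j ⬝ᵥ v0 ≠ 0 := by
        by_contra hcon
        rw [not_exists] at hcon
        apply hLj
        funext l
        have := not_not.mp (hcon (Pi.single l 1))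
        rwa [dotProduct_single, mul_one] at this
      choose! vv hvv using hkill
      set v : Fin n → Fin k → ℤ := fun i => if i = j then v0 else vv i with hv
      have hvne : ∀ i, dH (L j) (v i) ≠ 0 := by
        intro i
        by_cases hij : i = j
        · simp only [hv, if_pos hij]
          exact hv0
        · simp only [hv, if_neg hij]
          exact (hvv i hij).2
      have hn : 0 < n := Fin.pos j
      have h2 := good_Cst_all (hTm j) (hT j) hwm hn hvne (hGB j)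
      filter_upwards [h2] with x hx _
      refine ⟨n, v, hx, hn, fun i hij => ⟨i, ?_⟩⟩
      simp only [hv, if_neg hij]
      exact (hvv i hij).1
    · exact Eventually.of_forall fun x h => absurd h hWj
  have h2 : ∀ᵐ x ∂μ, ∀ j, ¬ W j → ∃ s, ∃ v : Fin s → Fin k → ℤ,
      GoodP (TP ℤ) (dH (L j)) v (fun n => G j ((T j ^ n) x)) ∧ 0 < s ∧
      ∀ i, i ≠ j → ¬ W i → ∃ d, dH (L i) (v d) = 0 := by
    rw [ae_all_iff]
    intro j
    by_cases hWj : W j
    · exact Eventually.of_forall fun x h => absurd hWj h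
    · obtain ⟨v₁, v₂, h3, h4, h5⟩ := hN j hWj
      set v : Fin 2 → Fin k → ℤ := fun i => if i = 0 then v₁ else v₂ with hv
      have hvne : ∀ i, dH (L j) (v i) ≠ 0 := by
        intro i
        by_cases hi : i = 0
        · simp only [hv, if_pos hi]
          exact h3
        · simp only [hv, if_neg hi]
          exact h4
      have h6 := good_TP_all (hTm j) (hT j) hvne (hGB j)
      filter_upwards [h6] with x hx _
      refine ⟨2, v, hx, by norm_num, fun i hij hWi => ?_⟩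
      rcases h5 i hij hWi with h7 | h7
      · exact ⟨0, by simp only [hv, if_true]; exact h7⟩
      · exact ⟨1, by simp only [hv, one_ne_zero, if_false]; exact h7⟩
  filter_upwards [h1, h2, hae] with x hx1 hx2 hx3
  obtain ⟨ℓ, hℓ⟩ := det_conv (ℓ := fun j => dH (L j)) W
    (a := fun j n => G j ((T j ^ n) x)) (fun j => by
      obtain ⟨_, C, hC⟩ := hGB j
      exact ⟨C, fun n => hC _⟩) hx1 hx2
  refine ⟨ℓ, hℓ.congr fun M => ?_⟩
  rw [bzc, bxc, sum_Icc_box]
  congr 1
  refine Finset.sum_congr rfl fun m _ => Finset.prod_congr rfl fun j _ => ?_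
  rw [hx3]
  show g j ((T j ^ b j) ((T j ^ (L j ⬝ᵥ cz m)) x)) = _
  rw [← Equiv.Perm.mul_apply, ← zpow_add]
  congr 3
  have e1 : (fun l => (((m + 1 : Fin k → ℕ) l : ℕ) : ℤ)) = cz m + 1 := by
    funext l
    simp [cz]
  rw [e1, dotProduct_add, hb]
  simp only
  ring

end final

end Pool.Agent.Y311.CX
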