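import Pool.Agent.Y311.CX.Ctl2

/-!
# Good sequences
-/

set_option autoImplicit false
set_option linter.unusedSectionVars false

open Filter Topology MeasureTheory ProbabilityTheory

noncomputable section

namespace Pool.Agent.Y311.CX

open Pool.Agent.Y311.UB Pool.Agent.W761.Box

variable {k s : ℕ}

theorem bzc_sum (N : Fin k → ℕ) {ι : Type} (S : Finset ι) (a : ι → (Fin k → ℤ) → ℂ) :
    bzc N (fun m => ∑ i ∈ S, a i m) = ∑ i ∈ S, bzc N (a i) := by
  simp only [bzc, bxc]
  rw [Finset.sum_comm, Finset.mul_sum]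

/-- from real weights to complex weights -/
theorem cplx_of_real {A : (Fin k → ℤ) → ℝ} {v : Fin s → Fin k → ℤ}
    (H : ∀ b : Fin s → (Fin k → ℤ) → ℝ, (∀ i m, |b i m| ≤ 1) →
      (∀ i m, b i (m + v i) = b i m) →
      Tendsto (fun N => bz N fun m => A m * ∏ i, b i m) atTop (𝓝 0))
    (b : Fin s → (Fin k → ℤ) → ℂ) (hb : ∀ i m, ‖b i m‖ ≤ 1)
    (hbi : ∀ i m, b i (m + v i) = b i m) :
    Tendsto (fun N => bzc N fun m => (A m : ℂ) * ∏ i, b i m) atTop (𝓝 0) := by
  classical
  set bt : Finset (Fin s) → Fin s → (Fin k → ℤ) → ℝ := fun t i m =>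
    if i ∈ t then (b i m).re else (b i m).im with hbt
  have h1 : ∀ t, Tendsto (fun N => bz N fun m => A m * ∏ i, bt t i m) atTop (𝓝 0) := by
    intro t
    refine H _ (fun i m => ?_) fun i m => ?_
    · simp only [hbt]
      split_ifs
      · exact (Complex.abs_re_le_norm _).trans (hb i m)
      · exact (Complex.abs_im_le_norm _).trans (hb i m)
    · simp only [hbt, hbi]
  have h2 : Tendsto (fun N => ∑ t ∈ (Finset.univ : Finset (Fin s)).powerset,
      Complex.I ^ ((Finset.univ \ t).card) *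
        ((bz N (fun m => A m * ∏ i, bt t i m) : ℝ) : ℂ)) atTop (𝓝 0) := by
    have h3 : Tendsto (fun N : Fin k → ℕ => ∑ t ∈ (Finset.univ : Finset (Fin s)).powerset,
        Complex.I ^ ((Finset.univ \ t).card) *
        ((bz N (fun m => A m * ∏ i, bt t i m) : ℝ) : ℂ)) atTop
        (𝓝 (∑ t ∈ (Finset.univ : Finset (Fin s)).powerset,
          Complex.I ^ ((Finset.univ \ t).card) * ((0 : ℝ) : ℂ))) := by
      refine tendsto_finsetSum _ fun t _ => Tendsto.const_mul _ ?_
      exact (Complex.continuous_ofReal.tendsto _).comp (h1 t)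
    simpa using h3
  refine h2.congr fun N => ?_
  have h4 : (fun m => (A m : ℂ) * ∏ i, b i m) = fun m =>
      ∑ t ∈ (Finset.univ : Finset (Fin s)).powerset, Complex.I ^ ((Finset.univ \ t).card) *
        ((A m * ∏ i, bt t i m : ℝ) : ℂ) := by
    funext m
    have h5 : ∏ i, b i m = ∏ i, (((b i m).re : ℂ) + ((b i m).im : ℂ) * Complex.I) := by
      refine Finset.prod_congr rfl fun i _ => ?_
      exact (Complex.re_add_im _).symm
    rw [h5, Finset.prod_add, Finset.mul_sum]
    refine Finset.sum_congr rfl fun t ht => ?_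
    have h6 : ∏ i, bt t i m = (∏ i ∈ t, (b i m).re) * ∏ i ∈ Finset.univ \ t, (b i m).im := by
      rw [← Finset.prod_sdiff (Finset.mem_powerset.mp ht), mul_comm]
      congr 1
      · refine Finset.prod_congr rfl fun i hi => ?_
        simp only [hbt, if_pos hi]
      · refine Finset.prod_congr rfl fun i hi => ?_
        simp only [hbt, if_neg (Finset.mem_sdiff.mp hi).2]
    rw [h6, Finset.prod_mul_distrib, Finset.prod_const]
    push_cast
    ring
  rw [h4, bzc_sum]
  refine Finset.sum_congr rfl fun t _ => ?_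
  rw [bzc_mul, bzc_ofReal]

/-- `a` along `L` is approximated by elements of `P`, up to terms which are orthogonal to all
products of weights invariant in the directions `v i`. -/
def GoodP (P : Submodule ℂ (ℤ → ℂ)) (L : (Fin k → ℤ) →+ ℤ) (v : Fin s → Fin k → ℤ)
    (a : ℤ → ℂ) : Prop :=
  ∀ ε : ℝ, 0 < ε → ∃ p ∈ P, ∀ b : Fin s → (Fin k → ℤ) → ℂ, (∀ i m, ‖b i m‖ ≤ 1) →
    (∀ i m, b i (m + v i) = b i m) →
    ∀ᶠ N in atTop, ‖bzc N fun m => (a (L m) - p (L m)) * ∏ i, b i m‖ ≤ ε

theorem GoodP.add {P : Submodule ℂ (ℤ → ℂ)} {L : (Fin k → ℤ) →+ ℤ} {v : Fin s → Fin k → ℤ}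
    {a a' : ℤ → ℂ} (h1 : GoodP P L v a) (h2 : GoodP P L v a') :
    GoodP P L v fun n => a n + a' n := by
  intro ε hε
  obtain ⟨p, hp, H1⟩ := h1 (ε / 2) (by positivity)
  obtain ⟨q, hq, H2⟩ := h2 (ε / 2) (by positivity)
  refine ⟨p + q, P.add_mem hp hq, fun b hb hbi => ?_⟩
  filter_upwards [H1 b hb hbi, H2 b hb hbi] with N h3 h4
  have h5 : (fun m => (a (L m) + a' (L m) - (p + q) (L m)) * ∏ i, b i m) = fun m =>
      (a (L m) - p (L m)) * ∏ i, b i m + (a' (L m) - q (L m)) * ∏ i, b i m := by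
    funext m
    simp only [Pi.add_apply]
    ring
  rw [h5, bzc_add]
  exact (norm_add_le _ _).trans (by linarith)

theorem GoodP.smul {P : Submodule ℂ (ℤ → ℂ)} {L : (Fin k → ℤ) →+ ℤ} {v : Fin s → Fin k → ℤ}
    {a : ℤ → ℂ} (c : ℂ) (h1 : GoodP P L v a) : GoodP P L v fun n => c * a n := by
  intro ε hε
  obtain ⟨p, hp, H1⟩ := h1 (ε / (‖c‖ + 1)) (by positivity)
  refine ⟨c • p, P.smul_mem c hp, fun b hb hbi => ?_⟩
  filter_upwards [H1 b hb hbi] with N h3
  have h5 : (fun m => (c * a (L m) - (c • p) (L m)) * ∏ i, b i m) = fun m =>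
      c * ((a (L m) - p (L m)) * ∏ i, b i m) := by
    funext m
    simp only [Pi.smul_apply, smul_eq_mul]
    ring
  rw [h5, bzc_mul, norm_mul]
  have h6 : ‖c‖ * (ε / (‖c‖ + 1)) ≤ ε := by
    rw [mul_div_assoc', div_le_iff₀ (by positivity)]
    nlinarith [norm_nonneg c]
  exact (mul_le_mul_of_nonneg_left h3 (norm_nonneg _)).trans h6

/-- sum of an approximable sequence and an orthogonal one -/
theorem GoodP.of_split {P : Submodule ℂ (ℤ → ℂ)} {L : (Fin k → ℤ) →+ ℤ} (hL : L ≠ 0)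
    {v : Fin s → Fin k → ℤ} {a as : ℤ → ℂ} {au : ℤ → ℝ} (hsum : ∀ n, a n = as n + (au n : ℂ))
    (hs : ∀ ε : ℝ, 0 < ε → ∃ p ∈ P, UD (fun n => ‖as n - p n‖) ε)
    (hu : ∀ b : Fin s → (Fin k → ℤ) → ℝ, (∀ i m, |b i m| ≤ 1) →
      (∀ i m, b i (m + v i) = b i m) →
      Tendsto (fun N => bz N fun m => au (L m) * ∏ i, b i m) atTop (𝓝 0)) :
    GoodP P L v a := by
  intro ε hε
  obtain ⟨K, hK, HK⟩ := box_dens L hL
  obtain ⟨p, hp, hUD⟩ := hs (ε / (2 * K)) (by positivity)
  have h1 := HK (fun n => ‖as n - p n‖) (fun n => norm_nonneg _) _ (by positivity) hUD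
  refine ⟨p, hp, fun b hb hbi => ?_⟩
  have h2 := cplx_of_real (A := fun m => au (L m)) hu b hb hbi
  have h3 : ∀ᶠ N : Fin k → ℕ in atTop,
      ‖bzc N fun m => ((au (L m) : ℝ) : ℂ) * ∏ i, b i m‖ < ε / 2 := by
    have := (Metric.tendsto_nhds.mp h2) (ε / 2) (by positivity)
    simpa [dist_eq_norm] using this
  filter_upwards [h1, h3] with N h4 h5
  have h6 : (fun m => (a (L m) - p (L m)) * ∏ i, b i m) = fun m =>
      (as (L m) - p (L m)) * ∏ i, b i m + ((au (L m) : ℝ) : ℂ) * ∏ i, b i m := by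
    funext m
    rw [hsum]
    ring
  rw [h6, bzc_add]
  refine (norm_add_le _ _).trans ?_
  have h7 : ‖bzc N fun m => (as (L m) - p (L m)) * ∏ i, b i m‖ ≤ ε / 2 := by
    refine (bzc_norm _ _).trans ((bz_mono (b := fun m => ‖as (L m) - p (L m)‖) fun m => ?_).trans
      (h4.trans (le_of_eq ?_)))
    · rw [norm_mul]
      refine mul_le_of_le_one_right (norm_nonneg _) ?_
      rw [norm_prod]
      exact Finset.prod_le_one (fun _ _ => norm_nonneg _) fun i _ => hb i m
    · field_simp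
  linarith

/-- exchanging the directions for multiples of them -/
theorem smul_inv {b : (Fin k → ℤ) → ℝ} {v : Fin k → ℤ} (h : ∀ m, b (m + v) = b m) (c : ℤ)
    (m : Fin k → ℤ) : b (m + c • v) = b m := by
  have hnat : ∀ (n : ℕ) m, b (m + n • v) = b m := by
    intro n
    induction n with
    | zero => intro m; simp
    | succ n ih => intro m; rw [succ_nsmul, ← add_assoc, h, ih]
  obtain ⟨n, rfl | rfl⟩ := c.eq_nat_or_neg
  · rw [natCast_zsmul]
    exact hnat n m
  · rw [← hnat n (m + -(n : ℤ) • v)]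
    congr 1
    rw [neg_smul, natCast_zsmul]
    abel

/-- lifting characters along `n ↦ n w + r` -/
theorem TP_lift {p : ℤ → ℂ} (hp : p ∈ TP ℤ) {w : ℤ} (hw : w ≠ 0) (r : ℤ) :
    ∃ q ∈ TP ℤ, ∀ n, q (n * w + r) = p n := by
  refine Submodule.span_induction (p := fun (p : ℤ → ℂ) _ =>
    ∃ q ∈ TP ℤ, ∀ n, q (n * w + r) = p n) ?_ ?_ ?_ ?_ hp
  · intro χ hχ
    have h1 : ‖χ 1‖ = 1 := hχ.2 1
    have h10 : χ 1 ≠ 0 := by
      intro h
      rw [h, norm_zero] at h1
      norm_num at h1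
    have hχ0 : χ 0 = 1 := by
      have := hχ.1 1 0
      rw [add_zero] at this
      exact (mul_eq_left₀ h10).mp this.symm
    have hχn : ∀ n : ℕ, χ n = χ 1 ^ n := by
      intro n
      induction n with
      | zero => simpa using hχ0
      | succ n ih =>
        push_cast
        rw [hχ.1, ih, pow_succ]
    have hχz : ∀ n : ℤ, χ n = χ 1 ^ n := by
      intro n
      obtain ⟨n, rfl | rfl⟩ := n.eq_nat_or_neg
      · rw [hχn, zpow_natCast]
      · have h2 := hχ.1 (-(n : ℤ)) n
        rw [neg_add_cancel, hχ0, hχn] at h2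
        rw [zpow_neg, zpow_natCast]
        exact eq_inv_of_mul_eq_one_left h2.symm
    -- a root of the character
    set θ : ℝ := (χ 1).arg with hθ
    have hexp : χ 1 = Complex.exp (θ * Complex.I) := by
      have h3 := Complex.norm_mul_exp_arg_mul_I (χ 1)
      rw [h1] at h3
      rw [← h3]
      simp [hθ]
    set z : ℂ := Complex.exp ((θ / w : ℝ) * Complex.I) with hz
    have hz1 : ‖z‖ = 1 := Complex.norm_exp_ofReal_mul_I _
    have hz0 : z ≠ 0 := Complex.exp_ne_zero _
    have hzw : z ^ w = χ 1 := by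
      rw [hz, ← Complex.exp_int_mul, hexp]
      congr 1
      have : (w : ℂ) ≠ 0 := by exact_mod_cast hw
      push_cast
      field_simp
    refine ⟨fun n => z ^ (-r) * z ^ n, ?_, fun n => ?_⟩
    · refine (TP ℤ).smul_mem _ (Submodule.subset_span ⟨fun a b => ?_, fun a => ?_⟩)
      · exact zpow_add₀ hz0 _ _
      · rw [norm_zpow, hz1, one_zpow]
    · simp only
      rw [← zpow_add₀ hz0, hχz, ← hzw, ← zpow_mul]
      congr 1
      ring
  · exact ⟨0, (TP ℤ).zero_mem, fun n => rfl⟩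
  · rintro f g _ _ ⟨q, hq, h1⟩ ⟨q', hq', h2⟩
    exact ⟨q + q', (TP ℤ).add_mem hq hq', fun n => by simp [h1, h2]⟩
  · rintro c f _ ⟨q, hq, h1⟩
    exact ⟨c • q, (TP ℤ).smul_mem c hq, fun n => by simp [h1]⟩

/-- indicators of residue classes are trigonometric polynomials -/
theorem TP_res {q : ℕ} (hq : 0 < q) (r : ℤ) :
    (fun n : ℤ => if (q : ℤ) ∣ n - r then (1 : ℂ) else 0) ∈ TP ℤ := by
  have hprim := Complex.isPrimitiveRoot_exp q hq.ne'
  set ζ : ℂ := Complex.exp (2 * Real.pi * Complex.I / q) with hζ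
  have hζ0 : ζ ≠ 0 := Complex.exp_ne_zero _
  have hζ1 : ‖ζ‖ = 1 := by
    have h1 : ‖ζ‖ ^ q = 1 := by
      rw [← norm_pow, hprim.pow_eq_one, norm_one]
    exact (pow_eq_one_iff_of_nonneg (norm_nonneg _) hq.ne').mp h1
  have hq' : (q : ℂ) ≠ 0 := by exact_mod_cast hq.ne'
  have hsum : (fun n : ℤ => if (q : ℤ) ∣ n - r then (1 : ℂ) else 0) =
      ∑ j ∈ Finset.range q, ((q : ℂ)⁻¹ * (ζ ^ (j : ℤ)) ^ (-r)) • fun n : ℤ => (ζ ^ (j : ℤ)) ^ n := by
    funext n
    rw [Finset.sum_apply]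
    simp only [Pi.smul_apply, smul_eq_mul]
    have h2 : ∀ j ∈ Finset.range q, (q : ℂ)⁻¹ * (ζ ^ (j : ℤ)) ^ (-r) * (ζ ^ (j : ℤ)) ^ n =
        (q : ℂ)⁻¹ * (ζ ^ (n - r)) ^ j := by
      intro j _
      rw [mul_assoc]
      congr 1
      rw [← zpow_mul, ← zpow_mul, ← zpow_add₀ hζ0, ← zpow_natCast, ← zpow_mul]
      congr 1
      ring
    rw [Finset.sum_congr rfl h2, ← Finset.mul_sum]
    by_cases hd : (q : ℤ) ∣ n - r
    · rw [if_pos hd, (hprim.zpow_eq_one_iff_dvd _).mpr hd]
      simp [hq']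
    · rw [if_neg hd]
      have h3 : ζ ^ (n - r) ≠ 1 := fun h => hd ((hprim.zpow_eq_one_iff_dvd _).mp h)
      have h4 : (ζ ^ (n - r)) ^ q = 1 := by
        rw [← zpow_natCast, ← zpow_mul, mul_comm (n - r), zpow_mul, zpow_natCast,
          hprim.pow_eq_one, one_zpow]
      rw [geom_sum_eq h3, h4, sub_self, zero_div, mul_zero]
  rw [hsum]
  refine (TP ℤ).sum_mem fun j _ => (TP ℤ).smul_mem _ (Submodule.subset_span ⟨fun a b => ?_,
    fun a => ?_⟩)
  · exact zpow_add₀ (zpow_ne_zero _ hζ0) _ _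
  · rw [norm_zpow, norm_zpow, hζ1, one_zpow, one_zpow]

/-- a sequence which is almost periodic along all progressions is almost periodic -/
theorem bap_interleave {a : ℤ → ℂ} {w : ℤ} (hw : w ≠ 0)
    (h : ∀ r : ℤ, BAP fun n => a (n * w + r)) : BAP a := by
  classical
  intro ε hε
  set q : ℕ := w.natAbs with hq
  have hq0 : 0 < q := Int.natAbs_pos.mpr hw
  have hδ : 0 < ε / (3 * q) := by positivity
  choose p hp hUD using fun r : ℤ => h r (ε / (3 * q)) hδ
  choose P hP hPn using fun r : ℤ => TP_lift (hp r) hw r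
  set D : ℤ → ℤ → ℂ := fun r n => if (q : ℤ) ∣ n - r then (1 : ℂ) else 0 with hD
  refine ⟨∑ r ∈ Finset.range q, D r * P r, ?_, ?_⟩
  · exact (TP ℤ).sum_mem fun r _ => TP_mul (TP_res hq0 r) (hP r)
  have hUDr : ∀ᶠ N : ℕ in atTop, ∀ r ∈ Finset.range q,
      sd N (fun n => ‖a (n * w + (r : ℤ)) - p r n‖) ≤ ε / (3 * q) * (2 * N + 1) := by
    rw [Filter.eventually_all_finset]
    intro r _
    exact hUD r
  obtain ⟨N₀, hN₀⟩ := eventually_atTop.mp hUDr
  refine eventually_atTop.mpr ⟨N₀, fun N hN => ?_⟩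
  have h1 : ∀ n : ℤ, ‖a n - (∑ r ∈ Finset.range q, D r * P r) n‖ =
      ‖a ((n / w) * w + n % w) - p (n % w) (n / w)‖ := by
    intro n
    have hn : n / w * w + n % w = n := Int.ediv_mul_add_emod n w
    have hr0 : 0 ≤ n % w := Int.emod_nonneg n hw
    have hrq : n % w < (q : ℤ) := by
      rw [hq]
      exact_mod_cast Int.emod_lt n hw
    have h2 : (∑ r ∈ Finset.range q, D r * P r) n = P (n % w) n := by
      rw [Finset.sum_apply, Finset.sum_eq_single (n % w).toNat]
      · rw [Int.toNat_of_nonneg hr0, Pi.mul_apply, hD]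
        simp only
        rw [if_pos, one_mul]
        have h3 : n - n % w = n / w * w := by linarith
        rw [h3, hq]
        exact (Int.natAbs_dvd.mpr (dvd_mul_left _ _))
      · intro r hr hrn
        rw [Pi.mul_apply, hD]
        simp only
        rw [if_neg, zero_mul]
        intro hd
        apply hrn
        have hr' := Finset.mem_range.mp hr
        have h3 : (q : ℤ) ∣ n - n % w := by
          have h4 : n - n % w = n / w * w := by linarith
          rw [h4, hq]
          exact (Int.natAbs_dvd.mpr (dvd_mul_left _ _))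
        have h5 : (q : ℤ) ∣ (r : ℤ) - n % w := by
          have := dvd_sub h3 hd
          have e : n - n % w - (n - r) = (r : ℤ) - n % w := by ring
          rwa [e] at this
        have h6 : (r : ℤ) - n % w = 0 := by
          refine Int.eq_zero_of_abs_lt_dvd h5 ?_
          rw [abs_lt]
          constructor
          · have : (0 : ℤ) ≤ r := Int.natCast_nonneg r
            linarith
          · have : (r : ℤ) < q := by exact_mod_cast hr'
            linarith
        omega
      · intro hr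
        exfalso
        apply hr
        rw [Finset.mem_range]
        omega
    rw [h2, hn]
    congr 2
    rw [← hPn (n % w) (n / w), hn]
  have h2 : sd N (fun n => ‖a n - (∑ r ∈ Finset.range q, D r * P r) n‖) ≤
      ∑ r ∈ Finset.range q, sd (N + 1) (fun n => ‖a (n * w + (r : ℤ)) - p r n‖) := by
    have h3 : sd N (fun n => ‖a n - (∑ r ∈ Finset.range q, D r * P r) n‖) =
        ∑ n ∈ Finset.Icc (-(N : ℤ)) N, ‖a ((n / w) * w + n % w) - p (n % w) (n / w)‖ :=
      Finset.sum_congr rfl fun n _ => h1 n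
    rw [h3]
    set g : ℕ × ℤ → ℝ := fun z => ‖a (z.2 * w + (z.1 : ℤ)) - p z.1 z.2‖ with hg
    have h4 : ∑ r ∈ Finset.range q, sd (N + 1) (fun n => ‖a (n * w + (r : ℤ)) - p r n‖) =
        ∑ z ∈ Finset.range q ×ˢ Finset.Icc (-((N + 1 : ℕ) : ℤ)) ((N + 1 : ℕ) : ℤ), g z := by
      rw [Finset.sum_product]
      rfl
    rw [h4]
    have hinj : Set.InjOn (fun n : ℤ => ((n % w).toNat, n / w)) (Finset.Icc (-(N : ℤ)) N) := by
      intro x _ y _ hxy
      simp only [Prod.mk.injEq] at hxy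
      have hx := Int.ediv_mul_add_emod x w
      have hy := Int.ediv_mul_add_emod y w
      have hx0 := Int.emod_nonneg x hw
      have hy0 := Int.emod_nonneg y hw
      have e : x % w = y % w := by omega
      rw [← hx, ← hy, hxy.2, e]
    have h5 : ∑ n ∈ Finset.Icc (-(N : ℤ)) N, ‖a ((n / w) * w + n % w) - p (n % w) (n / w)‖ =
        ∑ z ∈ (Finset.Icc (-(N : ℤ)) N).image (fun n : ℤ => ((n % w).toNat, n / w)), g z := by
      rw [Finset.sum_image hinj]
      refine Finset.sum_congr rfl fun n _ => ?_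
      simp only [hg]
      rw [Int.toNat_of_nonneg (Int.emod_nonneg n hw)]
    rw [h5]
    refine Finset.sum_le_sum_of_subset_of_nonneg ?_ fun _ _ _ => norm_nonneg _
    intro z hz
    obtain ⟨n, hn, rfl⟩ := Finset.mem_image.mp hz
    rw [Finset.mem_Icc] at hn
    rw [Finset.mem_product, Finset.mem_range, Finset.mem_Icc]
    have hr0 : 0 ≤ n % w := Int.emod_nonneg n hw
    have hrq : n % w < (q : ℤ) := by
      rw [hq]
      exact_mod_cast Int.emod_lt n hw
    refine ⟨by simp only; omega, ?_⟩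
    simp only
    have h6 : n / w * w + n % w = n := Int.ediv_mul_add_emod n w
    have h7 : |n / w| * q ≤ N + q := by
      have h8 : |n / w * w| ≤ N + q := by
        have h9 : n / w * w = n - n % w := by linarith
        rw [h9, abs_le]
        constructor <;> linarith
      rw [abs_mul] at h8
      have h10 : |w| = (q : ℤ) := by rw [hq]; exact (Int.natCast_natAbs w).symm
      rwa [h10] at h8
    have h11 : |n / w| ≤ N + 1 := by
      by_contra hcon
      rw [not_le] at hcon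
      have h12 : (N : ℤ) + 2 ≤ |n / w| := by omega
      have h13 : ((N : ℤ) + 2) * q ≤ |n / w| * q :=
        mul_le_mul_of_nonneg_right h12 (Int.natCast_nonneg q)
      have h14 : (1 : ℤ) ≤ q := by exact_mod_cast hq0
      have h15 : (0 : ℤ) ≤ N := Int.natCast_nonneg N
      nlinarith
    rw [abs_le] at h11
    push_cast
    exact h11
  refine h2.trans ?_
  have h3 : ∀ r ∈ Finset.range q, sd (N + 1) (fun n => ‖a (n * w + (r : ℤ)) - p r n‖) ≤
      ε / (3 * q) * (2 * ((N + 1 : ℕ) : ℝ) + 1) := fun r hr => hN₀ (N + 1) (by omega) r hr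
  refine (Finset.sum_le_sum h3).trans ?_
  rw [Finset.sum_const, Finset.card_range, nsmul_eq_mul]
  have hqr : (0 : ℝ) < q := by exact_mod_cast hq0
  have h4 : (q : ℝ) * (ε / (3 * q) * (2 * ((N + 1 : ℕ) : ℝ) + 1)) =
      ε * ((2 * ((N : ℝ) + 1) + 1) / 3) := by
    push_cast
    field_simp
  rw [h4]
  refine mul_le_mul_of_nonneg_left ?_ hε.le
  have : (0 : ℝ) ≤ N := Nat.cast_nonneg N
  rw [div_le_iff₀ (by norm_num)]
  linarith

end Pool.Agent.Y311.CX
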