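import Pool.Agent.Y311.CX.Seq
import Pool.Agent.H514R3.Herg

/-!
# Matrix coefficients of unitary operators are Besicovitch almost periodic
-/

set_option autoImplicit false

open Filter Topology MeasureTheory

noncomputable section

namespace Pool.Agent.Y311.CX

open Pool.Agent.H514R3 (PD lag herglotz)

/-- averages of powers of a unit complex number -/
theorem avg_pow {z : ℂ} (hz : ‖z‖ = 1) :
    Tendsto (fun N : ℕ => (N : ℂ)⁻¹ * ∑ n ∈ Finset.range N, z ^ n) atTop
      (𝓝 (if z = 1 then 1 else 0)) := by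
  by_cases h : z = 1
  · rw [if_pos h]
    refine tendsto_const_nhds.congr' ?_
    filter_upwards [eventually_gt_atTop 0] with N hN
    simp only [h, one_pow, Finset.sum_const, Finset.card_range, nsmul_eq_mul, mul_one]
    rw [inv_mul_cancel₀]
    exact_mod_cast hN.ne'
  · rw [if_neg h]
    have h1 : Tendsto (fun N : ℕ => (N : ℝ)⁻¹ * (2 / ‖z - 1‖)) atTop (𝓝 0) := by
      have := ((tendsto_inv_atTop_zero (𝕜 := ℝ)).comp tendsto_natCast_atTop_atTop).mul_const
        (2 / ‖z - 1‖)
      rwa [zero_mul] at this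
    refine squeeze_zero_norm (fun N => ?_) h1
    rw [norm_mul, norm_inv, Complex.norm_natCast, geom_sum_eq h, norm_div]
    refine mul_le_mul_of_nonneg_left ?_ (by positivity)
    refine div_le_div_of_nonneg_right ?_ (norm_nonneg _)
    refine (norm_sub_le _ _).trans ?_
    rw [norm_pow, hz, one_pow, norm_one]
    norm_num

/-- the limit of the averages of `cos (n t)` -/
def cc (t : ℝ) : ℝ := if Complex.exp (t * Complex.I) = 1 then 1 else 0

theorem avg_cos (t : ℝ) : Tendsto (fun N : ℕ => (N : ℝ)⁻¹ * ∑ n ∈ Finset.range N,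
    Real.cos (n * t)) atTop (𝓝 (cc t)) := by
  have h1 := avg_pow (z := Complex.exp (t * Complex.I)) (Complex.norm_exp_ofReal_mul_I t)
  have h2 := (Complex.continuous_re.tendsto _).comp h1
  have h3 : (if Complex.exp (t * Complex.I) = 1 then (1 : ℂ) else 0).re = cc t := by
    unfold cc
    split_ifs <;> simp
  rw [h3] at h2
  refine h2.congr fun N => ?_
  simp only [Function.comp_apply]
  have h4 : (N : ℂ)⁻¹ = (((N : ℝ)⁻¹ : ℝ) : ℂ) := by push_cast; rfl
  rw [h4, Complex.re_ofReal_mul, Complex.re_sum]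
  congr 1
  refine Finset.sum_congr rfl fun n _ => ?_
  rw [← Complex.exp_nat_mul, ← mul_assoc]
  have h5 : (n : ℂ) * (t : ℂ) = ((n * t : ℝ) : ℂ) := by push_cast; rfl
  rw [h5, Complex.exp_ofReal_mul_I_re]

theorem cc_zero : cc 0 = 1 := by simp [cc]

theorem cc_nonneg (t : ℝ) : 0 ≤ cc t := by
  unfold cc
  split_ifs <;> norm_num

theorem cc_le (t : ℝ) : cc t ≤ 1 := by
  unfold cc
  split_ifs <;> norm_num

theorem cc_eq_zero {t : ℝ} (h0 : t ≠ 0) (h1 : -(2 * Real.pi) < t) (h2 : t < 2 * Real.pi) :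
    cc t = 0 := by
  unfold cc
  rw [if_neg]
  intro h
  rw [Complex.exp_eq_one_iff] at h
  obtain ⟨n, hn⟩ := h
  have h3 : (t : ℂ) = ((n * (2 * Real.pi) : ℝ) : ℂ) := by
    have h4 : (t : ℂ) * Complex.I = (n * (2 * Real.pi)) * Complex.I := by
      rw [hn]
      ring
    have h5 := mul_right_cancel₀ Complex.I_ne_zero h4
    rw [h5]
    push_cast
    ring
  have h4 : t = n * (2 * Real.pi) := by exact_mod_cast h3
  have hpi := Real.pi_pos
  have h5 : (-1 : ℝ) < n := by
    by_contra hcon
    rw [not_lt] at hcon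
    nlinarith
  have h6 : (n : ℝ) < 1 := by
    by_contra hcon
    rw [not_lt] at hcon
    nlinarith
  have h7 : n = 0 := by
    have h8 : -1 < n := by exact_mod_cast h5
    have h9 : n < 1 := by exact_mod_cast h6
    omega
  rw [h7] at h4
  simp at h4
  exact h0 h4

/-- the limit of the averages of `cos (n x) cos (n y)` -/
def kk (x y : ℝ) : ℝ := (cc (x - y) + cc (x + y)) / 2

theorem avg_cos_cos (x y : ℝ) : Tendsto (fun N : ℕ => (N : ℝ)⁻¹ * ∑ n ∈ Finset.range N,
    Real.cos (n * x) * Real.cos (n * y)) atTop (𝓝 (kk x y)) := by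
  have h1 := ((avg_cos (x - y)).add (avg_cos (x + y))).div_const 2
  refine h1.congr fun N => ?_
  rw [← mul_add, ← Finset.sum_add_distrib, mul_div_assoc, Finset.sum_div]
  congr 1
  refine Finset.sum_congr rfl fun n _ => ?_
  rw [mul_sub, mul_add, Real.cos_sub, Real.cos_add]
  ring

theorem kk_self (x : ℝ) : 1 / 2 ≤ kk x x := by
  unfold kk
  rw [sub_self, cc_zero]
  linarith [cc_nonneg (x + x)]

theorem kk_le (x y : ℝ) : kk x y ≤ 1 := by
  unfold kk
  linarith [cc_le (x - y), cc_le (x + y)]

theorem kk_ne {x y : ℝ} (hx : x ∈ Set.Icc 0 Real.pi) (hy : y ∈ Set.Icc 0 Real.pi) (h : x ≠ y) :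
    kk x y = 0 := by
  obtain ⟨hx0, hx1⟩ := hx
  obtain ⟨hy0, hy1⟩ := hy
  have hpi := Real.pi_pos
  unfold kk
  rw [cc_eq_zero (sub_ne_zero.mpr h) (by linarith) (by linarith),
    cc_eq_zero (t := x + y) ?_ (by linarith) ?_]
  · norm_num
  · intro h0
    exact h (by linarith)
  · rcases lt_or_gt_of_ne h with h' | h' <;> linarith

section herg

variable {r : ℕ → ℝ} {σ : Measure ℝ} [IsFiniteMeasure σ]

/-- averages against a cosine see the atoms -/
theorem avg_r_cos (hσ : σ (Set.Icc 0 Real.pi)ᶜ = 0) (hr : ∀ m : ℕ, r m = ∫ x, Real.cos (m * x) ∂σ)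
    {x : ℝ} (hx : x ∈ Set.Icc 0 Real.pi) :
    Tendsto (fun N : ℕ => (N : ℝ)⁻¹ * ∑ n ∈ Finset.range N, r n * Real.cos (n * x)) atTop
      (𝓝 (kk x x * σ.real {x})) := by
  have hint : ∀ n : ℕ, Integrable (fun y => Real.cos (n * y)) σ := by
    intro n
    refine Integrable.of_bound (Real.continuous_cos.comp
      (continuous_const.mul continuous_id)).aestronglyMeasurable 1 (Eventually.of_forall fun y => ?_)
    rw [Real.norm_eq_abs]
    exact Real.abs_cos_le_one _
  have h1 : Tendsto (fun N : ℕ => ∫ y, (N : ℝ)⁻¹ * ∑ n ∈ Finset.range N,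
      Real.cos (n * y) * Real.cos (n * x) ∂σ) atTop (𝓝 (∫ y, kk y x ∂σ)) := by
    refine tendsto_integral_of_dominated_convergence (fun _ => 1) ?_ (integrable_const _) ?_ ?_
    · intro N
      refine Continuous.aestronglyMeasurable ?_
      refine continuous_const.mul (continuous_finsetSum _ fun n _ => ?_)
      exact (Real.continuous_cos.comp (continuous_const.mul continuous_id)).mul continuous_const
    · intro N
      refine Eventually.of_forall fun y => ?_
      rw [Real.norm_eq_abs, abs_mul, abs_inv, Nat.abs_cast]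
      rcases Nat.eq_zero_or_pos N with h0 | h0
      · simp [h0]
      · rw [inv_mul_le_iff₀ (by exact_mod_cast h0), mul_one]
        refine (Finset.abs_sum_le_sum_abs _ _).trans ?_
        refine (Finset.sum_le_sum (g := fun _ => (1 : ℝ)) fun n _ => ?_).trans ?_
        · rw [abs_mul]
          exact mul_le_one₀ (Real.abs_cos_le_one _) (abs_nonneg _) (Real.abs_cos_le_one _)
        · simp
    · exact Eventually.of_forall fun y => avg_cos_cos y x
  have h2 : ∫ y, kk y x ∂σ = kk x x * σ.real {x} := by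
    have h3 : (fun y => kk y x) =ᵐ[σ] ({x} : Set ℝ).indicator fun _ => kk x x := by
      have h4 : ∀ᵐ y ∂σ, y ∈ Set.Icc 0 Real.pi := by
        rw [ae_iff]
        exact hσ
      filter_upwards [h4] with y hy
      by_cases hyx : y = x
      · subst hyx
        simp
      · rw [kk_ne hy hx hyx, Set.indicator_of_notMem]
        simpa using hyx
    rw [integral_congr_ae h3, integral_indicator_const _ (measurableSet_singleton x), smul_eq_mul,
      mul_comm]
  rw [h2] at h1
  refine h1.congr fun N => ?_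
  rw [integral_const_mul, integral_finsetSum]
  · congr 1
    refine Finset.sum_congr rfl fun n _ => ?_
    rw [integral_mul_const, hr n]
  · intro n _
    exact (hint n).mul_const _

theorem abs_r_le (hr : ∀ m : ℕ, r m = ∫ x, Real.cos (m * x) ∂σ) (n : ℕ) :
    |r n| ≤ σ.real Set.univ := by
  rw [hr n, ← Real.norm_eq_abs]
  refine (norm_integral_le_of_norm_le_const (C := 1) (Eventually.of_forall fun y => ?_)).trans ?_
  · rw [Real.norm_eq_abs]
    exact Real.abs_cos_le_one _
  · rw [one_mul]

/-- without atoms the squares have mean zero -/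
theorem avg_r_sq (hσ : σ (Set.Icc 0 Real.pi)ᶜ = 0) (hr : ∀ m : ℕ, r m = ∫ x, Real.cos (m * x) ∂σ)
    (hat : ∀ x ∈ Set.Icc 0 Real.pi, σ.real {x} = 0) :
    Tendsto (fun N : ℕ => (N : ℝ)⁻¹ * ∑ n ∈ Finset.range N, r n ^ 2) atTop (𝓝 0) := by
  have hint : ∀ n : ℕ, Integrable (fun y => Real.cos (n * y)) σ := by
    intro n
    refine Integrable.of_bound (Real.continuous_cos.comp
      (continuous_const.mul continuous_id)).aestronglyMeasurable 1 (Eventually.of_forall fun y => ?_)
    rw [Real.norm_eq_abs]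
    exact Real.abs_cos_le_one _
  have h1 : Tendsto (fun N : ℕ => ∫ y, (N : ℝ)⁻¹ * ∑ n ∈ Finset.range N,
      r n * Real.cos (n * y) ∂σ) atTop (𝓝 (∫ y, (0 : ℝ) ∂σ)) := by
    refine tendsto_integral_of_dominated_convergence (fun _ => σ.real Set.univ) ?_
      (integrable_const _) ?_ ?_
    · intro N
      refine Continuous.aestronglyMeasurable ?_
      refine continuous_const.mul (continuous_finsetSum _ fun n _ => ?_)
      exact continuous_const.mul (Real.continuous_cos.comp (continuous_const.mul continuous_id))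
    · intro N
      refine Eventually.of_forall fun y => ?_
      rw [Real.norm_eq_abs, abs_mul, abs_inv, Nat.abs_cast]
      rcases Nat.eq_zero_or_pos N with h0 | h0
      · simp [h0]
      · rw [inv_mul_le_iff₀ (by exact_mod_cast h0)]
        refine (Finset.abs_sum_le_sum_abs _ _).trans ?_
        refine (Finset.sum_le_sum (g := fun _ => σ.real Set.univ) fun n _ => ?_).trans ?_
        · rw [abs_mul]
          have := mul_le_mul (abs_r_le hr n) (Real.abs_cos_le_one (n * y)) (abs_nonneg _)
            (measureReal_nonneg)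
          rwa [mul_one] at this
        · simp
    · have h4 : ∀ᵐ y ∂σ, y ∈ Set.Icc 0 Real.pi := by
        rw [ae_iff]
        exact hσ
      filter_upwards [h4] with y hy
      have h5 := avg_r_cos hσ hr hy
      rwa [hat y hy, mul_zero] at h5
  rw [integral_zero] at h1
  refine h1.congr fun N => ?_
  rw [integral_const_mul, integral_finsetSum]
  · congr 1
    refine Finset.sum_congr rfl fun n _ => ?_
    rw [integral_const_mul, ← hr n, sq]
  · intro n _
    exact (hint n).const_mul _

theorem avg_r_abs (h : Tendsto (fun N : ℕ => (N : ℝ)⁻¹ * ∑ n ∈ Finset.range N, r n ^ 2) atTop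
    (𝓝 0)) : Tendsto (fun N : ℕ => (N : ℝ)⁻¹ * ∑ n ∈ Finset.range N, |r n|) atTop (𝓝 0) := by
  have h1 : Tendsto (fun N : ℕ => Real.sqrt ((N : ℝ)⁻¹ * ∑ n ∈ Finset.range N, r n ^ 2)) atTop
      (𝓝 0) := by
    have := (Real.continuous_sqrt.tendsto 0).comp h
    rwa [Real.sqrt_zero] at this
  refine squeeze_zero (fun N => by positivity) (fun N => ?_) h1
  apply Real.le_sqrt_of_sq_le
  rcases Nat.eq_zero_or_pos N with h0 | h0
  · simp [h0]
  · have h3 := Finset.sum_mul_sq_le_sq_mul_sq (Finset.range N) (fun _ => (1 : ℝ)) fun n => |r n|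
    simp only [one_mul, one_pow, Finset.sum_const, Finset.card_range, nsmul_eq_mul, mul_one,
      sq_abs] at h3
    rw [mul_pow]
    have hN : (0 : ℝ) < N := by exact_mod_cast h0
    calc ((N : ℝ)⁻¹) ^ 2 * (∑ n ∈ Finset.range N, |r n|) ^ 2 ≤
        ((N : ℝ)⁻¹) ^ 2 * (N * ∑ n ∈ Finset.range N, r n ^ 2) :=
          mul_le_mul_of_nonneg_left h3 (by positivity)
      _ = _ := by field_simp

end herg

section unitary

variable {H : Type*} [NormedAddCommGroup H] [InnerProductSpace ℂ H] [CompleteSpace H]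

/-- the averages of the twisted powers converge to an eigenvector -/
theorem avg_eig (U : ℤ → H →ₗᵢ[ℂ] H) (hU : ∀ m n x, U (m + n) x = U m (U n x))
    (hU0 : ∀ x, U 0 x = x) {z : ℂ} (hz : ‖z‖ = 1) (g : H) :
    ∃ v : H, (∀ n : ℤ, U n v = (z⁻¹) ^ n • v) ∧
      Tendsto (fun N : ℕ => (N : ℂ)⁻¹ • ∑ n ∈ Finset.range N, z ^ n • U n g) atTop (𝓝 v) := by
  have hz0 : z ≠ 0 := by
    intro h
    rw [h, norm_zero] at hz
    norm_num at hz
  set f : H →L[ℂ] H := z • (U 1).toContinuousLinearMap with hf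
  have hfn : ‖f‖ ≤ 1 := by
    rw [hf, norm_smul, hz, one_mul]
    exact (U 1).norm_toContinuousLinearMap_le
  have h1 := f.tendsto_birkhoffAverage_orthogonalProjection hfn g
  set v : H := ((f.eqLocus (1 : H →L[ℂ] H)).orthogonalProjectionOnto g : H) with hv
  have hfv : z • U 1 v = v := by
    have h2 : v ∈ f.eqLocus (1 : H →L[ℂ] H) := Submodule.coe_mem _
    exact h2
  have hU1 : U 1 v = z⁻¹ • v := by
    conv_rhs => rw [← hfv]
    rw [smul_smul, inv_mul_cancel₀ hz0, one_smul]
  have hpow : ∀ n : ℕ, U n v = (z⁻¹) ^ n • v := by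
    intro n
    induction n with
    | zero => simp [hU0]
    | succ n ih =>
      push_cast
      rw [hU, hU1, map_smul, ih, smul_smul, pow_succ']
  refine ⟨v, ?_, ?_⟩
  · intro n
    obtain ⟨n, rfl | rfl⟩ := n.eq_nat_or_neg
    · rw [hpow, zpow_natCast]
    · have h3 : U (-(n : ℤ)) (U n v) = v := by
        rw [← hU, neg_add_cancel, hU0]
      rw [hpow, map_smul] at h3
      rw [zpow_neg, zpow_natCast]
      conv_rhs => rw [← h3]
      rw [smul_smul, inv_mul_cancel₀, one_smul]
      exact pow_ne_zero _ (inv_ne_zero hz0)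
  · have hit : ∀ n : ℕ, (⇑f)^[n] g = z ^ n • U n g := by
      intro n
      induction n with
      | zero => simp [hU0]
      | succ n ih =>
        rw [Function.iterate_succ_apply', ih]
        show z • U 1 (z ^ n • U n g) = _
        rw [map_smul, smul_smul, ← hU, ← pow_succ']
        congr 2
        push_cast
        rw [add_comm]
    refine h1.congr fun N => ?_
    rw [birkhoffAverage, birkhoffSum]
    congr 1
    refine Finset.sum_congr rfl fun n _ => ?_
    exact hit n

/-- the vectors all of whose matrix coefficients are almost periodic -/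
def VV (U : ℤ → H →ₗᵢ[ℂ] H) : Submodule ℂ H where
  carrier := {g | ∀ h, BAP fun n => inner ℂ h (U n g)}
  add_mem' := by
    intro a b ha hb h
    simp only [map_add, inner_add_right]
    exact (ha h).add (hb h)
  zero_mem' := by
    intro h
    simp only [map_zero, inner_zero_right]
    exact BAP.const 0
  smul_mem' := by
    intro c a ha h
    simp only [map_smul, inner_smul_right]
    exact (ha h).smul c

theorem VV_closed (U : ℤ → H →ₗᵢ[ℂ] H) : IsClosed (VV U : Set H) := by
  rw [← closure_subset_iff_isClosed]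
  intro g hg h
  refine BAP.closed fun ε hε => ?_
  rw [Metric.mem_closure_iff] at hg
  obtain ⟨g', hg', hd⟩ := hg (ε / (‖h‖ + 1)) (by positivity)
  refine ⟨fun n => inner ℂ h (U n g'), hg' h, UD.of_le fun n => ?_⟩
  rw [← inner_sub_right, ← map_sub]
  refine (norm_inner_le_norm _ _).trans ?_
  rw [(U n).norm_map, ← dist_eq_norm]
  calc ‖h‖ * dist g g' ≤ (‖h‖ + 1) * (ε / (‖h‖ + 1)) := by
        refine mul_le_mul (by linarith) hd.le dist_nonneg (by positivity)
    _ = ε := by field_simp

theorem quad (U : ℤ → H →ₗᵢ[ℂ] H) (hU : ∀ m n x, U (m + n) x = U m (U n x)) (g : H)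
    (I : Finset ℤ) (a : ℤ → ℝ) :
    ‖∑ j ∈ I, (a j : ℂ) • U j g‖ ^ 2 =
      ∑ j ∈ I, ∑ k ∈ I, a j * a k * (inner ℂ g (U (k - j) g)).re := by
  rw [← inner_self_eq_norm_sq (𝕜 := ℂ), sum_inner]
  simp only [inner_sum, inner_smul_left, inner_smul_right, Complex.conj_ofReal]
  rw [map_sum]
  refine Finset.sum_congr rfl fun j _ => ?_
  rw [map_sum]
  refine Finset.sum_congr rfl fun k _ => ?_
  have h1 : inner ℂ (U j g) (U k g) = inner ℂ g (U (k - j) g) := by
    have h2 : U k g = U j (U (k - j) g) := by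
      rw [← hU]
      congr 2
      ring
    rw [h2, (U j).inner_map_map]
  rw [h1, ← mul_assoc, ← Complex.ofReal_mul]
  show (((a k * a j : ℝ) : ℂ) * _).re = _
  rw [Complex.re_ofReal_mul, mul_comm (a k)]

theorem rz_neg (U : ℤ → H →ₗᵢ[ℂ] H) (hU : ∀ m n x, U (m + n) x = U m (U n x))
    (hU0 : ∀ x, U 0 x = x) (g : H) (n : ℤ) :
    (inner ℂ g (U (-n) g)).re = (inner ℂ g (U n g)).re := by
  have h1 : inner ℂ g (U (-n) g) = inner ℂ (U n g) g := by
    rw [← (U n).inner_map_map g, ← hU, add_neg_cancel, hU0]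
  rw [h1]
  exact inner_re_symm (𝕜 := ℂ) _ _

/-- small autocorrelations imply small coefficients -/
theorem UD_of_avg (U : ℤ → H →ₗᵢ[ℂ] H) (hU : ∀ m n x, U (m + n) x = U m (U n x))
    (hU0 : ∀ x, U 0 x = x) (g : H)
    (hr : Tendsto (fun N : ℕ => (N : ℝ)⁻¹ * ∑ n ∈ Finset.range N, |(inner ℂ g (U n g)).re|) atTop
      (𝓝 0)) (h : H) {ε : ℝ} (hε : 0 < ε) : UD (fun n => |(inner ℂ h (U n g)).re|) ε := by
  set rz : ℤ → ℝ := fun n => (inner ℂ g (U n g)).re with hrz
  set δ : ℝ := (ε / (‖h‖ + 1)) ^ 2 / 8 with hδ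
  have hδ0 : 0 < δ := by positivity
  have h1 : ∀ᶠ N : ℕ in atTop, (N : ℝ)⁻¹ * ∑ n ∈ Finset.range N, |rz n| ≤ δ :=
    ((tendsto_order.mp hr).2 δ hδ0).mono fun N hN => hN.le
  obtain ⟨N₀, hN₀⟩ := eventually_atTop.mp h1
  refine eventually_atTop.mpr ⟨N₀, fun N hN => ?_⟩
  -- the two-sided sum of the autocorrelations
  have h2 : sd (2 * N) (fun n => |rz n|) ≤ 4 * δ * (2 * N + 1) := by
    have h3 : sd (2 * N) (fun n => |rz n|) ≤ 2 * ∑ n ∈ Finset.range (2 * N + 1), |rz n| := by
      have h4 : Finset.Icc (-((2 * N : ℕ) : ℤ)) ((2 * N : ℕ) : ℤ) ⊆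
          (Finset.range (2 * N + 1)).image (fun n : ℕ => (n : ℤ)) ∪
          (Finset.range (2 * N + 1)).image (fun n : ℕ => -(n : ℤ)) := by
        intro n hn
        rw [Finset.mem_Icc] at hn
        rw [Finset.mem_union, Finset.mem_image, Finset.mem_image]
        rcases le_or_gt 0 n with h5 | h5
        · left
          refine ⟨n.toNat, ?_, ?_⟩
          · rw [Finset.mem_range]
            omega
          · omega
        · right
          refine ⟨(-n).toNat, ?_, ?_⟩
          · rw [Finset.mem_range]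
            omega
          · omega
      refine (Finset.sum_le_sum_of_subset_of_nonneg h4 fun _ _ _ => abs_nonneg _).trans ?_
      have h41 := Finset.sum_union_inter
        (s₁ := (Finset.range (2 * N + 1)).image (fun n : ℕ => (n : ℤ)))
        (s₂ := (Finset.range (2 * N + 1)).image (fun n : ℕ => -(n : ℤ))) (f := fun n => |rz n|)
      have h42 : 0 ≤ ∑ n ∈ (Finset.range (2 * N + 1)).image (fun n : ℕ => (n : ℤ)) ∩
          (Finset.range (2 * N + 1)).image (fun n : ℕ => -(n : ℤ)), |rz n| :=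
        Finset.sum_nonneg fun _ _ => abs_nonneg _
      have h43 : ∑ n ∈ (Finset.range (2 * N + 1)).image (fun n : ℕ => (n : ℤ)), |rz n| =
          ∑ n ∈ Finset.range (2 * N + 1), |rz n| :=
        Finset.sum_image (fun a _ b _ hab => by simpa using hab)
      have h44 : ∑ n ∈ (Finset.range (2 * N + 1)).image (fun n : ℕ => -(n : ℤ)), |rz n| =
          ∑ n ∈ Finset.range (2 * N + 1), |rz n| := by
        rw [Finset.sum_image (fun a _ b _ hab => by simpa using hab)]
        refine Finset.sum_congr rfl fun n _ => ?_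
        rw [hrz]
        simp only
        rw [rz_neg U hU hU0]
      linarith
    refine h3.trans ?_
    have h6 := hN₀ (2 * N + 1) (by omega)
    rw [inv_mul_le_iff₀ (by positivity)] at h6
    push_cast at h6
    nlinarith
  set s : ℤ → ℝ := fun n => if 0 ≤ (inner ℂ h (U n g)).re then 1 else -1 with hs
  have hs1 : ∀ n, |s n| = 1 := by
    intro n
    rw [hs]
    simp only
    split_ifs <;> simp
  have hsr : ∀ n, |(inner ℂ h (U n g)).re| = s n * (inner ℂ h (U n g)).re := by
    intro n
    rw [hs]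
    simp only
    split_ifs with h7
    · rw [abs_of_nonneg h7, one_mul]
    · rw [abs_of_neg (not_le.mp h7)]
      ring
  set v : H := ∑ j ∈ Finset.Icc (-(N : ℤ)) N, (s j : ℂ) • U j g with hv
  have h8 : sd N (fun n => |(inner ℂ h (U n g)).re|) = (inner ℂ h v).re := by
    rw [hv, inner_sum, Complex.re_sum, sd]
    refine Finset.sum_congr rfl fun n _ => ?_
    rw [inner_smul_right, Complex.re_ofReal_mul, hsr n]
  have h9 : ‖v‖ ^ 2 ≤ (2 * N + 1) * (4 * δ * (2 * N + 1)) := by
    rw [hv, quad U hU]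
    calc ∑ j ∈ Finset.Icc (-(N : ℤ)) N, ∑ k ∈ Finset.Icc (-(N : ℤ)) N,
          s j * s k * (inner ℂ g (U (k - j) g)).re
        ≤ ∑ j ∈ Finset.Icc (-(N : ℤ)) N, sd (2 * N) (fun n => |rz n|) := by
          refine Finset.sum_le_sum fun j hj => ?_
          have h10 : ∀ k ∈ Finset.Icc (-(N : ℤ)) N, s j * s k * (inner ℂ g (U (k - j) g)).re ≤
              |rz (k - j)| := by
            intro k _
            refine (le_abs_self _).trans ?_
            rw [abs_mul, abs_mul, hs1, hs1, one_mul, one_mul]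
          refine (Finset.sum_le_sum h10).trans ?_
          have h11 : ∑ k ∈ Finset.Icc (-(N : ℤ)) N, |rz (k - j)| =
              ∑ n ∈ (Finset.Icc (-(N : ℤ)) N).image (fun k => k - j), |rz n| := by
            rw [Finset.sum_image (fun a _ b _ hab => by simpa using hab)]
          rw [h11]
          refine Finset.sum_le_sum_of_subset_of_nonneg ?_ fun _ _ _ => abs_nonneg _
          intro n hn
          obtain ⟨k, hk, rfl⟩ := Finset.mem_image.mp hn
          rw [Finset.mem_Icc] at hk hj ⊢
          push_cast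
          omega
      _ ≤ ∑ j ∈ Finset.Icc (-(N : ℤ)) N, 4 * δ * (2 * N + 1) := Finset.sum_le_sum fun _ _ => h2
      _ = _ := by rw [Finset.sum_const, nsmul_eq_mul, card_Icc_two]
  have h12 : ‖v‖ ≤ (ε / (‖h‖ + 1)) * (2 * N + 1) := by
    refine le_of_sq_le_sq ?_ (by positivity)
    refine h9.trans ?_
    rw [hδ]
    have : (2 * (N : ℝ) + 1) * (4 * ((ε / (‖h‖ + 1)) ^ 2 / 8) * (2 * N + 1)) =
      (ε / (‖h‖ + 1) * (2 * N + 1)) ^ 2 / 2 := by ring
    rw [this]
    have h13 : 0 ≤ (ε / (‖h‖ + 1) * (2 * N + 1)) ^ 2 := sq_nonneg _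
    linarith
  rw [h8]
  calc (inner ℂ h v).re ≤ ‖inner ℂ h v‖ := Complex.re_le_norm _
    _ ≤ ‖h‖ * ‖v‖ := norm_inner_le_norm _ _
    _ ≤ (‖h‖ + 1) * ((ε / (‖h‖ + 1)) * (2 * N + 1)) :=
        mul_le_mul (by linarith) h12 (norm_nonneg _) (by positivity)
    _ = ε * (2 * N + 1) := by field_simp

/-- Matrix coefficients are Besicovitch almost periodic. -/
theorem bap_inner (U : ℤ → H →ₗᵢ[ℂ] H) (hU : ∀ m n x, U (m + n) x = U m (U n x))
    (hU0 : ∀ x, U 0 x = x) (h g : H) : BAP fun n => inner ℂ h (U n g) := by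
  have : CompleteSpace (VV U) := (VV_closed U).completeSpace_coe
  suffices htop : VV U = ⊤ by
    have : g ∈ VV U := by rw [htop]; trivial
    exact this h
  rw [← Submodule.orthogonal_eq_bot_iff, eq_bot_iff]
  intro g hg
  rw [Submodule.mem_bot]
  set r : ℕ → ℝ := fun n => (inner ℂ g (U n g)).re with hr
  have hPD : PD r := by
    intro N a
    have h1 := quad U hU g ((Finset.range N).image fun n : ℕ => (n : ℤ)) fun j => a j.toNat
    rw [Finset.sum_image (fun a _ b _ hab => by simpa using hab),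
      Finset.sum_image (fun a _ b _ hab => by simpa using hab)] at h1
    have h2 : ∑ j ∈ Finset.range N, ∑ k ∈ Finset.range N, a j * a k * r (lag j k) =
        ∑ x ∈ Finset.range N, ∑ k ∈ (Finset.range N).image fun n : ℕ => (n : ℤ),
          a (x : ℤ).toNat * a k.toNat * (inner ℂ g (U (k - x) g)).re := by
      refine Finset.sum_congr rfl fun j _ => ?_
      rw [Finset.sum_image (fun a _ b _ hab => by simpa using hab)]
      refine Finset.sum_congr rfl fun k _ => ?_
      rw [Int.toNat_natCast, Int.toNat_natCast]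
      congr 1
      rw [hr]
      simp only [lag]
      rcases le_total j k with hjk | hjk
      · have h3 : ((((j : ℤ) - k).natAbs : ℕ) : ℤ) = k - j := by omega
        rw [h3]
      · have h3 : ((((j : ℤ) - k).natAbs : ℕ) : ℤ) = -(k - j) := by omega
        rw [h3, rz_neg U hU hU0]
    rw [h2, ← h1]
    positivity
  obtain ⟨σ, hσf, hσ, hrσ⟩ := herglotz r hPD
  have hat : ∀ x ∈ Set.Icc 0 Real.pi, σ.real {x} = 0 := by
    intro x hx
    have h1 := avg_r_cos hσ hrσ hx
    obtain ⟨v₁, hv₁, hl₁⟩ := avg_eig U hU hU0 (z := Complex.exp (x * Complex.I))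
      (Complex.norm_exp_ofReal_mul_I x) g
    obtain ⟨v₂, hv₂, hl₂⟩ := avg_eig U hU hU0 (z := Complex.exp (-x * Complex.I))
      (by have := Complex.norm_exp_ofReal_mul_I (-x); push_cast at this; exact this) g
    have hmem : ∀ (v : H) (z : ℂ), ‖z‖ = 1 → (∀ n : ℤ, U n v = z ^ n • v) → inner ℂ g v = 0 := by
      intro v z hz hv
      have hz0 : z ≠ 0 := by
        intro h
        rw [h, norm_zero] at hz
        norm_num at hz
      have h2 : v ∈ VV U := by
        intro h
        refine BAP.of_TP ?_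
        have h3 : (fun n => inner ℂ h (U n v)) = (inner ℂ h v) • (fun n : ℤ => z ^ n) := by
          funext n
          rw [hv, inner_smul_right, Pi.smul_apply, smul_eq_mul, mul_comm]
        rw [h3]
        refine (TP ℤ).smul_mem _ (Submodule.subset_span ⟨fun a b => ?_, fun a => ?_⟩)
        · exact zpow_add₀ hz0 _ _
        · rw [norm_zpow, hz, one_zpow]
      have h3 := (Submodule.mem_orthogonal _ _).mp hg v h2
      rw [← inner_conj_symm, h3, map_zero]
    have hz1 : ‖(Complex.exp (x * Complex.I))⁻¹‖ = 1 := by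
      rw [norm_inv, Complex.norm_exp_ofReal_mul_I, inv_one]
    have hz2 : ‖(Complex.exp (-x * Complex.I))⁻¹‖ = 1 := by
      have := Complex.norm_exp_ofReal_mul_I (-x)
      push_cast at this
      rw [norm_inv, this, inv_one]
    have e1 := hmem v₁ _ hz1 hv₁
    have e2 := hmem v₂ _ hz2 hv₂
    have h4 := (hl₁.add hl₂).const_smul (2⁻¹ : ℂ)
    have h5 : Tendsto (fun w : H => (inner ℂ g w).re) (𝓝 ((2⁻¹ : ℂ) • (v₁ + v₂)))
        (𝓝 (inner ℂ g ((2⁻¹ : ℂ) • (v₁ + v₂))).re) :=
      (Complex.continuous_re.comp (continuous_const.inner continuous_id)).tendsto _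
    have h6 := h5.comp h4
    rw [inner_smul_right, inner_add_right, e1, e2, add_zero, mul_zero, Complex.zero_re] at h6
    have h7 := tendsto_nhds_unique h1 (h6.congr fun N => ?_)
    · have h8 := kk_self x
      have h9 : 0 ≤ σ.real {x} := measureReal_nonneg
      nlinarith
    · simp only [Function.comp_apply]
      rw [← smul_add, ← Finset.sum_add_distrib]
      have h10 : ∀ n : ℕ, Complex.exp (x * Complex.I) ^ n • U n g +
          Complex.exp (-x * Complex.I) ^ n • U n g = ((2 * Real.cos (n * x) : ℝ) : ℂ) • U n g := by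
        intro n
        rw [← add_smul, ← Complex.exp_nat_mul, ← Complex.exp_nat_mul]
        congr 1
        push_cast
        rw [Complex.two_cos]
        congr 1
        · congr 1
          ring
        · congr 1
          ring
      rw [Finset.sum_congr rfl fun n _ => h10 n, smul_smul, inner_smul_right, inner_sum]
      have h11 : (2⁻¹ : ℂ) * (N : ℂ)⁻¹ = (((2 : ℝ)⁻¹ * (N : ℝ)⁻¹ : ℝ) : ℂ) := by
        push_cast
        rfl
      rw [h11, Complex.re_ofReal_mul, Complex.re_sum, mul_assoc, mul_left_comm, Finset.mul_sum]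
      congr 1
      refine Finset.sum_congr rfl fun n _ => ?_
      rw [inner_smul_right, Complex.re_ofReal_mul, hr]
      ring
  have habs := avg_r_abs (avg_r_sq hσ hrσ hat)
  have hgV : g ∈ VV U := by
    intro h
    refine BAP.closed fun ε hε => ⟨fun _ => 0, BAP.const 0, ?_⟩
    have h1 := UD_of_avg U hU hU0 g habs h (ε := ε / 2) (by positivity)
    have h2 := UD_of_avg U hU hU0 g habs (Complex.I • h) (ε := ε / 2) (by positivity)
    refine (h1.add h2).mono (fun n => ?_) (by linarith)
    rw [sub_zero]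
    refine (Complex.norm_le_abs_re_add_abs_im _).trans (add_le_add le_rfl (le_of_eq ?_))
    congr 1
    rw [inner_smul_left, Complex.conj_I, neg_mul, Complex.neg_re, Complex.I_mul_re, neg_neg]
  have h3 := (Submodule.mem_orthogonal _ _).mp hg g hgV
  rwa [inner_self_eq_zero] at h3

end unitary

end Pool.Agent.Y311.CX
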