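import Pool.Agent.Y311.CX.Zfac
import Pool.Agent.Y311.CX.Unit

/-!
# Kernel operators with invariant kernels
-/

set_option autoImplicit false
set_option linter.unusedSectionVars false

open Filter Topology MeasureTheory ProbabilityTheory

noncomputable section

namespace Pool.Agent.Y311.CX

open Pool.Agent.Y311.UB

theorem comp_congr {X : Type} [MeasurableSpace X] {ν : Measure X} {f f' : X → X}
    (hf : MeasurePreserving f ν ν) (hf' : MeasurePreserving f' ν ν) (h : f = f')
    (g : Lp ℂ 2 ν) : Lp.compMeasurePreserving f hf g = Lp.compMeasurePreserving f' hf' g := by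
  subst h
  rfl

/-- Correlations are Besicovitch almost periodic. -/
theorem bap_orbit {X : Type} [MeasurableSpace X] {ν : Measure X} [IsProbabilityMeasure ν]
    {V : ℤ → X → X} (hV : ∀ n, MeasurePreserving (V n) ν ν)
    (hadd : ∀ m n x, V (m + n) x = V n (V m x)) (h0 : ∀ x, V 0 x = x) {h g : X → ℝ}
    (hh : BMr h) (hg : BMr g) : BAP fun n => ((∫ x, h x * g (V n x) ∂ν : ℝ) : ℂ) := by
  have hL : ∀ {f : X → ℝ}, BMr f → MemLp (fun x => (f x : ℂ)) 2 ν := by
    intro f hf
    obtain ⟨hf1, C, hC⟩ := hf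
    exact MemLp.of_bound (Complex.measurable_ofReal.comp hf1).aestronglyMeasurable C
      (Eventually.of_forall fun x => by rw [Complex.norm_real]; exact hC x)
  set U : ℤ → Lp ℂ 2 ν →ₗᵢ[ℂ] Lp ℂ 2 ν := fun n => Lp.compMeasurePreservingₗᵢ ℂ (V n) (hV n)
    with hU
  have hUadd : ∀ m n (f : Lp ℂ 2 ν), U (m + n) f = U m (U n f) := by
    intro m n f
    show Lp.compMeasurePreserving (V (m + n)) (hV _) f =
      Lp.compMeasurePreserving (V m) (hV _) (Lp.compMeasurePreserving (V n) (hV _) f)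
    rw [← Lp.compMeasurePreserving_comp_apply]
    exact comp_congr _ _ (funext fun x => hadd m n x) f
  have hU0 : ∀ f : Lp ℂ 2 ν, U 0 f = f := by
    intro f
    show Lp.compMeasurePreserving (V 0) (hV _) f = f
    rw [comp_congr (hV 0) (MeasurePreserving.id ν) (funext fun x => h0 x) f]
    exact Lp.compMeasurePreserving_id_apply f
  have h1 := bap_inner U hUadd hU0 ((hL hh).toLp _) ((hL hg).toLp _)
  have h2 : (fun n => inner ℂ ((hL hh).toLp _) (U n ((hL hg).toLp _))) =
      fun n => ((∫ x, h x * g (V n x) ∂ν : ℝ) : ℂ) := by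
    funext n
    have h3 : U n ((hL hg).toLp _) = ((hL hg).comp_measurePreserving (hV n)).toLp _ := by
      show Lp.compMeasurePreserving (V n) (hV _) _ = _
      exact Lp.toLp_compMeasurePreserving _ _
    rw [h3, L2.inner_def, ← integral_complex_ofReal]
    refine integral_congr_ae ?_
    filter_upwards [(hL hh).coeFn_toLp, ((hL hg).comp_measurePreserving (hV n)).coeFn_toLp]
      with x h4 h5
    rw [h4, h5]
    simp only [Function.comp_apply, RCLike.inner_apply, Complex.conj_ofReal]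
    push_cast
    ring
  rw [h2] at h1
  exact h1

section ker

variable {X : Type} [MeasurableSpace X] [StandardBorelSpace X] {μ : Measure X}
  [IsProbabilityMeasure μ] {Φ : ℤ → Equiv.Perm X} {w : ℤ}

theorem relSq_snd (h : Act μ Φ) (w n : ℤ) :
    MeasurePreserving (Prod.map id (Φ (n • w))) (relSq μ Φ w) (relSq μ Φ w) := by
  have h1 := (h.rel (w := w) (AddMonoidHom.id ℤ)).mp (-n)
  have h2 := (h.rel (w := w) (0 : ℤ →+ ℤ)).mp n
  have h3 := h2.comp h1
  have h4 : (relΦ Φ w (0 : ℤ →+ ℤ) n : X × X → X × X) ∘ (relΦ Φ w (AddMonoidHom.id ℤ) (-n)) =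
      Prod.map id (Φ (n • w)) := by
    funext z
    show (Φ n (Φ (-n) z.1), Φ (n - (0 : ℤ) • w) (Φ (-n - (-n) • w) z.2)) = (z.1, Φ (n • w) z.2)
    rw [h.apply_neg, ← h.add_apply]
    congr 3
    simp only [zero_smul, neg_smul]
    abel
  rw [h4] at h3
  exact h3

theorem relK_mp (h : Act μ Φ) (w : ℤ) :
    ∀ᵐ x ∂μ, ∀ n : ℤ, MeasurePreserving (Φ (n • w)) (relK μ Φ w x) (relK μ Φ w x) := by
  rw [ae_all_iff]
  intro n
  have hm := h.measurable (n • w)
  have h1 : μ ⊗ₘ ((relK μ Φ w).map (Φ (n • w))) = μ ⊗ₘ (relK μ Φ w) := by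
    rw [Measure.compProd_map hm]
    exact (relSq_snd h w n).map_eq
  have : IsMarkovKernel ((relK μ Φ w).map (Φ (n • w))) := Kernel.IsMarkovKernel.map _ hm
  have h2 := Kernel.ae_eq_of_compProd_eq h1
  filter_upwards [h2] with x hx
  refine ⟨hm, ?_⟩
  rw [Kernel.map_apply _ hm] at hx
  exact hx

theorem relK_orbit (h : Act μ Φ) (w n : ℤ) (x : X) :
    relK μ Φ w (Φ (n • w) x) = relK μ Φ w x := by
  have h1 : ∀ y, relK μ Φ w (Φ w y) = relK μ Φ w y := by
    intro y
    ext s hs
    have h2 : Measurable[inv Φ w] fun y => relK μ Φ w y s := by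
      unfold relK
      simp only [Kernel.comap_apply, id_eq]
      exact measurable_condExpKernel hs
    exact congrFun (MeasurableSpace.comp_eq_of_measurable_invariants h2) y
  have hnat : ∀ (n : ℕ) (y : X), relK μ Φ w (Φ (n • w) y) = relK μ Φ w y := by
    intro n
    induction n with
    | zero => intro y; rw [zero_nsmul, h.zero_apply]
    | succ n ih => intro y; rw [succ_nsmul, h.add_apply, ih, h1]
  obtain ⟨n, rfl | rfl⟩ := n.eq_nat_or_neg
  · rw [natCast_zsmul]
    exact hnat n x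
  · rw [neg_smul, natCast_zsmul]
    rw [← hnat n (Φ (-(n • w)) x), h.apply_neg]

/-- the kernel operator -/
def Kf (μ : Measure X) [IsProbabilityMeasure μ] (Φ : ℤ → Equiv.Perm X) (w : ℤ) (H : X × X → ℝ)
    (g : X → ℝ) (x : X) : ℝ :=
  ∫ y, H (x, y) * g y ∂(relK μ Φ w x)

theorem Kf_BMr {H : X × X → ℝ} (hH : BMr H) {g : X → ℝ} (hg : BMr g) :
    BMr (Kf μ Φ w H g) := by
  have hP : BMr fun z : X × X => H z * g z.2 := hH.mul (hg.comp measurable_snd)
  obtain ⟨hPm, C, hC⟩ := hP
  refine ⟨?_, C, fun x => ?_⟩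
  · exact (StronglyMeasurable.integral_kernel_prod_right' (κ := relK μ Φ w)
      (f := fun z : X × X => H z * g z.2) hPm.stronglyMeasurable).measurable
  · have := norm_integral_le_of_norm_le_const (μ := relK μ Φ w x)
      (f := fun y => H (x, y) * g y) (C := C) (Eventually.of_forall fun y => hC (x, y))
    simpa [Kf] using this

theorem Kf_APf (h : Act μ Φ) {H : X × X → ℝ} (hH : BMr H)
    (hinv : ∀ x y, H (Φ w x, Φ w y) = H (x, y)) {g : X → ℝ} (hg : BMr g) :
    APf μ Φ w (Kf μ Φ w H g) := by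
  refine ⟨Kf_BMr hH hg, ?_⟩
  have hdiag : ∀ n : ℤ, ∀ x y, H (Φ (n • w) x, Φ (n • w) y) = H (x, y) := by
    have hnat : ∀ (n : ℕ) (x y : X), H (Φ (n • w) x, Φ (n • w) y) = H (x, y) := by
      intro n
      induction n with
      | zero => intro x y; rw [zero_nsmul, h.zero_apply, h.zero_apply]
      | succ n ih => intro x y; rw [succ_nsmul, h.add_apply, h.add_apply, ih, hinv]
    intro n x y
    obtain ⟨n, rfl | rfl⟩ := n.eq_nat_or_neg
    · rw [natCast_zsmul]
      exact hnat n x y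
    · rw [neg_smul, natCast_zsmul]
      rw [← hnat n (Φ (-(n • w)) x) (Φ (-(n • w)) y), h.apply_neg, h.apply_neg]
  filter_upwards [relK_mp h w] with x hx
  have h1 := bap_orbit (ν := relK μ Φ w x) (V := fun n => Φ (n • w)) hx
    (fun m n y => by rw [add_smul, h.add_apply, h.comm_apply])
    (fun y => by rw [zero_smul, h.zero_apply]) (h := fun y => H (x, y)) (g := g)
    ⟨hH.1.comp measurable_prodMk_left, hH.2.imp fun _ hC y => hC _⟩ hg
  have h2 : (fun n : ℤ => ((Kf μ Φ w H g (Φ (n • w) x) : ℝ) : ℂ)) =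
      fun n : ℤ => ((∫ y, H (x, y) * g (Φ (n • w) y) ∂(relK μ Φ w x) : ℝ) : ℂ) := by
    funext n
    congr 1
    unfold Kf
    rw [relK_orbit h]
    have h3 := integral_map (μ := relK μ Φ w x) (φ := Φ (n • w)) (hx n).measurable.aemeasurable
      (f := fun y => H (Φ (n • w) x, y) * g y)
      (((hH.1.comp measurable_prodMk_left).mul hg.1).aestronglyMeasurable)
    rw [(hx n).map_eq] at h3
    rw [h3]
    refine integral_congr_ae (Eventually.of_forall fun y => ?_)
    simp only
    rw [hdiag]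
  rw [h2]
  exact h1

theorem int_Kf {f : X → ℝ} (hf : BMr f) {H : X × X → ℝ} (hH : BMr H) {g : X → ℝ} (hg : BMr g) :
    ∫ z, f z.1 * (H z * g z.2) ∂(relSq μ Φ w) = ∫ x, f x * Kf μ Φ w H g x ∂μ := by
  unfold relSq
  rw [Measure.integral_compProd (f := fun z : X × X => f z.1 * (H z * g z.2))]
  · refine integral_congr_ae (Eventually.of_forall fun x => ?_)
    simp only
    rw [integral_const_mul]
    rfl
  · exact ((hf.comp measurable_fst).mul (hH.mul (hg.comp measurable_snd))).integrable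

end ker

theorem condExp_version {Z : Type} {m mZ : MeasurableSpace Z} (hm : m ≤ mZ) {ν : Measure Z}
    [IsProbabilityMeasure ν] {F : Z → ℝ} (hF : Measurable F) {D : ℝ} (hD0 : 0 ≤ D)
    (hFD : ∀ z, |F z| ≤ D) :
    ∃ H : Z → ℝ, Measurable[m] H ∧ (∀ z, |H z| ≤ D) ∧
      ∫ z, (ν[F | m]) z ^ 2 ∂ν = ∫ z, F z * H z ∂ν := by
  have hFB : BMr F := ⟨hF, D, hFD⟩
  have hEm : Measurable[m] (ν[F | m]) := stronglyMeasurable_condExp.measurable
  have hEb : ∀ᵐ z ∂ν, |(ν[F | m]) z| ≤ D :=
    ae_bdd_abs_condExp_of_ae_bdd_abs (m := m) (R := D) (Eventually.of_forall hFD)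
  have hHm : Measurable[m] fun z => max (-D) (min D ((ν[F | m]) z)) :=
    (@measurable_const _ _ _ m (-D)).max ((@measurable_const _ _ _ m D).min hEm)
  have hH1 : ∀ z, |max (-D) (min D ((ν[F | m]) z))| ≤ D := by
    intro z
    rw [abs_le]
    exact ⟨le_max_left _ _, max_le (by linarith) (min_le_left _ _)⟩
  refine ⟨fun z => max (-D) (min D ((ν[F | m]) z)), hHm, hH1, ?_⟩
  set H : Z → ℝ := fun z => max (-D) (min D ((ν[F | m]) z)) with hH
  have hHB : BMr H := ⟨hHm.mono hm le_rfl, D, hH1⟩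
  have hEH : ν[F | m] =ᵐ[ν] H := by
    filter_upwards [hEb] with z hz
    rw [abs_le] at hz
    rw [hH]
    simp only
    rw [min_eq_right hz.2, max_eq_right hz.1]
  have h4 : Integrable (F * H) ν := by
    have := (hFB.mul hHB).integrable (μ := ν)
    exact this
  have h5 : ν[F * H | m] =ᵐ[ν] ν[F | m] * H :=
    condExp_mul_of_stronglyMeasurable_right hHm.stronglyMeasurable h4 hFB.integrable
  have h6 := integral_condExp (μ := ν) hm (f := F * H)
  have h7 : ∫ z, F z * H z ∂ν = ∫ z, (F * H) z ∂ν := rfl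
  rw [h7, ← h6]
  refine integral_congr_ae ?_
  filter_upwards [h5, hEH] with z hz1 hz2
  rw [hz1, Pi.mul_apply, sq]
  congr 1

section ker2

variable {X : Type} [MeasurableSpace X] [StandardBorelSpace X] {μ : Measure X}
  [IsProbabilityMeasure μ] {Φ : ℤ → Equiv.Perm X} {w : ℤ}

/-- functions orthogonal to the almost periodic ones have vanishing second order energy -/
theorem energy_zero (h : Act μ Φ) {u : X → ℝ} (hu : Measurable u) {C : ℝ} (hC0 : 0 ≤ C)
    (hu1 : ∀ x, |u x| ≤ C) (horth : ∀ s, APf μ Φ w s → ∫ x, u x * s x ∂μ = 0) :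
    ∫ z, ((relSq μ Φ w)[fun z : X × X => u z.1 * u z.2 | inv (relΦ Φ w 0) w]) z ^ 2
      ∂(relSq μ Φ w) = 0 := by
  have huB : BMr u := ⟨hu, C, hu1⟩
  have hFB : BMr fun z : X × X => u z.1 * u z.2 :=
    (huB.comp measurable_fst).mul (huB.comp measurable_snd)
  have hFD : ∀ z : X × X, |u z.1 * u z.2| ≤ C * C := fun z => by
    rw [abs_mul]
    exact mul_le_mul (hu1 _) (hu1 _) (abs_nonneg _) hC0
  obtain ⟨H, hHm, hH1, hHint⟩ := condExp_version (inv_le (relΦ Φ w (0 : ℤ →+ ℤ)) w)
    (ν := relSq μ Φ w) hFB.1 (mul_nonneg hC0 hC0) hFD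
  have hHB : BMr H := ⟨hHm.mono (inv_le _ _) le_rfl, _, hH1⟩
  have hinv : ∀ x y, H (Φ w x, Φ w y) = H (x, y) := by
    intro x y
    have h1 := congrFun (MeasurableSpace.comp_eq_of_measurable_invariants hHm) (x, y)
    have h2 : relΦ Φ w (0 : ℤ →+ ℤ) w (x, y) = (Φ w x, Φ w y) := by
      rw [relΦ_apply]
      simp
    simp only [Function.comp_apply, h2] at h1
    exact h1
  rw [hHint]
  have h1 : ∫ z, u z.1 * (H z * u z.2) ∂(relSq μ Φ w) = 0 := by
    rw [int_Kf huB hHB huB]
    exact horth _ (Kf_APf h hHB hinv huB)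
  rw [← h1]
  congr 1
  funext z
  ring

end ker2

end Pool.Agent.Y311.CX
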