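import Pool.Agent.Y311.UB.Box

/-!
# Trigonometric polynomials, Besicovitch almost periodic sequences
-/

set_option autoImplicit false

open Filter Topology MeasureTheory

noncomputable section

namespace Pool.Agent.Y311.CX

open Pool.Agent.W761.Box Pool.Agent.Y311.UB

/-- The characters of an abelian group. -/
def Ch (A : Type) [AddCommGroup A] : Set (A → ℂ) :=
  {χ | (∀ a b, χ (a + b) = χ a * χ b) ∧ ∀ a, ‖χ a‖ = 1}

/-- Trigonometric polynomials. -/
def TP (A : Type) [AddCommGroup A] : Submodule ℂ (A → ℂ) := Submodule.span ℂ (Ch A)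

section tp

variable {A B : Type} [AddCommGroup A] [AddCommGroup B]

theorem Ch_mul {χ ψ : A → ℂ} (hχ : χ ∈ Ch A) (hψ : ψ ∈ Ch A) : (χ * ψ) ∈ Ch A := by
  refine ⟨fun a b => ?_, fun a => ?_⟩
  · simp only [Pi.mul_apply]
    rw [hχ.1, hψ.1]
    ring
  · simp only [Pi.mul_apply, norm_mul, hχ.2, hψ.2, mul_one]

theorem Ch_one : (fun _ => 1 : A → ℂ) ∈ Ch A := ⟨fun _ _ => by simp, fun _ => by simp⟩

theorem TP_const (c : ℂ) : (fun _ => c : A → ℂ) ∈ TP A := by
  have h := (TP A).smul_mem c (Submodule.subset_span Ch_one)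
  have h2 : (c • (fun _ => 1 : A → ℂ)) = fun _ => c := by
    funext a
    simp
  rwa [h2] at h

theorem TP_mul {f g : A → ℂ} (hf : f ∈ TP A) (hg : g ∈ TP A) : f * g ∈ TP A := by
  refine Submodule.span_induction (p := fun (f : A → ℂ) _ => f * g ∈ TP A) ?_ ?_ ?_ ?_ hf
  · intro χ hχ
    refine Submodule.span_induction (p := fun (g : A → ℂ) _ => χ * g ∈ TP A) ?_ ?_ ?_ ?_ hg
    · intro ψ hψ
      exact Submodule.subset_span (Ch_mul hχ hψ)
    · rw [mul_zero]
      exact (TP A).zero_mem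
    · intro a b _ _ ha hb
      rw [mul_add]
      exact (TP A).add_mem ha hb
    · intro c a _ ha
      rw [mul_smul_comm]
      exact (TP A).smul_mem c ha
  · rw [zero_mul]
    exact (TP A).zero_mem
  · intro a b _ _ ha hb
    rw [add_mul]
    exact (TP A).add_mem ha hb
  · intro c a _ ha
    rw [smul_mul_assoc]
    exact (TP A).smul_mem c ha

theorem TP_bdd {f : A → ℂ} (hf : f ∈ TP A) : ∃ C : ℝ, 0 < C ∧ ∀ a, ‖f a‖ ≤ C := by
  refine Submodule.span_induction (p := fun (f : A → ℂ) _ => ∃ C : ℝ, 0 < C ∧ ∀ a, ‖f a‖ ≤ C)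
    ?_ ?_ ?_ ?_ hf
  · intro χ hχ
    exact ⟨1, one_pos, fun a => (hχ.2 a).le⟩
  · exact ⟨1, one_pos, fun a => by simp⟩
  · rintro f g _ _ ⟨C, hC, h1⟩ ⟨D, hD, h2⟩
    exact ⟨C + D, by positivity, fun a => (norm_add_le _ _).trans (add_le_add (h1 a) (h2 a))⟩
  · rintro c f _ ⟨C, hC, h1⟩
    refine ⟨‖c‖ * C + 1, by positivity, fun a => ?_⟩
    simp only [Pi.smul_apply, norm_smul]
    have := mul_le_mul_of_nonneg_left (h1 a) (norm_nonneg c)
    linarith

theorem TP_comp {f : B → ℂ} (hf : f ∈ TP B) (L : A →+ B) : (fun a => f (L a)) ∈ TP A := by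
  refine Submodule.span_induction (p := fun (f : B → ℂ) _ => (fun a => f (L a)) ∈ TP A)
    ?_ ?_ ?_ ?_ hf
  · intro χ hχ
    refine Submodule.subset_span ⟨fun a b => ?_, fun a => hχ.2 _⟩
    simp only [map_add]
    exact hχ.1 _ _
  · exact (TP A).zero_mem
  · intro f g _ _ h1 h2
    exact (TP A).add_mem h1 h2
  · intro c f _ h1
    exact (TP A).smul_mem c h1

theorem TP_prod {ι : Type} (s : Finset ι) {f : ι → A → ℂ} (hf : ∀ i ∈ s, f i ∈ TP A) :
    (fun a => ∏ i ∈ s, f i a) ∈ TP A := by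
  classical
  induction s using Finset.induction_on with
  | empty => exact TP_const 1
  | insert i s hi ih =>
    have h1 := TP_mul (hf i (Finset.mem_insert_self i s))
      (ih fun j hj => hf j (Finset.mem_insert_of_mem hj))
    have h2 : (fun a => ∏ j ∈ insert i s, f j a) = f i * fun a => ∏ j ∈ s, f j a := by
      funext a
      rw [Finset.prod_insert hi]
      rfl
    rw [h2]
    exact h1

end tp

/-- complex box averages -/
def bzc {k : ℕ} (N : Fin k → ℕ) (a : (Fin k → ℤ) → ℂ) : ℂ := bxc k N fun m => a (cz m)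

section bzc

variable {k : ℕ}

theorem bzc_eq (N : Fin k → ℕ) (a : (Fin k → ℤ) → ℂ) :
    bzc N a = ((bz N fun m => (a m).re : ℝ) : ℂ) + ((bz N fun m => (a m).im : ℝ) : ℂ) * Complex.I := by
  simp only [bzc, bz, bx, bxc]
  push_cast
  rw [mul_assoc, ← mul_add, Finset.sum_mul, ← Finset.sum_add_distrib]
  congr 1
  refine Finset.sum_congr rfl fun m _ => ?_
  exact (Complex.re_add_im _).symm

theorem bzc_add (N : Fin k → ℕ) (a b : (Fin k → ℤ) → ℂ) :
    bzc N (fun m => a m + b m) = bzc N a + bzc N b := bxc_add _ _ _ _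

theorem bzc_mul (N : Fin k → ℕ) (c : ℂ) (a : (Fin k → ℤ) → ℂ) :
    bzc N (fun m => c * a m) = c * bzc N a := bxc_mul _ _ _ _

theorem bzc_sub (N : Fin k → ℕ) (a b : (Fin k → ℤ) → ℂ) :
    bzc N (fun m => a m - b m) = bzc N a - bzc N b := by
  have h1 : (fun m => a m - b m) = fun m => a m + (-1) * b m := by
    funext m
    ring
  rw [h1, bzc_add, bzc_mul]
  ring

theorem bzc_norm (N : Fin k → ℕ) (a : (Fin k → ℤ) → ℂ) : ‖bzc N a‖ ≤ bz N fun m => ‖a m‖ :=
  bxc_norm _ _ _

theorem bzc_ofReal (N : Fin k → ℕ) (a : (Fin k → ℤ) → ℝ) :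
    bzc N (fun m => (a m : ℂ)) = ((bz N a : ℝ) : ℂ) := by
  simp only [bzc, bz, bx, bxc]
  push_cast
  rfl

theorem tendsto_bzc_shift (v : Fin k → ℤ) {a : (Fin k → ℤ) → ℂ} {C : ℝ} (hC : ∀ m, ‖a m‖ ≤ C) :
    Tendsto (fun N : Fin k → ℕ => bzc N (fun m => a (m + v)) - bzc N a) atTop (𝓝 0) := by
  have h1 := tendsto_bz_shift v (a := fun m => (a m).re) (C := C)
    fun m => (Complex.abs_re_le_norm _).trans (hC m)
  have h2 := tendsto_bz_shift v (a := fun m => (a m).im) (C := C)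
    fun m => (Complex.abs_im_le_norm _).trans (hC m)
  have h3 := ((Complex.continuous_ofReal.tendsto _).comp h1).add
    (((Complex.continuous_ofReal.tendsto _).comp h2).mul_const Complex.I)
  simp only [Complex.ofReal_zero, zero_mul, add_zero] at h3
  refine h3.congr fun N => ?_
  rw [bzc_eq, bzc_eq]
  simp only [Function.comp_apply]
  push_cast
  ring

theorem bzc_one_tendsto : Tendsto (fun N : Fin k → ℕ => bzc N fun _ => (1 : ℂ)) atTop (𝓝 1) := by
  refine tendsto_const_nhds.congr' ?_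
  filter_upwards [eventually_ge_atTop (fun _ : Fin k => 1)] with N hN
  simp only [bzc, bxc, Finset.sum_const, nsmul_eq_mul, mul_one, Fintype.card_piFinset,
    Finset.card_range]
  push_cast
  rw [inv_mul_cancel₀]
  rw [Finset.prod_ne_zero_iff]
  intro i _
  have := hN i
  simp only at this
  exact_mod_cast (by omega : N i ≠ 0)

/-- box averages of trigonometric polynomials converge -/
theorem TP_conv {f : (Fin k → ℤ) → ℂ} (hf : f ∈ TP (Fin k → ℤ)) :
    ∃ c : ℂ, Tendsto (fun N : Fin k → ℕ => bzc N f) atTop (𝓝 c) := by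
  refine Submodule.span_induction (p := fun (f : (Fin k → ℤ) → ℂ) _ =>
    ∃ c : ℂ, Tendsto (fun N : Fin k → ℕ => bzc N f) atTop (𝓝 c)) ?_ ?_ ?_ ?_ hf
  · intro χ hχ
    by_cases h1 : ∀ v, χ v = 1
    · have : χ = fun _ => 1 := funext h1
      rw [this]
      exact ⟨1, bzc_one_tendsto⟩
    · rw [not_forall] at h1
      obtain ⟨v, hv⟩ := h1
      refine ⟨0, ?_⟩
      have h2 := tendsto_bzc_shift v (a := χ) (C := 1) fun m => (hχ.2 m).le
      have h3 := h2.const_mul (χ v - 1)⁻¹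
      rw [mul_zero] at h3
      refine h3.congr fun N => ?_
      have h4 : (fun m => χ (m + v)) = fun m => χ v * χ m := by
        funext m
        rw [hχ.1, mul_comm]
      rw [h4, bzc_mul]
      have h5 : χ v - 1 ≠ 0 := sub_ne_zero.mpr hv
      field_simp
  · refine ⟨0, ?_⟩
    refine tendsto_const_nhds.congr fun N => ?_
    simp [bzc, bxc]
  · rintro f g _ _ ⟨c, hc⟩ ⟨d, hd⟩
    refine ⟨c + d, (hc.add hd).congr fun N => ?_⟩
    rw [← bzc_add]
    rfl
  · rintro a f _ ⟨c, hc⟩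
    refine ⟨a * c, (hc.const_mul a).congr fun N => ?_⟩
    rw [← bzc_mul]
    rfl

end bzc

/-- the two-sided sum -/
def sd (N : ℕ) (c : ℤ → ℝ) : ℝ := ∑ n ∈ Finset.Icc (-(N : ℤ)) N, c n

/-- `c` has upper density at most `ε` -/
def UD (c : ℤ → ℝ) (ε : ℝ) : Prop := ∀ᶠ N : ℕ in atTop, sd N c ≤ ε * (2 * N + 1)

theorem sd_add (N : ℕ) (c d : ℤ → ℝ) : sd N (fun n => c n + d n) = sd N c + sd N d :=
  Finset.sum_add_distrib

theorem sd_mono {N : ℕ} {c d : ℤ → ℝ} (h : ∀ n, c n ≤ d n) : sd N c ≤ sd N d :=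
  Finset.sum_le_sum fun n _ => h n

theorem sd_mul (N : ℕ) (a : ℝ) (c : ℤ → ℝ) : sd N (fun n => a * c n) = a * sd N c := by
  rw [sd, sd, Finset.mul_sum]

theorem card_Icc_two (N : ℕ) : ((Finset.Icc (-(N : ℤ)) N).card : ℝ) = 2 * N + 1 := by
  rw [Int.card_Icc]
  have h : ((N : ℤ) + 1 - -(N : ℤ)).toNat = 2 * N + 1 := by omega
  rw [h]
  push_cast
  ring

theorem sd_const (N : ℕ) (a : ℝ) : sd N (fun _ => a) = a * (2 * N + 1) := by
  rw [sd, Finset.sum_const, nsmul_eq_mul, card_Icc_two]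
  ring

theorem UD.add {c d : ℤ → ℝ} {ε δ : ℝ} (h1 : UD c ε) (h2 : UD d δ) :
    UD (fun n => c n + d n) (ε + δ) := by
  filter_upwards [h1, h2] with N hN1 hN2
  rw [sd_add, add_mul]
  exact add_le_add hN1 hN2

theorem UD.mono {c d : ℤ → ℝ} {ε δ : ℝ} (h1 : UD d ε) (h : ∀ n, c n ≤ d n) (hε : ε ≤ δ) :
    UD c δ := by
  filter_upwards [h1] with N hN
  refine (sd_mono h).trans (hN.trans ?_)
  exact mul_le_mul_of_nonneg_right hε (by positivity)

theorem UD.mul {c : ℤ → ℝ} {ε a : ℝ} (h1 : UD c ε) (ha : 0 ≤ a) : UD (fun n => a * c n) (a * ε) := by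
  filter_upwards [h1] with N hN
  rw [sd_mul, mul_assoc]
  exact mul_le_mul_of_nonneg_left hN ha

theorem UD.of_le {c : ℤ → ℝ} {ε : ℝ} (h : ∀ n, c n ≤ ε) : UD c ε := by
  refine Eventually.of_forall fun N => ?_
  refine (sd_mono h).trans ?_
  rw [sd_const]

/-- Besicovitch almost periodic sequences. -/
def BAP (a : ℤ → ℂ) : Prop := ∀ ε : ℝ, 0 < ε → ∃ p ∈ TP ℤ, UD (fun n => ‖a n - p n‖) ε

theorem BAP.of_TP {a : ℤ → ℂ} (h : a ∈ TP ℤ) : BAP a := by
  intro ε hε
  refine ⟨a, h, UD.of_le fun n => ?_⟩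
  rw [sub_self, norm_zero]
  exact hε.le

theorem BAP.closed {a : ℤ → ℂ} (h : ∀ ε : ℝ, 0 < ε → ∃ b, BAP b ∧ UD (fun n => ‖a n - b n‖) ε) :
    BAP a := by
  intro ε hε
  obtain ⟨b, hb, hab⟩ := h (ε / 2) (by positivity)
  obtain ⟨p, hp, hbp⟩ := hb (ε / 2) (by positivity)
  refine ⟨p, hp, (hab.add hbp).mono (fun n => ?_) (by linarith)⟩
  have : a n - p n = (a n - b n) + (b n - p n) := by ring
  rw [this]
  exact norm_add_le _ _

theorem BAP.add {a b : ℤ → ℂ} (ha : BAP a) (hb : BAP b) : BAP (fun n => a n + b n) := by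
  intro ε hε
  obtain ⟨p, hp, h1⟩ := ha (ε / 2) (by positivity)
  obtain ⟨q, hq, h2⟩ := hb (ε / 2) (by positivity)
  refine ⟨p + q, (TP ℤ).add_mem hp hq, (h1.add h2).mono (fun n => ?_) (by linarith)⟩
  have : a n + b n - (p + q) n = (a n - p n) + (b n - q n) := by
    simp only [Pi.add_apply]
    ring
  rw [this]
  exact norm_add_le _ _

theorem BAP.mul {a b : ℤ → ℂ} {C : ℝ} (ha : BAP a) (hb : BAP b) (hbC : ∀ n, ‖b n‖ ≤ C) :
    BAP (fun n => a n * b n) := by
  intro ε hε
  have hC : 0 ≤ C := (norm_nonneg _).trans (hbC 0)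
  obtain ⟨p, hp, h1⟩ := ha (ε / (2 * (C + 1))) (by positivity)
  obtain ⟨D, hD, hpD⟩ := TP_bdd hp
  obtain ⟨q, hq, h2⟩ := hb (ε / (2 * D)) (by positivity)
  refine ⟨p * q, TP_mul hp hq, ((h1.mul hC).add (h2.mul hD.le)).mono (fun n => ?_) ?_⟩
  · have : a n * b n - (p * q) n = (a n - p n) * b n + p n * (b n - q n) := by
      simp only [Pi.mul_apply]
      ring
    rw [this]
    refine (norm_add_le _ _).trans (add_le_add ?_ ?_)
    · rw [norm_mul, mul_comm]
      exact mul_le_mul_of_nonneg_right (hbC n) (norm_nonneg _)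
    · rw [norm_mul]
      exact mul_le_mul_of_nonneg_right (hpD n) (norm_nonneg _)
  · have e1 : C * (ε / (2 * (C + 1))) ≤ ε / 2 := by
      rw [mul_div_assoc', div_le_div_iff₀ (by positivity) (by positivity)]
      nlinarith
    have e2 : D * (ε / (2 * D)) = ε / 2 := by field_simp
    linarith

theorem BAP.const (c : ℂ) : BAP (fun _ => c) := BAP.of_TP (TP_const c)

theorem BAP.smul {a : ℤ → ℂ} (c : ℂ) (ha : BAP a) : BAP (fun n => c * a n) := by
  intro ε hε
  obtain ⟨p, hp, h1⟩ := ha (ε / (‖c‖ + 1)) (by positivity)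
  refine ⟨c • p, (TP ℤ).smul_mem c hp, (h1.mul (norm_nonneg c)).mono (fun n => ?_) ?_⟩
  · rw [Pi.smul_apply, smul_eq_mul, ← mul_sub, norm_mul]
  · rw [mul_div_assoc', div_le_iff₀ (by positivity)]
    nlinarith

/-- Densities along a linear form over boxes. -/
theorem box_dens {k : ℕ} (L : (Fin k → ℤ) →+ ℤ) (hL : L ≠ 0) : ∃ K : ℝ, 0 < K ∧
    ∀ c : ℤ → ℝ, (∀ n, 0 ≤ c n) → ∀ ε : ℝ, 0 < ε → UD c ε →
      ∀ᶠ N : Fin k → ℕ in atTop, bz N (fun m => c (L m)) ≤ K * ε := by
  classical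
  set a : Fin k → ℤ := fun i => L (Pi.single i 1) with ha
  have hLm : ∀ m : Fin k → ℤ, L m = ∑ i, m i * a i := by
    intro m
    have h1 : m = ∑ i, m i • (Pi.single i 1 : Fin k → ℤ) := by
      funext j
      simp [Finset.sum_apply, Pi.single_apply]
    conv_lhs => rw [h1]
    rw [map_sum]
    refine Finset.sum_congr rfl fun i _ => ?_
    rw [map_zsmul, smul_eq_mul]
  have hne : ∃ i, a i ≠ 0 := by
    by_contra hcon
    rw [not_exists] at hcon
    apply hL
    refine DFunLike.ext _ _ fun m => ?_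
    rw [hLm]
    refine Finset.sum_eq_zero fun i _ => ?_
    rw [not_not.mp (hcon i), mul_zero]
  obtain ⟨i₁, hi₁⟩ := hne
  set A : ℕ := ∑ i, (a i).natAbs with hA
  have hAi : ∀ i, (a i).natAbs ≤ A := fun i =>
    Finset.single_le_sum (f := fun i => (a i).natAbs) (fun _ _ => Nat.zero_le _) (Finset.mem_univ i)
  refine ⟨2 * k * A + 1, by positivity, fun c hc ε hε hUD => ?_⟩
  obtain ⟨N₀, hN₀⟩ := eventually_atTop.mp hUD
  filter_upwards [eventually_ge_atTop (fun _ : Fin k => N₀ + 1)] with N hN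
  have hNi : ∀ i, N₀ + 1 ≤ N i := fun i => hN i
  obtain ⟨i₀, -, hmax⟩ := Finset.exists_max_image Finset.univ (fun i => (a i).natAbs * N i)
    ⟨i₁, Finset.mem_univ _⟩
  have ha0 : 1 ≤ (a i₀).natAbs := by
    have h1 := hmax i₁ (Finset.mem_univ _)
    have h2 : 1 ≤ (a i₁).natAbs := Int.natAbs_pos.mpr hi₁
    by_contra hcon
    have h3 : (a i₀).natAbs = 0 := by omega
    simp only [h3, zero_mul] at h1
    have h4 := hNi i₁
    have h5 : 1 * 1 ≤ (a i₁).natAbs * N i₁ := Nat.mul_le_mul h2 (by omega)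
    omega
  set Q : ℕ := k * ((a i₀).natAbs * N i₀) with hQ
  have hk : 1 ≤ k := by have := i₀.isLt; omega
  have hQN : N₀ ≤ Q := by
    have h1 := hNi i₀
    have h2 : N i₀ ≤ (a i₀).natAbs * N i₀ := Nat.le_mul_of_pos_left _ ha0
    have h3 : (a i₀).natAbs * N i₀ ≤ Q := Nat.le_mul_of_pos_left _ hk
    omega
  set box : Finset (Fin k → ℕ) := Fintype.piFinset (fun j => Finset.range (N j)) with hbox
  have hmem : ∀ m ∈ box, L (cz m) ∈ Finset.Icc (-(Q : ℤ)) Q := by
    intro m hm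
    rw [hbox, Fintype.mem_piFinset] at hm
    have h1 : |L (cz m)| ≤ (Q : ℤ) := by
      rw [hLm]
      refine (Finset.abs_sum_le_sum_abs _ _).trans ?_
      have h2 : ∀ i ∈ Finset.univ, |cz m i * a i| ≤ (((a i₀).natAbs * N i₀ : ℕ) : ℤ) := by
        intro i _
        have h3 := Finset.mem_range.mp (hm i)
        rw [abs_mul]
        have h4 : |cz m i| = (m i : ℤ) := abs_of_nonneg (Int.natCast_nonneg _)
        have h5 : |a i| = ((a i).natAbs : ℤ) := (Int.natCast_natAbs _).symm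
        rw [h4, h5]
        have h6 : m i * (a i).natAbs ≤ (a i₀).natAbs * N i₀ := by
          refine le_trans ?_ (hmax i (Finset.mem_univ _))
          rw [mul_comm]
          exact Nat.mul_le_mul_left _ h3.le
        exact_mod_cast h6
      refine (Finset.sum_le_sum h2).trans ?_
      rw [Finset.sum_const, Finset.card_univ, Fintype.card_fin, nsmul_eq_mul, hQ]
      push_cast
      exact le_refl _
    rw [Finset.mem_Icc]
    exact abs_le.mp h1
  set P : ℕ := ∏ i ∈ Finset.univ.erase i₀, N i with hP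
  have hfib : ∀ n, (box.filter fun m => L (cz m) = n).card ≤ P := by
    intro n
    set box' : Finset (Fin k → ℕ) := Fintype.piFinset
      (fun j => Finset.range (if j = i₀ then 1 else N j)) with hbox'
    have hcard : box'.card = P := by
      rw [hbox', Fintype.card_piFinset, hP, ← Finset.mul_prod_erase _ _ (Finset.mem_univ i₀)]
      simp only [Finset.card_range, if_true, one_mul]
      refine Finset.prod_congr rfl fun i hi => ?_
      rw [if_neg (Finset.ne_of_mem_erase hi)]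
    rw [← hcard]
    refine Finset.card_le_card_of_injOn (fun m => Function.update m i₀ 0) ?_ ?_
    · intro m hm
      have hm' := (Finset.mem_filter.mp hm).1
      rw [hbox, Fintype.mem_piFinset] at hm'
      rw [Finset.mem_coe, hbox', Fintype.mem_piFinset]
      intro j
      by_cases hj : j = i₀
      · subst hj
        simp
      · simp only
        rw [Function.update_of_ne hj, if_neg hj]
        exact hm' j
    · intro m hm m' hm' hmm
      have h1 := (Finset.mem_filter.mp hm).2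
      have h2 := (Finset.mem_filter.mp hm').2
      have h3 : ∀ j, j ≠ i₀ → m j = m' j := by
        intro j hj
        have := congrFun hmm j
        simpa [Function.update_of_ne hj] using this
      have h4 : m i₀ = m' i₀ := by
        rw [hLm, ← Finset.add_sum_erase _ _ (Finset.mem_univ i₀)] at h1 h2
        have h5 : ∑ x ∈ Finset.univ.erase i₀, cz m x * a x =
            ∑ x ∈ Finset.univ.erase i₀, cz m' x * a x := by
          refine Finset.sum_congr rfl fun j hj => ?_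
          simp only [cz, h3 j (Finset.ne_of_mem_erase hj)]
        rw [h5] at h1
        have h6 : cz m i₀ * a i₀ = cz m' i₀ * a i₀ := by linarith
        have h7 : a i₀ ≠ 0 := by
          intro h0
          rw [h0] at ha0
          simp at ha0
        have h8 := mul_right_cancel₀ h7 h6
        simpa [cz] using h8
      funext j
      by_cases hj : j = i₀
      · rw [hj]; exact h4
      · exact h3 j hj
  have hsum : ∑ m ∈ box, c (L (cz m)) ≤ P * sd Q c := by
    rw [← Finset.sum_fiberwise_of_maps_to hmem]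
    rw [sd, Finset.mul_sum]
    refine Finset.sum_le_sum fun n _ => ?_
    have h1 : ∑ m ∈ box with L (cz m) = n, c (L (cz m)) =
        ∑ m ∈ box with L (cz m) = n, c n := by
      refine Finset.sum_congr rfl fun m hm => ?_
      rw [(Finset.mem_filter.mp hm).2]
    rw [h1, Finset.sum_const, nsmul_eq_mul]
    exact mul_le_mul_of_nonneg_right (by exact_mod_cast hfib n) (hc n)
  have hprod : (∏ j, (N j : ℝ)) = N i₀ * P := by
    rw [hP, ← Finset.mul_prod_erase _ _ (Finset.mem_univ i₀)]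
    push_cast
    rfl
  have hNpos : ∀ i, (0 : ℝ) < N i := fun i => by
    have := hNi i
    exact_mod_cast (by omega : 0 < N i)
  have hPpos : (0 : ℝ) < P := by
    rw [hP]
    push_cast
    exact Finset.prod_pos fun i _ => hNpos i
  show (∏ j, (N j : ℝ))⁻¹ * ∑ m ∈ box, c (L (cz m)) ≤ _
  rw [hprod, inv_mul_le_iff₀ (mul_pos (hNpos i₀) hPpos)]
  refine hsum.trans ?_
  have h9 := hN₀ Q hQN
  have h10 : (P : ℝ) * sd Q c ≤ P * (ε * (2 * Q + 1)) := mul_le_mul_of_nonneg_left h9 hPpos.le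
  refine h10.trans ?_
  have h11 : (2 * (Q : ℝ) + 1) ≤ N i₀ * (2 * k * A + 1) := by
    have h12 : (Q : ℝ) = k * ((a i₀).natAbs * N i₀) := by
      rw [hQ]
      push_cast
      rfl
    have h13 : ((a i₀).natAbs : ℝ) ≤ A := by exact_mod_cast hAi i₀
    have h14 : (1 : ℝ) ≤ N i₀ := by
      have := hNi i₀
      exact_mod_cast (by omega : 1 ≤ N i₀)
    rw [h12]
    have h15 : (k : ℝ) * ((a i₀).natAbs * N i₀) ≤ k * (A * N i₀) := by gcongr
    nlinarith
  calc (P : ℝ) * (ε * (2 * Q + 1)) = P * ε * (2 * Q + 1) := by ring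
    _ ≤ P * ε * (N i₀ * (2 * k * A + 1)) := mul_le_mul_of_nonneg_left h11 (by positivity)
    _ = _ := by ring

end Pool.Agent.Y311.CX
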