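import Pool.Agent.Y311.CX.Seq
import Pool.Agent.Y311.UB.Rel

/-!
# The σ-algebra of the sets with almost periodic orbits
-/

set_option autoImplicit false
set_option linter.unusedSectionVars false

open Filter Topology MeasureTheory

noncomputable section

namespace Pool.Agent.Y311.CX

open Pool.Agent.Y311.UB

variable {X G : Type} [mX : MeasurableSpace X] [AddCommGroup G] {μ : Measure X}
  {Φ : G → Equiv.Perm X} {w : G}

/-- Bounded measurable functions whose orbits along `w` are almost periodic. -/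
def APf (μ : Measure X) (Φ : G → Equiv.Perm X) (w : G) (s : X → ℝ) : Prop :=
  BMr s ∧ ∀ᵐ x ∂μ, BAP fun n : ℤ => ((s (Φ (n • w) x) : ℝ) : ℂ)

theorem BMr.add' {f g : X → ℝ} (hf : BMr f) (hg : BMr g) : BMr (fun x => f x + g x) := by
  obtain ⟨hf1, C, hC⟩ := hf
  obtain ⟨hg1, D, hD⟩ := hg
  exact ⟨hf1.add hg1, C + D, fun x => (abs_add_le _ _).trans (add_le_add (hC x) (hD x))⟩

theorem BMr.smul' {f : X → ℝ} (hf : BMr f) (c : ℝ) : BMr (fun x => c * f x) := by
  obtain ⟨hf1, C, hC⟩ := hf
  refine ⟨hf1.const_mul c, |c| * C, fun x => ?_⟩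
  rw [abs_mul]
  exact mul_le_mul_of_nonneg_left (hC x) (abs_nonneg _)

theorem APf.add {s t : X → ℝ} (hs : APf μ Φ w s) (ht : APf μ Φ w t) :
    APf μ Φ w fun x => s x + t x := by
  refine ⟨BMr.add' hs.1 ht.1, ?_⟩
  filter_upwards [hs.2, ht.2] with x h1 h2
  have := h1.add h2
  simpa using this

theorem APf.mul {s t : X → ℝ} (hs : APf μ Φ w s) (ht : APf μ Φ w t) :
    APf μ Φ w fun x => s x * t x := by
  refine ⟨hs.1.mul ht.1, ?_⟩
  obtain ⟨C, hC⟩ := ht.1.2
  filter_upwards [hs.2, ht.2] with x h1 h2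
  have := h1.mul h2 (C := C) fun n => by
    rw [Complex.norm_real]
    exact hC _
  simpa using this

theorem APf.smul {s : X → ℝ} (c : ℝ) (hs : APf μ Φ w s) : APf μ Φ w fun x => c * s x := by
  refine ⟨BMr.smul' hs.1 c, ?_⟩
  filter_upwards [hs.2] with x h1
  have := h1.smul (c : ℂ)
  simpa using this

theorem APf.const (c : ℝ) : APf μ Φ w fun _ => c :=
  ⟨⟨measurable_const, |c|, fun _ => le_rfl⟩, Eventually.of_forall fun _ => BAP.const _⟩

/-- functions with small integrals are small somewhere along the sequence -/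
theorem ae_exists_lt [IsProbabilityMeasure μ] {g : ℕ → X → ℝ} (h0 : ∀ i, 0 ≤ᵐ[μ] g i)
    (hi : ∀ i, Integrable (g i) μ) (ht : Tendsto (fun i => ∫ x, g i x ∂μ) atTop (𝓝 0)) :
    ∀ᵐ x ∂μ, ∀ ε : ℝ, 0 < ε → ∃ i, g i x < ε := by
  have hbad : ∀ ε : ℝ, 0 < ε → ∀ᵐ x ∂μ, ∃ i, g i x < ε := by
    intro ε hε
    rw [ae_iff, ← nonpos_iff_eq_zero]
    apply ENNReal.le_of_forall_pos_le_add
    intro η hη _
    rw [zero_add]
    have hη' : (0 : ℝ) < η := by exact_mod_cast hη
    obtain ⟨i, hi'⟩ := ((tendsto_order.mp ht).2 (ε * η) (by positivity)).exists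
    have h1 := mul_meas_ge_le_integral_of_nonneg (h0 i) (hi i) ε
    have h2 : μ.real {x | ε ≤ g i x} ≤ η := le_of_mul_le_mul_left (h1.trans hi'.le) hε
    have h3 : μ {a | ¬ ∃ i, g i a < ε} ≤ μ {x | ε ≤ g i x} := by
      refine measure_mono fun x hx => ?_
      have hx' : ¬ ∃ i, g i x < ε := hx
      rw [not_exists] at hx'
      exact not_lt.mp (hx' i)
    refine h3.trans ?_
    have h4 : μ {x | ε ≤ g i x} = ENNReal.ofReal (μ.real {x | ε ≤ g i x}) := by
      rw [measureReal_def, ENNReal.ofReal_toReal (measure_ne_top _ _)]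
    rw [h4]
    calc ENNReal.ofReal (μ.real {x | ε ≤ g i x}) ≤ ENNReal.ofReal (η : ℝ) :=
          ENNReal.ofReal_le_ofReal h2
      _ = η := ENNReal.ofReal_coe_nnreal
  have hall := ae_all_iff.mpr fun i : ℕ => hbad (1 / ((i : ℝ) + 1)) (by positivity)
  filter_upwards [hall] with x hx ε hε
  obtain ⟨i, hi'⟩ := exists_nat_one_div_lt hε
  obtain ⟨j, hj⟩ := hx i
  exact ⟨j, hj.trans hi'⟩

/-- the two-sided averages are bounded by the two one-sided ones -/
theorem UD_birkhoff (h : Act μ Φ) [IsProbabilityMeasure μ] {D : X → ℝ} (hD : BMr D)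
    (hD0 : ∀ x, 0 ≤ D x) : ∀ᵐ x ∂μ, ∀ δ : ℝ, 0 < δ →
      UD (fun n : ℤ => D (Φ (n • w) x))
        ((μ[D | inv Φ w]) x + (μ[D | inv Φ (-w)]) x + δ) := by
  filter_upwards [h.birkhoff w hD, h.birkhoff (-w) hD] with x h1 h2 δ hδ
  have h3 := (tendsto_order.mp (h1.add h2)).2 ((μ[D | inv Φ w]) x + (μ[D | inv Φ (-w)]) x + δ)
    (by linarith)
  have h4 := (tendsto_add_atTop_iff_nat 1).mpr (h1.add h2)
  have h5 := (tendsto_order.mp h4).2 ((μ[D | inv Φ w]) x + (μ[D | inv Φ (-w)]) x + δ)
    (by linarith)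
  filter_upwards [h5] with N hN
  have hpos : (0 : ℝ) < ((N + 1 : ℕ) : ℝ) := by positivity
  rw [← mul_add, inv_mul_lt_iff₀ hpos] at hN
  have h6 : sd N (fun n : ℤ => D (Φ (n • w) x)) ≤
      ∑ s ∈ Finset.range (N + 1), D (Φ (s • w) x) +
      ∑ s ∈ Finset.range (N + 1), D (Φ (s • -w) x) := by
    have h41 := Finset.sum_union_inter
      (s₁ := (Finset.range (N + 1)).image (fun n : ℕ => (n : ℤ)))
      (s₂ := (Finset.range (N + 1)).image (fun n : ℕ => -(n : ℤ)))
      (f := fun n : ℤ => D (Φ (n • w) x))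
    have h42 : 0 ≤ ∑ n ∈ (Finset.range (N + 1)).image (fun n : ℕ => (n : ℤ)) ∩
        (Finset.range (N + 1)).image (fun n : ℕ => -(n : ℤ)), D (Φ (n • w) x) :=
      Finset.sum_nonneg fun _ _ => hD0 _
    have h43 : ∑ n ∈ (Finset.range (N + 1)).image (fun n : ℕ => (n : ℤ)), D (Φ (n • w) x) =
        ∑ s ∈ Finset.range (N + 1), D (Φ (s • w) x) := by
      rw [Finset.sum_image (fun a _ b _ hab => by simpa using hab)]
      refine Finset.sum_congr rfl fun n _ => ?_
      rw [natCast_zsmul]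
    have h44 : ∑ n ∈ (Finset.range (N + 1)).image (fun n : ℕ => -(n : ℤ)), D (Φ (n • w) x) =
        ∑ s ∈ Finset.range (N + 1), D (Φ (s • -w) x) := by
      rw [Finset.sum_image (fun a _ b _ hab => by simpa using hab)]
      refine Finset.sum_congr rfl fun n _ => ?_
      rw [neg_smul, natCast_zsmul, smul_neg]
    have h45 : sd N (fun n : ℤ => D (Φ (n • w) x)) ≤
        ∑ n ∈ (Finset.range (N + 1)).image (fun n : ℕ => (n : ℤ)) ∪
          (Finset.range (N + 1)).image (fun n : ℕ => -(n : ℤ)), D (Φ (n • w) x) := by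
      refine Finset.sum_le_sum_of_subset_of_nonneg ?_ fun _ _ _ => hD0 _
      intro n hn
      rw [Finset.mem_Icc] at hn
      rw [Finset.mem_union, Finset.mem_image, Finset.mem_image]
      rcases le_or_gt 0 n with h5 | h5
      · exact Or.inl ⟨n.toNat, by rw [Finset.mem_range]; omega, by omega⟩
      · exact Or.inr ⟨(-n).toNat, by rw [Finset.mem_range]; omega, by omega⟩
    linarith
  refine h6.trans (hN.le.trans ?_)
  have h7 : 0 ≤ (μ[D | inv Φ w]) x + (μ[D | inv Φ (-w)]) x + δ := by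
    have h8 : 0 ≤ (μ[D | inv Φ w]) x :=
      ge_of_tendsto h1 (Eventually.of_forall fun N => mul_nonneg (by positivity)
        (Finset.sum_nonneg fun _ _ => hD0 _))
    have h9 : 0 ≤ (μ[D | inv Φ (-w)]) x :=
      ge_of_tendsto h2 (Eventually.of_forall fun N => mul_nonneg (by positivity)
        (Finset.sum_nonneg fun _ _ => hD0 _))
    linarith
  rw [mul_comm]
  refine mul_le_mul_of_nonneg_left ?_ h7
  push_cast
  have : (0 : ℝ) ≤ N := Nat.cast_nonneg N
  linarith

theorem BMr.absSub {f g : X → ℝ} (hf : BMr f) (hg : BMr g) : BMr (fun x => |f x - g x|) := by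
  obtain ⟨hf1, C, hC⟩ := hf
  obtain ⟨hg1, D, hD⟩ := hg
  refine ⟨(hf1.sub hg1).abs, C + D, fun x => ?_⟩
  rw [abs_abs]
  exact (abs_sub _ _).trans (add_le_add (hC x) (hD x))

/-- closure under limits in mean -/
theorem APf.closed (h : Act μ Φ) [IsProbabilityMeasure μ] {s : X → ℝ} (hs : BMr s)
    (hcl : ∀ ε : ℝ, 0 < ε → ∃ s' : X → ℝ, APf μ Φ w s' ∧ ∫ x, |s x - s' x| ∂μ ≤ ε) :
    APf μ Φ w s := by
  refine ⟨hs, ?_⟩
  choose t ht1 ht2 using fun i : ℕ => hcl (1 / ((i : ℝ) + 1)) (by positivity)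
  set D : ℕ → X → ℝ := fun i x => |s x - t i x| with hD
  have hDB : ∀ i, BMr (D i) := fun i => BMr.absSub hs (ht1 i).1
  have hD0 : ∀ i x, 0 ≤ D i x := fun i x => abs_nonneg _
  set g : ℕ → X → ℝ := fun i x => (μ[D i | inv Φ w]) x + (μ[D i | inv Φ (-w)]) x with hg
  have hg0 : ∀ i, 0 ≤ᵐ[μ] g i := by
    intro i
    have h1 := condExp_nonneg (m := inv Φ w) (μ := μ) (f := D i) (Eventually.of_forall (hD0 i))
    have h2 := condExp_nonneg (m := inv Φ (-w)) (μ := μ) (f := D i) (Eventually.of_forall (hD0 i))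
    filter_upwards [h1, h2] with x hx1 hx2
    exact add_nonneg hx1 hx2
  have hgi : ∀ i, Integrable (g i) μ := fun i => integrable_condExp.add integrable_condExp
  have hgint : ∀ i, ∫ x, g i x ∂μ = 2 * ∫ x, D i x ∂μ := by
    intro i
    rw [hg]
    simp only
    rw [integral_add integrable_condExp integrable_condExp, integral_condExp (inv_le Φ w),
      integral_condExp (inv_le Φ (-w))]
    ring
  have hgt : Tendsto (fun i => ∫ x, g i x ∂μ) atTop (𝓝 0) := by
    have h1 : Tendsto (fun i : ℕ => 2 * (1 / ((i : ℝ) + 1))) atTop (𝓝 0) := by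
      have := (tendsto_one_div_add_atTop_nhds_zero_nat (𝕜 := ℝ)).const_mul 2
      rwa [mul_zero] at this
    refine squeeze_zero (fun i => integral_nonneg_of_ae (hg0 i)) (fun i => ?_) h1
    rw [hgint]
    exact mul_le_mul_of_nonneg_left (ht2 i) (by norm_num)
  have h1 := ae_exists_lt hg0 hgi hgt
  have h2 : ∀ᵐ x ∂μ, ∀ i, ∀ δ : ℝ, 0 < δ → UD (fun n : ℤ => D i (Φ (n • w) x)) (g i x + δ) := by
    rw [ae_all_iff]
    intro i
    exact UD_birkhoff h (hDB i) (hD0 i)
  have h3 : ∀ᵐ x ∂μ, ∀ i, BAP fun n : ℤ => ((t i (Φ (n • w) x) : ℝ) : ℂ) := by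
    rw [ae_all_iff]
    exact fun i => (ht1 i).2
  filter_upwards [h1, h2, h3] with x hx1 hx2 hx3
  refine BAP.closed fun ε hε => ?_
  obtain ⟨i, hi⟩ := hx1 (ε / 2) (by positivity)
  refine ⟨_, hx3 i, (hx2 i (ε / 2) (by positivity)).mono (fun n => le_of_eq ?_) (by linarith)⟩
  rw [← Complex.ofReal_sub, Complex.norm_real, Real.norm_eq_abs]

theorem APf.closed_unif (h : Act μ Φ) [IsProbabilityMeasure μ] {s : X → ℝ} (hs : BMr s)
    (hcl : ∀ ε : ℝ, 0 < ε → ∃ s' : X → ℝ, APf μ Φ w s' ∧ ∀ x, |s x - s' x| ≤ ε) :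
    APf μ Φ w s := by
  refine APf.closed h hs fun ε hε => ?_
  obtain ⟨s', h1, h2⟩ := hcl ε hε
  refine ⟨s', h1, ?_⟩
  have h3 : ∫ x, |s x - s' x| ∂μ ≤ ∫ _, ε ∂μ :=
    integral_mono (BMr.absSub hs h1.1).integrable (integrable_const _) h2
  simpa using h3

/-- closure under bounded pointwise limits -/
theorem APf.closed_lim (h : Act μ Φ) [IsProbabilityMeasure μ] {s : X → ℝ} (hs : BMr s)
    {t : ℕ → X → ℝ} (ht : ∀ n, APf μ Φ w (t n)) {C : ℝ} (hC : ∀ n x, |t n x| ≤ C)
    (hlim : ∀ x, Tendsto (fun n => t n x) atTop (𝓝 (s x))) : APf μ Φ w s := by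
  refine APf.closed h hs fun ε hε => ?_
  obtain ⟨hsm, D, hD⟩ := hs
  have htend : Tendsto (fun n => ∫ x, |s x - t n x| ∂μ) atTop (𝓝 0) := by
    have h0 : (0 : ℝ) = ∫ x, (0 : ℝ) ∂μ := by simp
    rw [h0]
    refine tendsto_integral_of_dominated_convergence (fun _ => D + C) ?_ (integrable_const _) ?_ ?_
    · intro n
      exact ((hsm.sub (ht n).1.1).abs).aestronglyMeasurable
    · intro n
      refine Eventually.of_forall fun x => ?_
      rw [Real.norm_eq_abs, abs_abs]
      exact (abs_sub _ _).trans (add_le_add (hD x) (hC n x))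
    · refine Eventually.of_forall fun x => ?_
      have h2 := (tendsto_const_nhds (x := s x)).sub (hlim x)
      rw [sub_self] at h2
      have h3 := h2.abs
      rwa [abs_zero] at h3
  obtain ⟨n, hn⟩ := ((tendsto_order.mp htend).2 ε hε).exists
  exact ⟨t n, ht n, hn.le⟩

theorem ind_APf_union {A B : Set X} (hA : APf μ Φ w (A.indicator fun _ => (1 : ℝ)))
    (hB : APf μ Φ w (B.indicator fun _ => (1 : ℝ))) :
    APf μ Φ w ((A ∪ B).indicator fun _ => (1 : ℝ)) := by
  have h1 := (hA.add hB).add ((hA.mul hB).smul (-1))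
  have h2 : ((A ∪ B).indicator fun _ => (1 : ℝ)) = fun x => (A.indicator (fun _ => (1 : ℝ)) x +
      B.indicator (fun _ => (1 : ℝ)) x) + (-1) * (A.indicator (fun _ => (1 : ℝ)) x *
      B.indicator (fun _ => (1 : ℝ)) x) := by
    funext x
    by_cases h1 : x ∈ A <;> by_cases h2 : x ∈ B <;> simp [h1, h2]
  rw [h2]
  exact h1

/-- The σ-algebra of the sets whose orbits are almost periodic. -/
def Zs (h : Act μ Φ) [IsProbabilityMeasure μ] (w : G) : MeasurableSpace X where
  MeasurableSet' A := MeasurableSet A ∧ APf μ Φ w (A.indicator fun _ => (1 : ℝ))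
  measurableSet_empty := by
    refine ⟨MeasurableSet.empty, ?_⟩
    rw [Set.indicator_empty]
    exact APf.const 0
  measurableSet_compl := by
    intro A hA
    refine ⟨hA.1.compl, ?_⟩
    have h1 := (APf.const (μ := μ) (Φ := Φ) (w := w) 1).add (hA.2.smul (-1))
    have h2 : (Aᶜ.indicator fun _ => (1 : ℝ)) =
        fun x => 1 + (-1) * A.indicator (fun _ => (1 : ℝ)) x := by
      funext x
      by_cases h1 : x ∈ A <;> simp [h1]
    rw [h2]
    exact h1
  measurableSet_iUnion := by
    intro A hA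
    have hm : MeasurableSet (⋃ i, A i) := MeasurableSet.iUnion fun i => (hA i).1
    refine ⟨hm, ?_⟩
    set B : ℕ → Set X := fun n => ⋃ i ∈ Finset.range n, A i with hB
    have hBc : ∀ n, APf μ Φ w ((B n).indicator fun _ => (1 : ℝ)) := by
      intro n
      induction n with
      | zero =>
        have h1 : B 0 = ∅ := by simp [hB]
        rw [h1, Set.indicator_empty]
        exact APf.const 0
      | succ n ih =>
        have hBs : B (n + 1) = B n ∪ A n := by
          ext y
          simp only [hB, Set.mem_iUnion, Finset.mem_range, Set.mem_union]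
          constructor
          · rintro ⟨i, hi, hy⟩
            rcases Nat.lt_succ_iff_lt_or_eq.mp hi with h | h
            · exact Or.inl ⟨i, h, hy⟩
            · subst h; exact Or.inr hy
          · rintro (⟨i, hi, hy⟩ | hy)
            · exact ⟨i, by omega, hy⟩
            · exact ⟨n, by omega, hy⟩
        rw [hBs]
        exact ind_APf_union ih (hA n).2
    refine APf.closed_lim h (BMr.indicator hm) hBc (C := 1) (fun n x => ?_) fun x => ?_
    · by_cases h1 : x ∈ B n <;> simp [h1]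
    · by_cases h1 : x ∈ ⋃ i, A i
      · obtain ⟨i, hi⟩ := Set.mem_iUnion.mp h1
        refine tendsto_const_nhds.congr' ?_
        filter_upwards [eventually_gt_atTop i] with n hn
        have h2 : x ∈ B n := by
          simp only [hB, Set.mem_iUnion, Finset.mem_range]
          exact ⟨i, hn, hi⟩
        simp [h1, h2]
      · refine tendsto_const_nhds.congr fun n => ?_
        have h2 : x ∉ B n := by
          intro h3
          simp only [hB, Set.mem_iUnion, Finset.mem_range] at h3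
          obtain ⟨i, _, hi⟩ := h3
          exact h1 (Set.mem_iUnion.mpr ⟨i, hi⟩)
        simp [h1, h2]

theorem Zs_le (h : Act μ Φ) [IsProbabilityMeasure μ] (w : G) : Zs h w ≤ mX := fun _ hs => hs.1

/-- bounded `Zs`-measurable functions have almost periodic orbits -/
theorem APf_of_measurable (h : Act μ Φ) [IsProbabilityMeasure μ] {f : X → ℝ}
    (hf : Measurable[Zs h w] f) {C : ℝ} (hC : ∀ x, |f x| ≤ C) : APf μ Φ w f := by
  have hfB : BMr f := ⟨hf.mono (Zs_le h w) le_rfl, C, hC⟩
  have hsimple : ∀ φ : @SimpleFunc X (Zs h w) ℝ, APf μ Φ w fun x => φ x := by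
    intro φ
    refine @SimpleFunc.induction X ℝ (Zs h w) _ (fun φ => APf μ Φ w fun x => φ x) ?_ ?_ φ
    · intro c s hs
      have h0 := hs.2.smul c
      have h1 : (fun x => (@SimpleFunc.piecewise X ℝ (Zs h w) s hs
          (@SimpleFunc.const X ℝ (Zs h w) c) (@SimpleFunc.const X ℝ (Zs h w) 0)) x) =
          fun x => c * s.indicator (fun _ => (1 : ℝ)) x := by
        funext x
        by_cases hx : x ∈ s <;> simp [hx]
      rw [h1]
      exact h0
    · intro φ₁ φ₂ _ h1 h2
      exact h1.add h2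
  have hsm : StronglyMeasurable[Zs h w] f := hf.stronglyMeasurable
  have hC0 : 0 ≤ |C| := abs_nonneg C
  refine APf.closed_lim h hfB (t := fun n x => hsm.approxBounded |C| n x) (fun n => hsimple _)
    (C := |C|) (fun n x => ?_) fun x => ?_
  · rw [← Real.norm_eq_abs]
    exact hsm.norm_approxBounded_le hC0 n x
  · exact hsm.tendsto_approxBounded_of_norm_le (c := |C|) (x := x) ((hC x).trans (le_abs_self _))

theorem APf.comp_cont (h : Act μ Φ) [IsProbabilityMeasure μ] {s : X → ℝ} (hs : APf μ Φ w s)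
    {φ : ℝ → ℝ} (hφ : Continuous φ) : APf μ Φ w fun x => φ (s x) := by
  obtain ⟨hsm, C, hC⟩ := hs.1
  have hpoly : ∀ p : Polynomial ℝ, APf μ Φ w fun x => p.eval (s x) := by
    intro p
    induction p using Polynomial.induction_on' with
    | add p q hp hq =>
      simp only [Polynomial.eval_add]
      exact hp.add hq
    | monomial n a =>
      simp only [Polynomial.eval_monomial]
      have hpow : ∀ n : ℕ, APf μ Φ w fun x => s x ^ n := by
        intro n
        induction n with
        | zero => simpa using APf.const (μ := μ) (Φ := Φ) (w := w) 1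
        | succ n ih =>
          have := ih.mul hs
          simpa [pow_succ] using this
      exact (hpow n).smul a
  have hcomp := isCompact_Icc (a := -C) (b := C)
  obtain ⟨D, hD⟩ := hcomp.exists_bound_of_continuousOn hφ.continuousOn
  have hB : BMr fun x => φ (s x) :=
    ⟨hφ.measurable.comp hsm, D, fun x => hD _ (abs_le.mp (hC x))⟩
  refine APf.closed_unif h hB fun ε hε => ?_
  obtain ⟨p, hp⟩ := exists_polynomial_near_of_continuousOn (-C) C φ hφ.continuousOn ε hε
  refine ⟨_, hpoly p, fun x => ?_⟩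
  rw [abs_sub_comm]
  exact (hp _ (abs_le.mp (hC x))).le

theorem APf.measurable (h : Act μ Φ) [IsProbabilityMeasure μ] {s : X → ℝ} (hs : APf μ Φ w s) :
    Measurable[Zs h w] s := by
  refine @measurable_of_Ioi ℝ X _ _ _ (Zs h w) _ _ _ s fun c => ?_
  have hm : MeasurableSet (s ⁻¹' Set.Ioi c) := hs.1.1 measurableSet_Ioi
  refine ⟨hm, ?_⟩
  refine APf.closed_lim h (BMr.indicator hm)
    (t := fun n x => min 1 (max 0 ((n : ℝ) * (s x - c)))) (fun n => ?_) (C := 1)
    (fun n x => ?_) fun x => ?_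
  · refine hs.comp_cont h (φ := fun t => min 1 (max 0 ((n : ℝ) * (t - c)))) ?_
    fun_prop
  · rw [abs_le]
    constructor
    · have : 0 ≤ min 1 (max 0 ((n : ℝ) * (s x - c))) := le_min zero_le_one (le_max_left _ _)
      linarith
    · exact min_le_left _ _
  · by_cases hx : c < s x
    · rw [Set.indicator_of_mem (by exact hx)]
      obtain ⟨n₀, hn₀⟩ := exists_nat_ge (1 / (s x - c))
      refine tendsto_const_nhds.congr' ?_
      filter_upwards [eventually_ge_atTop n₀] with n hn
      have h1 : 0 < s x - c := by linarith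
      have h2 : 1 ≤ (n : ℝ) * (s x - c) := by
        have h3 : (n₀ : ℝ) ≤ n := by exact_mod_cast hn
        have h4 : 1 / (s x - c) ≤ n := hn₀.trans h3
        rwa [div_le_iff₀ h1] at h4
      rw [max_eq_right (by linarith), min_eq_left h2]
    · rw [Set.indicator_of_notMem (by exact hx)]
      refine tendsto_const_nhds.congr fun n => ?_
      have h1 : (n : ℝ) * (s x - c) ≤ 0 :=
        mul_nonpos_of_nonneg_of_nonpos (Nat.cast_nonneg _) (by linarith)
      rw [max_eq_left h1, min_eq_right zero_le_one]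

/-- The projection to the functions with almost periodic orbits. -/
theorem exists_proj (h : Act μ Φ) [IsProbabilityMeasure μ] (w : G) {f : X → ℝ}
    (hf : Measurable f) (hf1 : ∀ x, |f x| ≤ 1) :
    ∃ fs : X → ℝ, APf μ Φ w fs ∧ (∀ x, |fs x| ≤ 1) ∧
      ∀ s, APf μ Φ w s → ∫ x, (f x - fs x) * s x ∂μ = 0 := by
  have hm := Zs_le h w
  have hfB : BMr f := ⟨hf, 1, hf1⟩
  set E : X → ℝ := μ[f | Zs h w] with hE
  have hEm : Measurable[Zs h w] E := stronglyMeasurable_condExp.measurable
  set fs : X → ℝ := fun x => max (-1) (min 1 (E x)) with hfs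
  have hfsm : Measurable[Zs h w] fs :=
    (@measurable_const _ _ _ (Zs h w) (-1 : ℝ)).max ((@measurable_const _ _ _ (Zs h w) (1 : ℝ)).min hEm)
  have hfs1 : ∀ x, |fs x| ≤ 1 := by
    intro x
    rw [abs_le]
    exact ⟨le_max_left _ _, max_le (by norm_num) (min_le_left _ _)⟩
  have hEfs : E =ᵐ[μ] fs := by
    have h1 : ∀ᵐ x ∂μ, |E x| ≤ 1 := by
      have := ae_bdd_abs_condExp_of_ae_bdd_abs (m := Zs h w) (R := (1 : ℝ)) (μ := μ) (f := f)
        (Eventually.of_forall hf1)
      exact this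
    filter_upwards [h1] with x hx
    rw [abs_le] at hx
    rw [hfs]
    simp only
    rw [min_eq_right hx.2, max_eq_right hx.1]
  refine ⟨fs, APf_of_measurable h hfsm hfs1, hfs1, fun s hs => ?_⟩
  have hsm := hs.measurable h
  have h4 : Integrable (f * s) μ := by
    have := (hfB.mul hs.1).integrable (μ := μ)
    exact this
  have h5 : μ[f * s | Zs h w] =ᵐ[μ] μ[f | Zs h w] * s :=
    condExp_mul_of_stronglyMeasurable_right hsm.stronglyMeasurable h4 hfB.integrable
  have h6 := integral_condExp (μ := μ) hm (f := f * s)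
  have h7 : ∫ x, f x * s x ∂μ = ∫ x, fs x * s x ∂μ := by
    have h8 : ∫ x, f x * s x ∂μ = ∫ x, (f * s) x ∂μ := rfl
    rw [h8, ← h6]
    refine integral_congr_ae ?_
    filter_upwards [h5, hEfs] with x hx1 hx2
    rw [hx1, Pi.mul_apply]
    congr 1
  have hfsB : BMr fs := ⟨hfsm.mono hm le_rfl, 1, hfs1⟩
  have h9 : (fun x => (f x - fs x) * s x) = fun x => f x * s x - fs x * s x := by
    funext x
    ring
  rw [h9, integral_sub (hfB.mul hs.1).integrable (hfsB.mul hs.1).integrable, h7, sub_self]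

end Pool.Agent.Y311.CX
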